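import Mathlib

set_option autoImplicit false

/-! Integers with a large common factor with the value of a function (helper536). -/

namespace Pool.Agent.U536.CF

/-- `w ≥ exp ((log N)^b)` and the greatest common divisor of `w` and `f m` is at least `w^ρ` -/
def Common (f : ℕ → ℕ) (b ρ : ℝ) (N m w : ℕ) : Prop :=
  Real.exp (Real.log N ^ b) ≤ (w : ℝ) ∧ (w : ℝ) ^ ρ ≤ (Nat.gcd w (f m) : ℝ)

lemma Common.one_le {f : ℕ → ℕ} {b ρ : ℝ} {N m w : ℕ} (h : Common f b ρ N m w) : 1 ≤ w := by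
  have : (0 : ℝ) < w := lt_of_lt_of_le (Real.exp_pos _) h.1
  exact_mod_cast this

/-- the large divisors of `f m` -/
theorem common_of_dvd {f : ℕ → ℕ} {b ρ : ℝ} {N m w : ℕ} (hρ : ρ ≤ 1) (hw : Real.exp (Real.log N ^ b) ≤ (w : ℝ))
    (hd : w ∣ f m) : Common f b ρ N m w := by
  refine ⟨hw, ?_⟩
  have h0 : (0 : ℝ) < w := lt_of_lt_of_le (Real.exp_pos _) hw
  have h1 : (1 : ℝ) ≤ w := by exact_mod_cast (by exact_mod_cast h0 : 0 < w)
  rw [Nat.gcd_eq_left hd]
  calc (w : ℝ) ^ ρ ≤ (w : ℝ) ^ (1 : ℝ) := Real.rpow_le_rpow_of_exponent_le h1 hρ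
    _ = w := Real.rpow_one _

/-- the orders of the elements of the group of units modulo `m` -/
theorem common_order {b ρ : ℝ} {N m : ℕ} (hρ : ρ ≤ 1) (x : (ZMod m)ˣ) (hw : Real.exp (Real.log N ^ b) ≤ (orderOf x : ℝ)) :
    Common Nat.totient b ρ N m (orderOf x) := by
  apply common_of_dvd hρ hw
  rcases Nat.eq_zero_or_pos m with h | h
  · subst h
    simp
  · have : NeZero m := ⟨h.ne'⟩
    rw [← ZMod.card_units_eq_totient]
    exact orderOf_dvd_card

end Pool.Agent.U536.CF
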