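import Mathlib

set_option autoImplicit false

/-! Ordered factorizations into `j` factors (helper536): a power of their number is at most the number of the
factorizations into `K` factors, `K ≥ j ^ q`. -/

namespace Pool.Agent.U536.CF

open Finset

/-- the number of ordered factorizations of `v` into `j` factors -/
def T : ℕ → ℕ → ℕ
  | 0, v => if v = 1 then 1 else 0
  | j + 1, v => ∑ d ∈ v.divisors, T j d

lemma T_zero (v : ℕ) : T 0 v = if v = 1 then 1 else 0 := rfl

lemma T_succ (j v : ℕ) : T (j + 1) v = ∑ d ∈ v.divisors, T j d := rfl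

open ArithmeticFunction in
lemma T_eq (j v : ℕ) : T j v = (zeta ^ j : ArithmeticFunction ℕ) v := by
  induction j generalizing v with
  | zero => rw [T_zero, pow_zero, ArithmeticFunction.one_apply]
  | succ j ih =>
    rw [T_succ, pow_succ, ArithmeticFunction.mul_zeta_apply]
    exact sum_congr rfl (fun d _ => ih d)

open ArithmeticFunction in
lemma mult (j : ℕ) : (zeta ^ j : ArithmeticFunction ℕ).IsMultiplicative := by
  induction j with
  | zero => rw [pow_zero]; exact ArithmeticFunction.isMultiplicative_one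
  | succ j ih =>
    rw [pow_succ]
    exact ih.mul ArithmeticFunction.isMultiplicative_zeta

lemma T_mono (j v : ℕ) (hv : 1 ≤ v) : T j v ≤ T (j + 1) v := by
  rw [T_succ]
  exact single_le_sum (f := fun d => T j d) (fun _ _ => Nat.zero_le _) (Nat.mem_divisors_self v (by omega))

lemma T_mono' {i j : ℕ} (hij : i ≤ j) (v : ℕ) (hv : 1 ≤ v) : T i v ≤ T j v := by
  induction j, hij using Nat.le_induction with
  | base => exact le_rfl
  | succ n _ ih => exact ih.trans (T_mono n v hv)

lemma T_prime_pow (j : ℕ) {p : ℕ} (hp : p.Prime) (a : ℕ) : T (j + 1) (p ^ a) = Nat.choose (j + a) a := by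
  induction j generalizing a with
  | zero =>
    rw [T_succ, Nat.divisors_prime_pow hp, sum_map]
    simp only [Function.Embedding.coeFn_mk, T_zero]
    rw [sum_eq_single 0]
    · simp
    · intro b _ hb
      rw [if_neg]
      intro h
      rcases Nat.pow_eq_one.1 h with h1 | h1
      · exact hp.one_lt.ne' h1
      · exact hb h1
    · intro h
      exact absurd (mem_range.2 (Nat.succ_pos a)) h
  | succ j ih =>
    induction a with
    | zero =>
      rw [pow_zero, T_succ, Nat.divisors_one, sum_singleton]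
      have := ih 0
      rw [pow_zero] at this
      rw [this]
      simp
    | succ a iha =>
      rw [T_succ, Nat.divisors_prime_pow hp, sum_map, sum_range_succ] at *
      simp only [Function.Embedding.coeFn_mk] at *
      rw [sum_range_succ, iha, ih]
      have h1 : j + 1 + (a + 1) = (j + 1 + a) + 1 := by ring
      rw [h1, Nat.choose_succ_succ]
      have h2 : j + (a + 1) = j + 1 + a := by ring
      rw [h2]

/-- Jensen's inequality -/
lemma step {J K a : ℕ} {q : ℝ} (hq : 1 ≤ q) (hJK : (J : ℝ) ^ q ≤ K) :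
    (((J : ℝ) + a) / (a + 1)) ^ q ≤ ((K : ℝ) + a) / (a + 1) := by
  have ha : (0 : ℝ) < (a : ℝ) + 1 := by positivity
  have w1 : (0 : ℝ) ≤ 1 / ((a : ℝ) + 1) := by positivity
  have w2 : (0 : ℝ) ≤ (a : ℝ) / (a + 1) := by positivity
  have w3 : 1 / ((a : ℝ) + 1) + (a : ℝ) / (a + 1) = 1 := by field_simp; ring
  have m1 : (J : ℝ) ∈ Set.Ici (0 : ℝ) := Set.mem_Ici.2 (Nat.cast_nonneg _)
  have m2 : (1 : ℝ) ∈ Set.Ici (0 : ℝ) := Set.mem_Ici.2 zero_le_one
  have h0 := (convexOn_rpow hq).2
  have h := h0 m1 m2 w1 w2 w3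
  simp only [smul_eq_mul] at h
  have e1 : 1 / ((a : ℝ) + 1) * J + (a : ℝ) / (a + 1) * 1 = ((J : ℝ) + a) / (a + 1) := by
    field_simp
  have e2 : 1 / ((a : ℝ) + 1) * (J : ℝ) ^ q + (a : ℝ) / (a + 1) * (1 : ℝ) ^ q = ((J : ℝ) ^ q + a) / (a + 1) := by
    rw [Real.one_rpow]
    field_simp
  rw [e1, e2] at h
  refine h.trans ?_
  gcongr

lemma choose_pow {J K : ℕ} {q : ℝ} (hq : 1 ≤ q) (hJK : ((J : ℝ) + 1) ^ q ≤ (K : ℝ) + 1) (a : ℕ) :
    (Nat.choose (J + a) a : ℝ) ^ q ≤ Nat.choose (K + a) a := by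
  induction a with
  | zero => simp
  | succ a ih =>
    have e : ∀ n : ℕ, (Nat.choose (n + (a + 1)) (a + 1) : ℝ) = Nat.choose (n + a) a * (((n : ℝ) + 1 + a) / (a + 1)) := by
      intro n
      have h1 := Nat.add_one_mul_choose_eq (n + a) a
      have h2 : (((n + a + 1 : ℕ)) : ℝ) * (Nat.choose (n + a) a : ℝ) = (Nat.choose (n + a + 1) (a + 1) : ℝ) * ((a : ℝ) + 1) := by
        exact_mod_cast h1
      have ha : (0 : ℝ) < (a : ℝ) + 1 := by positivity
      rw [show n + (a + 1) = n + a + 1 by ring, ← mul_div_assoc, eq_div_iff ha.ne', ← h2]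
      push_cast
      ring
    rw [e J, e K, Real.mul_rpow (Nat.cast_nonneg _) (by positivity)]
    have h3 := step (J := J + 1) (K := K + 1) (a := a) hq (by push_cast; exact hJK)
    push_cast at h3
    apply mul_le_mul ih h3 (by positivity) (Nat.cast_nonneg _)

/-- **the power of the number of factorizations** -/
theorem T_rpow {J K : ℕ} {q : ℝ} (hq : 1 ≤ q) (hJK : ((J : ℝ) + 1) ^ q ≤ (K : ℝ) + 1) {v : ℕ} (hv : 1 ≤ v) :
    (T (J + 1) v : ℝ) ^ q ≤ T (K + 1) v := by
  have hv0 : v ≠ 0 := by omega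
  have e : ∀ j : ℕ, (T (j + 1) v : ℝ) = ∏ p ∈ v.primeFactors, (Nat.choose (j + v.factorization p) (v.factorization p) : ℝ) := by
    intro j
    rw [T_eq, (mult (j + 1)).multiplicative_factorization _ hv0, Finsupp.prod, Nat.support_factorization]
    push_cast
    apply prod_congr rfl
    intro p hp
    rw [← T_eq, T_prime_pow j (Nat.prime_of_mem_primeFactors hp)]
  rw [e J, e K, ← Real.finsetProd_rpow _ _ (fun p _ => Nat.cast_nonneg _)]
  apply prod_le_prod
  · intro p _
    positivity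
  · intro p _
    exact choose_pow hq hJK _

/-- reciprocals of distinct multiples of `d` -/
lemma recip_multiples {ι : Type*} (Q : Finset ι) (g : ι → ℕ) (hinj : Set.InjOn g Q) {d Y : ℕ} (hd : 1 ≤ d)
    (h1 : ∀ x ∈ Q, 1 ≤ g x ∧ g x ≤ Y ∧ d ∣ g x) :
    ∑ x ∈ Q, (1 : ℝ) / g x ≤ 1 / d * (1 + Real.log Y) := by
  classical
  have hd0 : (0 : ℝ) < d := by exact_mod_cast hd
  have hi : Set.InjOn (fun x => g x / d) Q := by
    intro x hx y hy hxy
    simp only at hxy
    apply hinj hx hy
    have a1 := Nat.div_mul_cancel (h1 x hx).2.2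
    have a2 := Nat.div_mul_cancel (h1 y hy).2.2
    rw [← a1, ← a2, hxy]
  have e : ∑ x ∈ Q, (1 : ℝ) / g x = 1 / d * ∑ i ∈ Q.image (fun x => g x / d), (1 : ℝ) / i := by
    rw [sum_image hi, mul_sum]
    apply sum_congr rfl
    intro x hx
    have a1 : ((g x / d : ℕ) : ℝ) * d = g x := by exact_mod_cast Nat.div_mul_cancel (h1 x hx).2.2
    rw [← a1]
    have a2 : ((g x / d : ℕ) : ℝ) ≠ 0 := by
      have : 1 ≤ g x / d := Nat.div_pos (Nat.le_of_dvd (h1 x hx).1 (h1 x hx).2.2) (by omega)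
      have h' : (1 : ℝ) ≤ ((g x / d : ℕ) : ℝ) := by exact_mod_cast this
      linarith
    field_simp
  rw [e]
  apply mul_le_mul_of_nonneg_left _ (by positivity)
  have h2 : ∑ i ∈ Q.image (fun x => g x / d), (1 : ℝ) / i ≤ ∑ i ∈ Icc 1 Y, (1 : ℝ) / i := by
    apply sum_le_sum_of_subset_of_nonneg
    · intro i hi
      rw [mem_image] at hi
      obtain ⟨x, hx, rfl⟩ := hi
      rw [mem_Icc]
      exact ⟨Nat.div_pos (Nat.le_of_dvd (h1 x hx).1 (h1 x hx).2.2) (by omega), (Nat.div_le_self _ _).trans (h1 x hx).2.1⟩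
    · intro i _ _
      positivity
  refine h2.trans ?_
  have h3 := harmonic_le_one_add_log Y
  have h4 : ((harmonic Y : ℚ) : ℝ) = ∑ i ∈ Icc 1 Y, (1 : ℝ) / i := by
    rw [harmonic_eq_sum_Icc]
    push_cast
    apply sum_congr rfl
    intro i _
    rw [one_div]
  rw [← h4]
  exact h3

/-- the mean of the number of factorizations -/
theorem T_sum (K X : ℕ) (hX : 1 ≤ X) : ∑ v ∈ Icc 1 X, (T K v : ℝ) / v ≤ (1 + Real.log X) ^ K := by
  have hl : 0 ≤ 1 + Real.log X := by
    have := Real.log_nonneg (by exact_mod_cast hX : (1 : ℝ) ≤ X)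
    linarith
  induction K with
  | zero =>
    rw [pow_zero]
    rw [sum_eq_single 1]
    · simp [T_zero]
    · intro b _ hb
      rw [T_zero, if_neg hb]
      simp
    · intro h
      exact absurd (mem_Icc.2 ⟨le_rfl, hX⟩) h
  | succ K ih =>
    have e : ∑ v ∈ Icc 1 X, (T (K + 1) v : ℝ) / v = ∑ v ∈ Icc 1 X, ∑ d ∈ v.divisors, (T K d : ℝ) / v := by
      apply sum_congr rfl
      intro v _
      rw [T_succ]
      push_cast
      rw [sum_div]
    have e2 : ∑ v ∈ Icc 1 X, ∑ d ∈ v.divisors, (T K d : ℝ) / v =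
        ∑ d ∈ Icc 1 X, ∑ v ∈ (Icc 1 X).filter (fun v => d ∣ v), (T K d : ℝ) / v := by
      apply sum_comm'
      intro v d
      simp only [mem_Icc, Nat.mem_divisors, mem_filter]
      constructor
      · rintro ⟨⟨h1, h2⟩, h3, h4⟩
        exact ⟨⟨⟨h1, h2⟩, h3⟩, Nat.pos_of_dvd_of_pos h3 (by omega), (Nat.le_of_dvd (by omega) h3).trans h2⟩
      · rintro ⟨⟨⟨h1, h2⟩, h3⟩, h4, h5⟩
        exact ⟨⟨h1, h2⟩, h3, by omega⟩
    rw [e, e2, pow_succ]
    calc ∑ d ∈ Icc 1 X, ∑ v ∈ (Icc 1 X).filter (fun v => d ∣ v), (T K d : ℝ) / v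
        ≤ ∑ d ∈ Icc 1 X, (T K d : ℝ) / d * (1 + Real.log X) := by
          apply sum_le_sum
          intro d hd
          rw [mem_Icc] at hd
          have h1 := recip_multiples ((Icc 1 X).filter (fun v => d ∣ v)) (fun v => v) (fun _ _ _ _ h => h) hd.1
            (fun v hv => by
              rw [mem_filter, mem_Icc] at hv
              exact ⟨hv.1.1, hv.1.2, hv.2⟩)
          have h2 : ∑ v ∈ (Icc 1 X).filter (fun v => d ∣ v), (T K d : ℝ) / v =
              T K d * ∑ v ∈ (Icc 1 X).filter (fun v => d ∣ v), (1 : ℝ) / v := by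
            rw [mul_sum]
            apply sum_congr rfl
            intro v _
            ring
          rw [h2]
          refine (mul_le_mul_of_nonneg_left h1 (Nat.cast_nonneg _)).trans (le_of_eq ?_)
          ring
      _ = (∑ d ∈ Icc 1 X, (T K d : ℝ) / d) * (1 + Real.log X) := by rw [sum_mul]
      _ ≤ (1 + Real.log X) ^ K * (1 + Real.log X) := mul_le_mul_of_nonneg_right ih hl

end Pool.Agent.U536.CF
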