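import Mathlib
import Pool.Agent.N733.TG.G
import Pool.Agent.U536.CF.T

set_option autoImplicit false

/-! Rough squarefree `u` such that `f u` is a multiple of `v` (helper536). -/

namespace Pool.Agent.U536.CF

open Finset Classical
open Pool.Agent.N733.TG (LM Rough)

/-- the rough squarefree `u ≤ t` with `i` prime factors such that `v ∣ f u` -/
noncomputable def SS (f : ℕ → ℕ) (N z i : ℕ) (t : ℝ) (v : ℕ) : Finset ℕ :=
  (Icc 1 N).filter (fun u : ℕ => (u : ℝ) ≤ t ∧ Squarefree u ∧ Rough z u ∧ u.primeFactors.card = i ∧ v ∣ f u)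

/-- **the count for a fixed number of prime factors** -/
theorem core {f : ℕ → ℕ} (hf : LM f) {P M : ℕ} (hM : 1 ≤ M) (hP : ∀ p : ℕ, P ≤ p → p.Prime → f p ≤ M * p ∧
    ∀ q : ℕ, P ≤ q → q.Prime → f q = f p → q = p) {z N : ℕ} (hz : P ≤ z) (hN : 1 ≤ N) (i : ℕ) :
    ∀ (t : ℝ) (v : ℕ), 0 ≤ t → t ≤ N → 1 ≤ v →
      ((SS f N z i t v).card : ℝ) ≤ t / v * (M * (1 + Real.log (M * N : ℕ))) ^ i * T i v := by
  obtain ⟨H, hH⟩ : ∃ H : ℝ, H = M * (1 + Real.log (M * N : ℕ)) := ⟨_, rfl⟩
  have hMN : (1 : ℝ) ≤ (M * N : ℕ) := by exact_mod_cast Nat.mul_pos hM hN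
  have hl : 0 ≤ Real.log (M * N : ℕ) := Real.log_nonneg hMN
  have hH0 : 0 ≤ H := by rw [hH]; positivity
  rw [← hH]
  induction i with
  | zero =>
    intro t v ht0 htN hv
    rw [T_zero]
    by_cases h : 1 ≤ t ∧ v = 1
    · rw [if_pos h.2, h.2]
      have h1 : SS f N z 0 t 1 ⊆ {1} := by
        intro u hu
        rw [SS, mem_filter, mem_Icc] at hu
        obtain ⟨⟨h1, _⟩, _, _, _, h2, _⟩ := hu
        rw [mem_singleton]
        rw [Finset.card_eq_zero, Nat.primeFactors_eq_empty] at h2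
        omega
      have h2 := card_le_card h1
      rw [card_singleton] at h2
      have h3 : ((SS f N z 0 t 1).card : ℝ) ≤ 1 := by exact_mod_cast h2
      push_cast
      rw [pow_zero, div_one, mul_one, mul_one]
      linarith [h.1]
    · have h1 : SS f N z 0 t v = ∅ := by
        rw [Finset.eq_empty_iff_forall_notMem]
        intro u hu
        rw [SS, mem_filter, mem_Icc] at hu
        obtain ⟨⟨h1, _⟩, h0, _, _, h2, h3⟩ := hu
        rw [Finset.card_eq_zero, Nat.primeFactors_eq_empty] at h2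
        have h4 : u = 1 := by omega
        rw [h4] at h0 h3
        rw [hf.one] at h3
        apply h
        refine ⟨by simpa using h0, Nat.dvd_one.1 h3⟩
      rw [h1, card_empty, Nat.cast_zero]
      positivity
  | succ i ih =>
    intro t v ht0 htN hv
    have hv0 : (0 : ℝ) < v := by exact_mod_cast hv
    obtain ⟨PP, hPP⟩ : ∃ PP, PP = (Icc 1 N).filter (fun p : ℕ => p.Prime ∧ z < p ∧ (p : ℝ) ≤ t) := ⟨_, rfl⟩
    have hPPm : ∀ p ∈ PP, 1 ≤ p ∧ p ≤ N ∧ p.Prime ∧ z < p ∧ (p : ℝ) ≤ t := by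
      intro p hp
      rw [hPP, mem_filter, mem_Icc] at hp
      exact ⟨hp.1.1, hp.1.2, hp.2⟩
    have hsub : SS f N z (i + 1) t v ⊆
        PP.biUnion (fun p => (SS f N z i (t / p) (v / Nat.gcd v (f p))).image (fun u => p * u)) := by
      intro u hu
      rw [SS, mem_filter, mem_Icc] at hu
      obtain ⟨⟨h1, hN1⟩, h0, hsq, hr, hc, hd⟩ := hu
      have hu1 : u ≠ 1 := by
        rintro rfl
        rw [Nat.primeFactors_one, card_empty] at hc
        omega
      obtain ⟨p, hp⟩ : ∃ p, p = u.minFac := ⟨_, rfl⟩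
      have hpp : p.Prime := by rw [hp]; exact Nat.minFac_prime hu1
      have hpu : p ∣ u := by rw [hp]; exact Nat.minFac_dvd u
      obtain ⟨w, hw⟩ := hpu
      have hw1 : 1 ≤ w := by
        rcases Nat.eq_zero_or_pos w with h | h
        · rw [h] at hw
          omega
        · exact h
      have hpz : z < p := hr p hpp ⟨w, hw⟩
      have hpu' : p ≤ u := by rw [hw]; exact Nat.le_mul_of_pos_right _ hw1
      have hwu : w ≤ u := by rw [hw]; exact Nat.le_mul_of_pos_left _ hpp.pos
      have hp0 : (0 : ℝ) < p := by exact_mod_cast hpp.pos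
      have hsq' := hsq
      rw [hw, Nat.squarefree_mul_iff] at hsq'
      rw [mem_biUnion]
      refine ⟨p, ?_, ?_⟩
      · rw [hPP, mem_filter, mem_Icc]
        exact ⟨⟨hpp.pos, hpu'.trans hN1⟩, hpp, hpz, le_trans (by exact_mod_cast hpu') h0⟩
      · rw [mem_image]
        refine ⟨w, ?_, hw.symm⟩
        rw [SS, mem_filter, mem_Icc]
        refine ⟨⟨hw1, hwu.trans hN1⟩, ?_, hsq'.2.2, ?_, ?_, ?_⟩
        · rw [le_div_iff₀ hp0]
          have : ((w * p : ℕ) : ℝ) ≤ t := by
            rw [mul_comm, ← hw]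
            exact h0
          exact_mod_cast this
        · intro q hq hqw
          exact hr q hq (by rw [hw]; exact hqw.trans (dvd_mul_left _ _))
        · have e1 : u.primeFactors = insert p w.primeFactors := by
            rw [hw, Nat.Coprime.primeFactors_mul hsq'.1, hpp.primeFactors]
            rfl
          rw [e1, card_insert_of_notMem] at hc
          · omega
          · intro h
            have h5 := Nat.dvd_of_mem_primeFactors h
            have h6 := Nat.dvd_gcd (dvd_refl p) h5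
            rw [hsq'.1] at h6
            exact hpp.one_lt.ne' (Nat.dvd_one.1 h6)
        · have h5 : f u = f p * f w := by rw [hw]; exact hf.mul _ _ hsq'.1
          rw [h5] at hd
          have hg : 0 < Nat.gcd v (f p) := Nat.gcd_pos_of_pos_left _ hv
          have h6 : Nat.Coprime (v / Nat.gcd v (f p)) (f p / Nat.gcd v (f p)) := Nat.coprime_div_gcd_div_gcd hg
          apply h6.dvd_of_dvd_mul_left
          apply Nat.dvd_of_mul_dvd_mul_left hg
          rw [Nat.mul_div_cancel' (Nat.gcd_dvd_left _ _), ← mul_assoc, Nat.mul_div_cancel' (Nat.gcd_dvd_right _ _)]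
          exact hd
    have hc1 : ((SS f N z (i + 1) t v).card : ℝ) ≤
        ∑ p ∈ PP, ((SS f N z i (t / p) (v / Nat.gcd v (f p))).card : ℝ) := by
      have h1 := (card_le_card hsub).trans (card_biUnion_le.trans (sum_le_sum (fun p _ => card_image_le)))
      exact_mod_cast h1
    have hc2 : ∀ p ∈ PP, ((SS f N z i (t / p) (v / Nat.gcd v (f p))).card : ℝ) ≤
        t / p / ((v / Nat.gcd v (f p) : ℕ) : ℝ) * H ^ i * T i (v / Nat.gcd v (f p)) := by
      intro p hp
      obtain ⟨h1, h2, h3, h4, h5⟩ := hPPm p hp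
      have hp1 : (1 : ℝ) ≤ p := by exact_mod_cast h1
      apply ih
      · positivity
      · exact (div_le_self ht0 hp1).trans htN
      · exact Nat.div_pos (Nat.le_of_dvd hv (Nat.gcd_dvd_left _ _)) (Nat.gcd_pos_of_pos_left _ hv)
    refine (hc1.trans (sum_le_sum hc2)).trans ?_
    have hmaps : ∀ p ∈ PP, Nat.gcd v (f p) ∈ v.divisors := by
      intro p _
      rw [Nat.mem_divisors]
      exact ⟨Nat.gcd_dvd_left _ _, by omega⟩
    rw [← sum_fiberwise_of_maps_to hmaps]
    have hin : ∀ d ∈ v.divisors, ∑ p ∈ PP.filter (fun p => Nat.gcd v (f p) = d),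
        t / p / ((v / Nat.gcd v (f p) : ℕ) : ℝ) * H ^ i * T i (v / Nat.gcd v (f p)) ≤
        t / v * H ^ (i + 1) * T i (v / d) := by
      intro d hd
      rw [Nat.mem_divisors] at hd
      have hd1 : 1 ≤ d := Nat.pos_of_dvd_of_pos hd.1 hv
      have hd0 : (0 : ℝ) < d := by exact_mod_cast hd1
      have e1 : ∑ p ∈ PP.filter (fun p => Nat.gcd v (f p) = d),
          t / p / ((v / Nat.gcd v (f p) : ℕ) : ℝ) * H ^ i * T i (v / Nat.gcd v (f p)) =
          (t * d / v * H ^ i * T i (v / d)) * ∑ p ∈ PP.filter (fun p => Nat.gcd v (f p) = d), (1 : ℝ) / p := by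
        rw [mul_sum]
        apply sum_congr rfl
        intro p hp
        rw [mem_filter] at hp
        rw [hp.2, Nat.cast_div hd.1 hd0.ne']
        have hp0 : (p : ℝ) ≠ 0 := by
          have := (hPPm p hp.1).1
          have h' : (1 : ℝ) ≤ p := by exact_mod_cast this
          linarith
        field_simp
      have e2 : ∑ p ∈ PP.filter (fun p => Nat.gcd v (f p) = d), (1 : ℝ) / p ≤ M * (1 / d * (1 + Real.log (M * N : ℕ))) := by
        have h1 := recip_multiples (PP.filter (fun p => Nat.gcd v (f p) = d)) f (by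
          intro p hp q hq hpq
          rw [mem_coe, mem_filter] at hp hq
          obtain ⟨_, _, p3, p4, _⟩ := hPPm p hp.1
          obtain ⟨_, _, q3, q4, _⟩ := hPPm q hq.1
          exact ((hP q (by omega) q3).2 p (by omega) p3 hpq)) (Y := M * N) hd1 (by
          intro p hp
          rw [mem_filter] at hp
          obtain ⟨p1, p2, p3, p4, _⟩ := hPPm p hp.1
          refine ⟨hf.pos p p1, ((hP p (by omega) p3).1).trans (Nat.mul_le_mul_left _ p2), ?_⟩
          rw [← hp.2]
          exact Nat.gcd_dvd_right _ _)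
        refine le_trans ?_ (mul_le_mul_of_nonneg_left h1 (Nat.cast_nonneg _))
        rw [mul_sum]
        apply sum_le_sum
        intro p hp
        rw [mem_filter] at hp
        obtain ⟨p1, p2, p3, p4, _⟩ := hPPm p hp.1
        have hp0 : (0 : ℝ) < p := by exact_mod_cast p1
        have hf0 : (0 : ℝ) < f p := by exact_mod_cast hf.pos p p1
        rw [mul_one_div, div_le_div_iff₀ hp0 hf0, one_mul]
        exact_mod_cast (hP p (by omega) p3).1
      rw [e1]
      refine (mul_le_mul_of_nonneg_left e2 (by positivity)).trans (le_of_eq ?_)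
      rw [pow_succ, hH]
      field_simp
    refine (sum_le_sum hin).trans (le_of_eq ?_)
    rw [← mul_sum, T_succ]
    push_cast
    congr 1
    exact Nat.sum_div_divisors v (fun d => (T i d : ℝ))

/-- **the count for at most `J` prime factors** -/
theorem coreJ {f : ℕ → ℕ} (hf : LM f) {P M : ℕ} (hM : 1 ≤ M) (hP : ∀ p : ℕ, P ≤ p → p.Prime → f p ≤ M * p ∧
    ∀ q : ℕ, P ≤ q → q.Prime → f q = f p → q = p) {z N : ℕ} (hz : P ≤ z) (hN : 1 ≤ N) (J : ℕ)
    {t : ℝ} {v : ℕ} (ht : 0 ≤ t) (htN : t ≤ N) (hv : 1 ≤ v) :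
    (((Icc 1 N).filter (fun u : ℕ => (u : ℝ) ≤ t ∧ Squarefree u ∧ Rough z u ∧ u.primeFactors.card ≤ J ∧ v ∣ f u)).card : ℝ) ≤
      (J + 1) * (t / v * (M * (1 + Real.log (M * N : ℕ))) ^ J * T J v) := by
  have hMN : (1 : ℝ) ≤ (M * N : ℕ) := by exact_mod_cast Nat.mul_pos hM hN
  have hl : 0 ≤ Real.log (M * N : ℕ) := Real.log_nonneg hMN
  have hMr : (1 : ℝ) ≤ M := by exact_mod_cast hM
  have hH1 : 1 ≤ M * (1 + Real.log (M * N : ℕ)) := one_le_mul_of_one_le_of_one_le hMr (by linarith)
  have hsub : (Icc 1 N).filter (fun u : ℕ => (u : ℝ) ≤ t ∧ Squarefree u ∧ Rough z u ∧ u.primeFactors.card ≤ J ∧ v ∣ f u) ⊆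
      (range (J + 1)).biUnion (fun i => SS f N z i t v) := by
    intro u hu
    rw [mem_filter] at hu
    rw [mem_biUnion]
    refine ⟨u.primeFactors.card, mem_range.2 (by omega), ?_⟩
    rw [SS, mem_filter]
    exact ⟨hu.1, hu.2.1, hu.2.2.1, hu.2.2.2.1, rfl, hu.2.2.2.2.2⟩
  have h1 := (card_le_card hsub).trans card_biUnion_le
  have h2 : (((Icc 1 N).filter (fun u : ℕ => (u : ℝ) ≤ t ∧ Squarefree u ∧ Rough z u ∧ u.primeFactors.card ≤ J ∧
      v ∣ f u)).card : ℝ) ≤ ∑ i ∈ range (J + 1), ((SS f N z i t v).card : ℝ) := by exact_mod_cast h1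
  have h3 : ∀ i ∈ range (J + 1), ((SS f N z i t v).card : ℝ) ≤
      t / v * (M * (1 + Real.log (M * N : ℕ))) ^ J * T J v := by
    intro i hi
    rw [mem_range] at hi
    refine (core hf hM hP hz hN i t v ht htN hv).trans ?_
    have h4 : (T i v : ℝ) ≤ T J v := by exact_mod_cast T_mono' (by omega) v hv
    have h5 : (M * (1 + Real.log (M * N : ℕ))) ^ i ≤ (M * (1 + Real.log (M * N : ℕ))) ^ J :=
      pow_le_pow_right₀ hH1 (by omega)
    gcongr
  refine (h2.trans (sum_le_sum h3)).trans (le_of_eq ?_)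
  rw [sum_const, card_range, nsmul_eq_mul]
  push_cast
  ring

end Pool.Agent.U536.CF
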