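import Mathlib
import Pool.Agent.N733.TG.A
import Pool.Agent.N733.TG.B
import Pool.Agent.H510R2.Div

set_option autoImplicit false

/-! Decompositions, squares, sparse sets (helper536). -/

namespace Pool.Agent.U536.CF

open Finset Classical
open Pool.Agent.N733.TG (sp rp sp_mul_rp sp_pos rp_pos le_of_dvd_sp lt_of_dvd_rp coprime_sp_rp Rough)

lemma sp_dvd (z : ℕ) {m : ℕ} (hm : m ≠ 0) : sp z m ∣ m := ⟨rp z m, (sp_mul_rp z m hm).symm⟩

lemma rp_dvd (z : ℕ) {m : ℕ} (hm : m ≠ 0) : rp z m ∣ m := ⟨sp z m, by rw [mul_comm]; exact (sp_mul_rp z m hm).symm⟩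

lemma sp_le {z a m : ℕ} (hm : m ≠ 0) (h : a ∣ m) : sp z a ≤ sp z m := by
  have ha : a ≠ 0 := by
    rintro rfl
    exact hm (Nat.eq_zero_of_zero_dvd h)
  apply Nat.le_of_dvd (sp_pos z m)
  have h1 : sp z a ∣ sp z m * rp z m := by
    rw [sp_mul_rp z m hm]
    exact (sp_dvd z ha).trans h
  refine Nat.Coprime.dvd_of_dvd_mul_right ?_ h1
  by_contra hc
  obtain ⟨p, hp, h3, h4⟩ := Nat.Prime.not_coprime_iff_dvd.1 hc
  have := le_of_dvd_sp hp h3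
  have := lt_of_dvd_rp hp h4
  omega

/-- the decomposition -/
lemma decomp {z m T₀ : ℕ} {Y : ℝ} (hm : 1 ≤ m) (h1 : (sp z m : ℝ) ≤ Y) (h2 : ∀ D : ℕ, T₀ < D → ¬ D ^ 2 ∣ m) :
    ∃ k u : ℕ, m = k * u ∧ Nat.Coprime k u ∧ Squarefree u ∧ Rough z u ∧ 1 ≤ k ∧ 1 ≤ u ∧ (k : ℝ) ≤ (T₀ : ℝ) ^ 3 * Y := by
  obtain ⟨a, b, hab, hsq⟩ := Nat.sq_mul_squarefree m
  have ha0 : a ≠ 0 := hsq.ne_zero
  have hb0 : b ≠ 0 := by
    rintro rfl
    simp at hab
    omega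
  have hbT : b ≤ T₀ := by
    by_contra h
    exact h2 b (not_le.1 h) ⟨a, hab.symm⟩
  obtain ⟨g, hg⟩ : ∃ g, g = Nat.gcd a b := ⟨_, rfl⟩
  have hga : g ∣ a := by rw [hg]; exact Nat.gcd_dvd_left _ _
  have hgb : g ∣ b := by rw [hg]; exact Nat.gcd_dvd_right _ _
  obtain ⟨a', ha'⟩ := hga
  have ha'0 : a' ≠ 0 := by
    rintro rfl
    exact ha0 (by rw [ha', mul_zero])
  have hsq' := hsq
  rw [ha', Nat.squarefree_mul_iff] at hsq'
  have hcop : Nat.Coprime a' b := by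
    have h3 : Nat.gcd a' b ∣ g := by
      rw [hg]
      apply Nat.dvd_gcd
      · exact (Nat.gcd_dvd_left _ _).trans ⟨g, by rw [ha', mul_comm]⟩
      · exact Nat.gcd_dvd_right _ _
    have h4 : Nat.gcd a' b ∣ Nat.gcd g a' := Nat.dvd_gcd h3 (Nat.gcd_dvd_left _ _)
    rw [hsq'.1] at h4
    exact Nat.dvd_one.1 h4
  have hmul := sp_mul_rp z a' ha'0
  have hma' : a' ∣ m := by
    rw [← hab, ha']
    exact Dvd.dvd.mul_left (dvd_mul_left _ _) _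
  refine ⟨b ^ 2 * g * sp z a', rp z a', ?_, ?_, ?_, ?_, ?_, rp_pos z a', ?_⟩
  · rw [← hab, ha']
    conv_lhs => rw [← hmul]
    ring
  · have h5 : Nat.Coprime b (rp z a') := (hcop.coprime_dvd_left (rp_dvd z ha'0)).symm
    apply Nat.Coprime.mul_left
    · apply Nat.Coprime.mul_left
      · exact h5.pow_left 2
      · exact h5.coprime_dvd_left hgb
    · exact coprime_sp_rp z a'
  · exact hsq'.2.2.squarefree_of_dvd (rp_dvd z ha'0)
  · exact fun p hp hd => lt_of_dvd_rp hp hd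
  · have := sp_pos z a'
    have hg1 : 1 ≤ g := Nat.pos_of_dvd_of_pos hgb (by omega)
    have hb1 : 1 ≤ b ^ 2 := Nat.pow_pos (by omega)
    exact Nat.mul_pos (Nat.mul_pos hb1 hg1) this
  · have h6 : (sp z a' : ℝ) ≤ Y := le_trans (by exact_mod_cast sp_le (by omega) hma') h1
    have h7 : (b : ℝ) ≤ T₀ := by exact_mod_cast hbT
    have h8 : (g : ℝ) ≤ T₀ := by exact_mod_cast (Nat.le_of_dvd (by omega) hgb).trans hbT
    push_cast
    have hb0' : (0 : ℝ) ≤ b := Nat.cast_nonneg _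
    have hg0' : (0 : ℝ) ≤ g := Nat.cast_nonneg _
    have hT0 : (0 : ℝ) ≤ T₀ := Nat.cast_nonneg _
    calc (b : ℝ) ^ 2 * g * sp z a' ≤ (T₀ : ℝ) ^ 2 * T₀ * Y := by
          apply mul_le_mul _ h6 (Nat.cast_nonneg _) (by positivity)
          apply mul_le_mul _ h8 hg0' (by positivity)
          exact pow_le_pow_left₀ hb0' h7 2
      _ = _ := by ring

/-- few integers have a large square divisor -/
lemma few_sq (N T₀ : ℕ) (hT : 1 ≤ T₀) :
    (((Icc 1 N).filter (fun m => ∃ D : ℕ, T₀ < D ∧ D ^ 2 ∣ m)).card : ℝ) ≤ N / T₀ := by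
  have hT0 : (0 : ℝ) < T₀ := by exact_mod_cast hT
  rcases Nat.lt_or_ge N T₀ with hNT | hNT
  · have he : (Icc 1 N).filter (fun m => ∃ D : ℕ, T₀ < D ∧ D ^ 2 ∣ m) = ∅ := by
      rw [Finset.eq_empty_iff_forall_notMem]
      intro m hm
      rw [mem_filter, mem_Icc] at hm
      obtain ⟨⟨h1, h2⟩, D, h3, h4⟩ := hm
      have h5 := Nat.le_of_dvd h1 h4
      have h6 : D ≤ D ^ 2 := Nat.le_self_pow (by norm_num) _
      omega
    rw [he, card_empty, Nat.cast_zero]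
    positivity
  have hsub : (Icc 1 N).filter (fun m => ∃ D : ℕ, T₀ < D ∧ D ^ 2 ∣ m) ⊆
      (Ioc T₀ N).biUnion (fun D => (Ioc 0 N).filter (fun m => D ^ 2 ∣ m)) := by
    intro m hm
    rw [mem_filter, mem_Icc] at hm
    obtain ⟨⟨h1, h2⟩, D, h3, h4⟩ := hm
    have h5 := Nat.le_of_dvd h1 h4
    have h6 : D ≤ D ^ 2 := Nat.le_self_pow (by norm_num) _
    rw [mem_biUnion]
    refine ⟨D, mem_Ioc.2 ⟨h3, by omega⟩, ?_⟩
    rw [mem_filter, mem_Ioc]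
    exact ⟨⟨by omega, h2⟩, h4⟩
  have h1 : (((Icc 1 N).filter (fun m => ∃ D : ℕ, T₀ < D ∧ D ^ 2 ∣ m)).card : ℝ) ≤
      ∑ D ∈ Ioc T₀ N, (((Ioc 0 N).filter (fun m => D ^ 2 ∣ m)).card : ℝ) := by
    have := (card_le_card hsub).trans card_biUnion_le
    exact_mod_cast this
  have h2 : ∀ D ∈ Ioc T₀ N, (((Ioc 0 N).filter (fun m => D ^ 2 ∣ m)).card : ℝ) ≤ N * ((D : ℝ) ^ 2)⁻¹ := by
    intro D hD
    rw [Nat.Ioc_filter_dvd_card_eq_div, ← div_eq_mul_inv]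
    have := @Nat.cast_div_le ℝ _ _ _ N (D ^ 2)
    push_cast at this
    exact this
  refine (h1.trans (sum_le_sum h2)).trans ?_
  rw [← mul_sum]
  have h3 : ∑ i ∈ Ioc T₀ N, (((i : ℝ)) ^ 2)⁻¹ ≤ ((T₀ : ℝ))⁻¹ - ((N : ℝ))⁻¹ :=
    sum_Ioc_inv_sq_le_sub (by omega) hNT
  have h4 : (0 : ℝ) ≤ ((N : ℝ))⁻¹ := by positivity
  rw [div_eq_mul_inv]
  apply mul_le_mul_of_nonneg_left _ (Nat.cast_nonneg _)
  linarith

/-- the reciprocals of the large members of a sparse set -/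
lemma sparse_recip {B : Set ℕ} {C θ : ℝ} (hθ : θ ≤ 1)
    (hB : ∀ X : ℕ, 1 ≤ X → (((Icc 1 X).filter (fun v => v ∈ B)).card : ℝ) ≤ C * (X : ℝ) ^ θ) {V : ℝ} (hV : 0 < V)
    {X : ℕ} (hX : 1 ≤ X) :
    ∑ v ∈ (Icc 1 X).filter (fun v : ℕ => v ∈ B ∧ V ≤ v), (1 : ℝ) / v ≤ (1 + 2 * Real.log X) * (2 * C * V ^ (θ - 1)) := by
  have hC : 0 ≤ C := by
    have := hB 1 le_rfl
    rw [Nat.cast_one, Real.one_rpow, mul_one] at this
    exact le_trans (Nat.cast_nonneg _) this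
  obtain ⟨F, hF⟩ : ∃ F, F = (Icc 1 X).filter (fun v : ℕ => v ∈ B ∧ V ≤ v) := ⟨_, rfl⟩
  rw [← hF]
  have hFm : ∀ v ∈ F, 1 ≤ v ∧ v ≤ X ∧ v ∈ B ∧ V ≤ v := by
    intro v hv
    rw [hF, mem_filter, mem_Icc] at hv
    exact ⟨hv.1.1, hv.1.2, hv.2⟩
  have hmaps : ∀ v ∈ F, Nat.log 2 v ∈ range (Nat.log 2 X + 1) := by
    intro v hv
    rw [mem_range]
    have := Nat.log_mono_right (b := 2) (hFm v hv).2.1
    omega
  rw [← sum_fiberwise_of_maps_to hmaps]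
  have hin : ∀ j ∈ range (Nat.log 2 X + 1), ∑ v ∈ F.filter (fun v => Nat.log 2 v = j), (1 : ℝ) / v ≤ 2 * C * V ^ (θ - 1) := by
    intro j _
    rcases (F.filter (fun v => Nat.log 2 v = j)).eq_empty_or_nonempty with he | ⟨v0, hv0⟩
    · rw [he, sum_empty]
      positivity
    have hb : ∀ v ∈ F.filter (fun v => Nat.log 2 v = j), 2 ^ j ≤ v ∧ v < 2 ^ (j + 1) := by
      intro v hv
      rw [mem_filter] at hv
      have h1 := (hFm v hv.1).1
      constructor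
      · rw [← hv.2]
        exact Nat.pow_log_le_self 2 (by omega)
      · rw [← hv.2]
        exact Nat.lt_pow_succ_log_self (by norm_num) v
    have hVj : V ≤ (2 : ℝ) ^ (j + 1) := by
      have h1 := (hb v0 hv0).2
      have h2 := (hFm v0 (mem_filter.1 hv0).1).2.2.2
      have h3 : (v0 : ℝ) ≤ ((2 ^ (j + 1) : ℕ) : ℝ) := by exact_mod_cast h1.le
      push_cast at h3
      linarith
    have hcard : ((F.filter (fun v => Nat.log 2 v = j)).card : ℝ) ≤ C * ((2 : ℝ) ^ (j + 1)) ^ θ := by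
      have h1 := hB (2 ^ (j + 1)) (Nat.one_le_two_pow)
      push_cast at h1
      refine le_trans ?_ h1
      have h2 : (F.filter (fun v => Nat.log 2 v = j)) ⊆ (Icc 1 (2 ^ (j + 1))).filter (fun v => v ∈ B) := by
        intro v hv
        have h3 := hb v hv
        rw [mem_filter] at hv
        have h4 := hFm v hv.1
        rw [mem_filter, mem_Icc]
        exact ⟨⟨h4.1, h3.2.le⟩, h4.2.2.1⟩
      exact_mod_cast card_le_card h2
    have h2j : (0 : ℝ) < (2 : ℝ) ^ j := by positivity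
    calc ∑ v ∈ F.filter (fun v => Nat.log 2 v = j), (1 : ℝ) / v
        ≤ ∑ v ∈ F.filter (fun v => Nat.log 2 v = j), 1 / (2 : ℝ) ^ j := by
          apply sum_le_sum
          intro v hv
          have h3 : (2 : ℝ) ^ j ≤ v := by exact_mod_cast (hb v hv).1
          exact one_div_le_one_div_of_le h2j h3
      _ = ((F.filter (fun v => Nat.log 2 v = j)).card : ℝ) * (1 / (2 : ℝ) ^ j) := by rw [sum_const, nsmul_eq_mul]
      _ ≤ C * ((2 : ℝ) ^ (j + 1)) ^ θ * (1 / (2 : ℝ) ^ j) := mul_le_mul_of_nonneg_right hcard (by positivity)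
      _ = 2 * C * ((2 : ℝ) ^ (j + 1)) ^ (θ - 1) := by
          rw [Real.rpow_sub_one (by positivity), pow_succ]
          field_simp
      _ ≤ 2 * C * V ^ (θ - 1) := by
          apply mul_le_mul_of_nonneg_left _ (by positivity)
          exact Real.rpow_le_rpow_of_nonpos hV hVj (by linarith)
  refine (sum_le_sum hin).trans ?_
  rw [sum_const, card_range, nsmul_eq_mul]
  apply mul_le_mul_of_nonneg_right _ (by positivity)
  have h1 : (2 : ℝ) ^ Nat.log 2 X ≤ X := by exact_mod_cast Nat.pow_log_le_self 2 (by omega)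
  have h2 := Real.log_le_log (by positivity) h1
  rw [Real.log_pow] at h2
  have h3 : (1 / 2 : ℝ) ≤ Real.log 2 := by
    have := Real.log_two_gt_d9
    linarith
  have h4 : (Nat.log 2 X : ℝ) * (1 / 2) ≤ Nat.log 2 X * Real.log 2 := mul_le_mul_of_nonneg_left h3 (Nat.cast_nonneg _)
  push_cast
  linarith

/-- the large divisors of the members of a sparse set -/
lemma div_count {θ ρ : ℝ} (hθ : 0 ≤ θ) (hρ : θ < ρ) (C₀ : ℝ) : ∃ C₁ : ℝ, 0 ≤ C₁ ∧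
    ∀ W : Set ℕ, (∀ X : ℕ, 1 ≤ X → (((Icc 1 X).filter (fun w => w ∈ W)).card : ℝ) ≤ C₀ * (X : ℝ) ^ θ) →
      ∀ X : ℕ, 1 ≤ X → (((Icc 1 X).filter (fun v => v ∈ {v : ℕ | ∃ w ∈ W, 1 ≤ w ∧ v ∣ w ∧ (w : ℝ) ^ ρ ≤ v})).card : ℝ) ≤
        C₁ * (X : ℝ) ^ ((θ + ρ) / (2 * ρ)) := by
  have hρ0 : 0 < ρ := by linarith
  obtain ⟨Cd, hCd0, hCd⟩ := Pool.Agent.H510R2.divisor_bound ((ρ - θ) / 2) (by linarith)
  refine ⟨|C₀| * Cd, by positivity, fun W hW X hX => ?_⟩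
  have hX1 : (1 : ℝ) ≤ X := by exact_mod_cast hX
  obtain ⟨Z, hZ⟩ : ∃ Z : ℕ, Z = ⌊(X : ℝ) ^ (1 / ρ)⌋₊ := ⟨_, rfl⟩
  have hZle : (Z : ℝ) ≤ (X : ℝ) ^ (1 / ρ) := by rw [hZ]; exact Nat.floor_le (by positivity)
  have hZ1 : 1 ≤ Z := by
    rw [hZ]
    apply Nat.le_floor
    rw [Nat.cast_one]
    exact Real.one_le_rpow hX1 (by positivity)
  have hsub : (Icc 1 X).filter (fun v => v ∈ {v : ℕ | ∃ w ∈ W, 1 ≤ w ∧ v ∣ w ∧ (w : ℝ) ^ ρ ≤ v}) ⊆
      ((Icc 1 Z).filter (fun w => w ∈ W)).biUnion (fun w => w.divisors) := by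
    intro v hv
    rw [mem_filter, mem_Icc] at hv
    obtain ⟨⟨hv1, hvX⟩, w, hwW, hw1, hvw, hwv⟩ := hv
    rw [mem_biUnion]
    refine ⟨w, ?_, Nat.mem_divisors.2 ⟨hvw, by omega⟩⟩
    rw [mem_filter, mem_Icc]
    refine ⟨⟨hw1, ?_⟩, hwW⟩
    rw [hZ]
    apply Nat.le_floor
    have h1 : (w : ℝ) ^ ρ ≤ X := hwv.trans (by exact_mod_cast hvX)
    have h2 := Real.rpow_le_rpow (by positivity) h1 (by positivity : 0 ≤ 1 / ρ)
    rw [← Real.rpow_mul (Nat.cast_nonneg _), mul_one_div_cancel hρ0.ne', Real.rpow_one] at h2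
    exact h2
  have h1 : (((Icc 1 X).filter (fun v => v ∈ {v : ℕ | ∃ w ∈ W, 1 ≤ w ∧ v ∣ w ∧ (w : ℝ) ^ ρ ≤ v})).card : ℝ) ≤
      ∑ w ∈ (Icc 1 Z).filter (fun w => w ∈ W), ((w.divisors.card : ℕ) : ℝ) := by
    have := (card_le_card hsub).trans card_biUnion_le
    exact_mod_cast this
  have h2 : ∀ w ∈ (Icc 1 Z).filter (fun w => w ∈ W), ((w.divisors.card : ℕ) : ℝ) ≤ Cd * (Z : ℝ) ^ ((ρ - θ) / 2) := by
    intro w hw
    rw [mem_filter, mem_Icc] at hw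
    refine (hCd w hw.1.1).trans (mul_le_mul_of_nonneg_left ?_ hCd0.le)
    exact Real.rpow_le_rpow (Nat.cast_nonneg _) (by exact_mod_cast hw.1.2) (by linarith)
  refine (h1.trans (sum_le_sum h2)).trans ?_
  rw [sum_const, nsmul_eq_mul]
  have h3 := hW Z hZ1
  have hZ0 : (0 : ℝ) < Z := by exact_mod_cast hZ1
  calc (((Icc 1 Z).filter (fun w => w ∈ W)).card : ℝ) * (Cd * (Z : ℝ) ^ ((ρ - θ) / 2))
      ≤ (|C₀| * (Z : ℝ) ^ θ) * (Cd * (Z : ℝ) ^ ((ρ - θ) / 2)) := by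
        apply mul_le_mul_of_nonneg_right _ (by positivity)
        exact h3.trans (mul_le_mul_of_nonneg_right (le_abs_self _) (by positivity))
    _ = |C₀| * Cd * (Z : ℝ) ^ ((θ + ρ) / 2) := by
        have : (Z : ℝ) ^ ((θ + ρ) / 2) = (Z : ℝ) ^ θ * (Z : ℝ) ^ ((ρ - θ) / 2) := by
          rw [← Real.rpow_add hZ0]
          congr 1
          ring
        rw [this]
        ring
    _ ≤ |C₀| * Cd * ((X : ℝ) ^ (1 / ρ)) ^ ((θ + ρ) / 2) := by
        apply mul_le_mul_of_nonneg_left _ (by positivity)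
        exact Real.rpow_le_rpow hZ0.le hZle (by linarith)
    _ = |C₀| * Cd * (X : ℝ) ^ ((θ + ρ) / (2 * ρ)) := by
        rw [← Real.rpow_mul (by positivity)]
        congr 2
        field_simp

end Pool.Agent.U536.CF
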