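import Mathlib
import Pool.Agent.U536.CF.B
import Pool.Agent.U536.CF.C

set_option autoImplicit false

/-! The exceptional integers with a small first part (helper536). -/

namespace Pool.Agent.U536.CF

open Finset Classical
open Pool.Agent.N733.TG (LM Rough size' omega_le)

/-- Hölder's inequality for the factorization numbers on a sparse set -/
theorem holder_part {B : Set ℕ} {C θ : ℝ} (hθ : θ ≤ 1)
    (hB : ∀ X : ℕ, 1 ≤ X → (((Icc 1 X).filter (fun v => v ∈ B)).card : ℝ) ≤ C * (X : ℝ) ^ θ) {V : ℝ} (hV : 0 < V)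
    {X : ℕ} (hX : 1 ≤ X) {q : ℝ} (hq : 1 < q) {J K : ℕ} (hJK : ((J : ℝ) + 1) ^ q ≤ (K : ℝ) + 1) :
    ∑ v ∈ (Icc 1 X).filter (fun v : ℕ => v ∈ B ∧ V ≤ v), (T J v : ℝ) / v ≤
      ((1 + 2 * Real.log X) * (2 * C * V ^ (θ - 1))) ^ (1 - 1 / q) * ((1 + Real.log X) ^ (K + 1)) ^ (1 / q) := by
  have hq0 : 0 < q := by linarith
  have hpq : q.conjExponent.HolderConjugate q := (Real.HolderConjugate.conjExponent hq).symm
  obtain ⟨p, hp⟩ : ∃ p, p = q.conjExponent := ⟨_, rfl⟩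
  rw [← hp] at hpq
  have hp0 : 0 < p := hpq.pos
  have hp1 : 1 / p = 1 - 1 / q := by
    have := hpq.inv_add_inv_eq_one
    rw [one_div, one_div]
    linarith
  obtain ⟨F, hF⟩ : ∃ F, F = (Icc 1 X).filter (fun v : ℕ => v ∈ B ∧ V ≤ v) := ⟨_, rfl⟩
  have hsp := sparse_recip hθ hB hV hX
  rw [← hF] at hsp ⊢
  have hFm : ∀ v ∈ F, 1 ≤ v ∧ v ≤ X := by
    intro v hv
    rw [hF, mem_filter, mem_Icc] at hv
    exact hv.1
  have h1 := Real.inner_le_Lp_mul_Lq_of_nonneg F hpq (f := fun v : ℕ => ((1 : ℝ) / v) ^ (1 / p))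
    (g := fun v : ℕ => (T J v : ℝ) * ((1 : ℝ) / v) ^ (1 / q)) (fun v _ => by positivity) (fun v _ => by positivity)
  have e1 : ∑ v ∈ F, ((1 : ℝ) / v) ^ (1 / p) * ((T J v : ℝ) * ((1 : ℝ) / v) ^ (1 / q)) = ∑ v ∈ F, (T J v : ℝ) / v := by
    apply sum_congr rfl
    intro v hv
    have hv0 : (0 : ℝ) < v := by exact_mod_cast (hFm v hv).1
    have : ((1 : ℝ) / v) ^ (1 / p) * ((1 : ℝ) / v) ^ (1 / q) = 1 / v := by
      rw [← Real.rpow_add (by positivity), hp1, sub_add_cancel, Real.rpow_one]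
    calc ((1 : ℝ) / v) ^ (1 / p) * ((T J v : ℝ) * ((1 : ℝ) / v) ^ (1 / q)) =
          T J v * (((1 : ℝ) / v) ^ (1 / p) * ((1 : ℝ) / v) ^ (1 / q)) := by ring
      _ = _ := by rw [this, mul_one_div]
  have e2 : ∑ v ∈ F, (((1 : ℝ) / v) ^ (1 / p)) ^ p = ∑ v ∈ F, (1 : ℝ) / v := by
    apply sum_congr rfl
    intro v _
    rw [← Real.rpow_mul (by positivity), one_div_mul_cancel hp0.ne', Real.rpow_one]
  have e3 : ∑ v ∈ F, ((T J v : ℝ) * ((1 : ℝ) / v) ^ (1 / q)) ^ q ≤ (1 + Real.log X) ^ (K + 1) := by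
    refine le_trans ?_ (T_sum (K + 1) X hX)
    calc ∑ v ∈ F, ((T J v : ℝ) * ((1 : ℝ) / v) ^ (1 / q)) ^ q ≤ ∑ v ∈ F, (T (K + 1) v : ℝ) / v := by
          apply sum_le_sum
          intro v hv
          have hv1 := (hFm v hv).1
          rw [Real.mul_rpow (by positivity) (by positivity), ← Real.rpow_mul (by positivity),
            one_div_mul_cancel hq0.ne', Real.rpow_one, mul_one_div]
          apply div_le_div_of_nonneg_right _ (Nat.cast_nonneg _)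
          refine le_trans ?_ (T_rpow hq.le hJK hv1)
          apply Real.rpow_le_rpow (by positivity) _ hq0.le
          exact_mod_cast T_mono J v hv1
      _ ≤ ∑ v ∈ Icc 1 X, (T (K + 1) v : ℝ) / v := by
          apply sum_le_sum_of_subset_of_nonneg
          · rw [hF]; exact filter_subset _ _
          · intro v _ _
            positivity
  rw [e1, e2, hp1] at h1
  refine h1.trans ?_
  have hq1 : 0 ≤ 1 - 1 / q := by
    rw [← hp1]
    positivity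
  have h2 : 0 ≤ ∑ v ∈ F, (1 : ℝ) / v := sum_nonneg (fun v _ => by positivity)
  have h3 : 0 ≤ ∑ v ∈ F, ((T J v : ℝ) * ((1 : ℝ) / v) ^ (1 / q)) ^ q := sum_nonneg (fun v _ => by positivity)
  exact mul_le_mul (Real.rpow_le_rpow h2 hsp hq1) (Real.rpow_le_rpow h3 e3 (by positivity)) (by positivity)
    (Real.rpow_nonneg (h2.trans hsp) _)

/-- **the count** -/
theorem cover4 {f : ℕ → ℕ} (hf : LM f) {P M : ℕ} (hM : 1 ≤ M) (hP : ∀ p : ℕ, P ≤ p → p.Prime → f p ≤ M * p ∧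
    ∀ q : ℕ, P ≤ q → q.Prime → f q = f p → q = p) (W : Set ℕ) {N z J K G₀ : ℕ} {V V₁ : ℝ} (hz : P ≤ z) (hN : 1 ≤ N)
    (hNz : N < (z + 1) ^ (J + 1)) (hG : ∀ k : ℕ, 1 ≤ k → k ≤ K → f k ≤ G₀) (hV : V₁ * G₀ ≤ V)
    {RB : ℝ} (hRB0 : 0 ≤ RB)
    (hRB : ∀ g : ℕ, 1 ≤ g → g ≤ G₀ →
      ∑ v ∈ (Icc 1 (M ^ J * N)).filter (fun v : ℕ => v ∈ {v : ℕ | g * v ∈ W} ∧ V₁ ≤ v), (T J v : ℝ) / v ≤ RB) :
    (((Icc 1 N).filter (fun m => (∃ k u : ℕ, m = k * u ∧ Nat.Coprime k u ∧ Squarefree u ∧ Rough z u ∧ 1 ≤ k ∧ 1 ≤ u ∧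
      k ≤ K) ∧ ∃ v ∈ W, V ≤ (v : ℝ) ∧ 1 ≤ v ∧ v ∣ f m)).card : ℝ) ≤
      N * (1 + Real.log K) * ((J + 1) * (M * (1 + Real.log (M * N : ℕ))) ^ J) * (G₀ * RB) := by
  have hMN : (1 : ℝ) ≤ (M * N : ℕ) := by exact_mod_cast Nat.mul_pos hM hN
  have hl : 0 ≤ Real.log (M * N : ℕ) := Real.log_nonneg hMN
  obtain ⟨H, hH⟩ : ∃ H : ℝ, H = M * (1 + Real.log (M * N : ℕ)) := ⟨_, rfl⟩
  have hH0 : 0 ≤ H := by rw [hH]; positivity
  rw [← hH]
  obtain ⟨UU, hUU⟩ : ∃ UU : ℕ → ℕ → Finset ℕ, UU = fun (k v : ℕ) => (Icc 1 N).filter (fun u : ℕ => (u : ℝ) ≤ (N : ℝ) / k ∧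
    Squarefree u ∧ Rough z u ∧ u.primeFactors.card ≤ J ∧ v ∣ f u) := ⟨_, rfl⟩
  obtain ⟨F, hF⟩ : ∃ F : ℕ → Finset ℕ, F = fun g => (Icc 1 (M ^ J * N)).filter
    (fun v : ℕ => v ∈ {v : ℕ | g * v ∈ W} ∧ V₁ ≤ v) := ⟨_, rfl⟩
  have hsub : (Icc 1 N).filter (fun m => (∃ k u : ℕ, m = k * u ∧ Nat.Coprime k u ∧ Squarefree u ∧ Rough z u ∧ 1 ≤ k ∧
      1 ≤ u ∧ k ≤ K) ∧ ∃ v ∈ W, V ≤ (v : ℝ) ∧ 1 ≤ v ∧ v ∣ f m) ⊆
      (Icc 1 K).biUnion (fun k => (Icc 1 G₀).biUnion (fun g => (F g).biUnion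
        (fun v => (UU k v).image (fun u => k * u)))) := by
    intro m hm
    rw [mem_filter, mem_Icc] at hm
    obtain ⟨⟨hm1, hmN⟩, ⟨k, u, hku, hcop, hsq, hr, hk1, hu1, hkK⟩, v, hvW, hvV, hv1, hvf⟩ := hm
    have hfm : f m = f k * f u := by rw [hku]; exact hf.mul _ _ hcop
    rw [hfm] at hvf
    have hfk : 1 ≤ f k := hf.pos k hk1
    obtain ⟨g, hg⟩ : ∃ g, g = Nat.gcd v (f k) := ⟨_, rfl⟩
    have hg1 : 1 ≤ g := by rw [hg]; exact Nat.gcd_pos_of_pos_left _ hv1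
    have hgf : g ≤ f k := by rw [hg]; exact Nat.gcd_le_right _ hfk
    have hgG : g ≤ G₀ := hgf.trans (hG k hk1 hkK)
    obtain ⟨v', hv'⟩ : g ∣ v := by rw [hg]; exact Nat.gcd_dvd_left _ _
    have hv'1 : 1 ≤ v' := by
      rcases Nat.eq_zero_or_pos v' with h | h
      · rw [h, mul_zero] at hv'
        omega
      · exact h
    have hvdiv : v / g = v' := by rw [hv']; exact Nat.mul_div_cancel_left _ hg1
    have huN : u ≤ N := by
      have : u ≤ k * u := Nat.le_mul_of_pos_left _ hk1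
      omega
    have hω := omega_le hNz hr hu1 huN
    have hv'u : v' ∣ f u := by
      have h6 : Nat.Coprime (v / Nat.gcd v (f k)) (f k / Nat.gcd v (f k)) :=
        Nat.coprime_div_gcd_div_gcd (by rw [← hg]; exact hg1)
      rw [← hg, hvdiv] at h6
      apply h6.dvd_of_dvd_mul_left
      apply Nat.dvd_of_mul_dvd_mul_left hg1
      rw [← mul_assoc, Nat.mul_div_cancel' (by rw [hg]; exact Nat.gcd_dvd_right _ _), ← hv']
      exact hvf
    have hv'X : v' ≤ M ^ J * N := by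
      have h1 : v' ≤ f u := Nat.le_of_dvd (hf.pos u hu1) hv'u
      have h2 := size' hf hM (fun p h1 h2 => (hP p h1 h2).1) hz hsq hr hω
      exact (h1.trans h2).trans (Nat.mul_le_mul_left _ huN)
    rw [mem_biUnion]
    refine ⟨k, mem_Icc.2 ⟨hk1, hkK⟩, ?_⟩
    rw [mem_biUnion]
    refine ⟨g, mem_Icc.2 ⟨hg1, hgG⟩, ?_⟩
    rw [mem_biUnion]
    refine ⟨v', ?_, ?_⟩
    · rw [hF, mem_filter, mem_Icc]
      refine ⟨⟨hv'1, hv'X⟩, ?_, ?_⟩
      · rw [Set.mem_ofPred_eq, ← hv']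
        exact hvW
      · by_contra h
        push Not at h
        have h1 : (v : ℝ) = g * v' := by rw [hv']; push_cast; ring
        have h2 : (g : ℝ) ≤ G₀ := by exact_mod_cast hgG
        have hg0 : (0 : ℝ) < g := by exact_mod_cast hg1
        have hG0 : (0 : ℝ) < G₀ := by linarith
        have h3 : (g : ℝ) * v' < G₀ * V₁ := by
          have hv'0 : (0 : ℝ) ≤ v' := Nat.cast_nonneg _
          calc (g : ℝ) * v' ≤ G₀ * v' := mul_le_mul_of_nonneg_right h2 hv'0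
            _ < G₀ * V₁ := mul_lt_mul_of_pos_left h hG0
        rw [← h1] at h3
        linarith
    · rw [mem_image]
      refine ⟨u, ?_, hku.symm⟩
      rw [hUU, mem_filter, mem_Icc]
      refine ⟨⟨hu1, huN⟩, ?_, hsq, hr, hω, hv'u⟩
      have hk0 : (0 : ℝ) < k := by exact_mod_cast hk1
      rw [le_div_iff₀ hk0]
      have : u * k ≤ N := by rw [mul_comm, ← hku]; exact hmN
      exact_mod_cast this
  have h1 : (((Icc 1 N).filter (fun m => (∃ k u : ℕ, m = k * u ∧ Nat.Coprime k u ∧ Squarefree u ∧ Rough z u ∧ 1 ≤ k ∧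
      1 ≤ u ∧ k ≤ K) ∧ ∃ v ∈ W, V ≤ (v : ℝ) ∧ 1 ≤ v ∧ v ∣ f m)).card : ℝ) ≤
      ∑ k ∈ Icc 1 K, ∑ g ∈ Icc 1 G₀, ∑ v ∈ F g, ((UU k v).card : ℝ) := by
    have h2 := (card_le_card hsub).trans (card_biUnion_le.trans (sum_le_sum (fun k _ =>
      card_biUnion_le.trans (sum_le_sum (fun g _ => card_biUnion_le.trans (sum_le_sum (fun v _ => card_image_le)))))))
    exact_mod_cast h2
  refine h1.trans ?_
  have hN0 : (0 : ℝ) ≤ N := Nat.cast_nonneg _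
  have h3 : ∀ k ∈ Icc 1 K, ∑ g ∈ Icc 1 G₀, ∑ v ∈ F g, ((UU k v).card : ℝ) ≤
      (1 : ℝ) / k * (N * ((J + 1) * H ^ J) * (G₀ * RB)) := by
    intro k hk
    rw [mem_Icc] at hk
    have hk1 : (1 : ℝ) ≤ k := by exact_mod_cast hk.1
    have h4 : ∀ g ∈ Icc 1 G₀, ∑ v ∈ F g, ((UU k v).card : ℝ) ≤ (N : ℝ) / k * ((J + 1) * H ^ J) * RB := by
      intro g hg
      rw [mem_Icc] at hg
      have h5 : ∀ v ∈ F g, ((UU k v).card : ℝ) ≤ (N : ℝ) / k * ((J + 1) * H ^ J) * ((T J v : ℝ) / v) := by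
        intro v hv
        rw [hF, mem_filter, mem_Icc] at hv
        have h6 := coreJ hf hM hP hz hN J (t := (N : ℝ) / k) (v := v) (by positivity) (div_le_self hN0 hk1) hv.1.1
        rw [← hH] at h6
        rw [hUU]
        refine h6.trans (le_of_eq ?_)
        ring
      refine (sum_le_sum h5).trans ?_
      rw [← mul_sum]
      apply mul_le_mul_of_nonneg_left _ (by positivity)
      rw [hF]
      exact hRB g hg.1 hg.2
    refine (sum_le_sum h4).trans (le_of_eq ?_)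
    rw [sum_const, Nat.card_Icc, Nat.add_sub_cancel, nsmul_eq_mul]
    ring
  refine (sum_le_sum h3).trans ?_
  rw [← sum_mul]
  have h7 : ∑ k ∈ Icc 1 K, (1 : ℝ) / k ≤ 1 + Real.log K := by
    have := recip_multiples (Icc 1 K) (fun k => k) (fun _ _ _ _ h => h) (d := 1) (Y := K) le_rfl (fun k hk => by
      rw [mem_Icc] at hk
      exact ⟨hk.1, hk.2, one_dvd _⟩)
    simpa using this
  have h8 : 0 ≤ (N * ((J + 1) * H ^ J) * (G₀ * RB) : ℝ) := by positivity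
  refine (mul_le_mul_of_nonneg_right h7 h8).trans (le_of_eq ?_)
  ring

end Pool.Agent.U536.CF
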