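import Mathlib

set_option autoImplicit false

/-! Numerical lemmas (helper536). -/

namespace Pool.Agent.U536.CF

open Finset

lemma ev {α β : ℝ} (h : α < β) (R : ℝ) : ∀ᶠ x : ℝ in Filter.atTop, R * (x ^ α * Real.log x) ≤ x ^ β := by
  have h1 : ∀ᶠ x : ℝ in Filter.atTop, (|R| + 1) * Real.log x ≤ x ^ (β - α) := by
    have h2 := (isLittleO_log_rpow_atTop (r := β - α) (by linarith)).bound
      (show (0 : ℝ) < (|R| + 1)⁻¹ by positivity)
    filter_upwards [h2, Filter.eventually_ge_atTop (1 : ℝ)] with x hx h1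
    have hR : 0 < |R| + 1 := by positivity
    rw [Real.norm_of_nonneg (Real.log_nonneg h1), Real.norm_of_nonneg (by positivity)] at hx
    calc (|R| + 1) * Real.log x ≤ (|R| + 1) * ((|R| + 1)⁻¹ * x ^ (β - α)) := mul_le_mul_of_nonneg_left hx hR.le
      _ = x ^ (β - α) := by field_simp
  filter_upwards [h1, Filter.eventually_ge_atTop (1 : ℝ)] with x hx h1
  have hx0 : 0 < x := by linarith
  have hl := Real.log_nonneg h1
  calc R * (x ^ α * Real.log x) ≤ (|R| + 1) * (x ^ α * Real.log x) := by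
        apply mul_le_mul_of_nonneg_right _ (by positivity)
        linarith [le_abs_self R]
    _ = x ^ α * ((|R| + 1) * Real.log x) := by ring
    _ ≤ x ^ α * x ^ (β - α) := mul_le_mul_of_nonneg_left hx (by positivity)
    _ = x ^ β := by
      rw [← Real.rpow_add hx0]
      congr 1
      ring

lemma evs {a aq s b c : ℝ} (R : ℝ) (h1 : a < s) (h2 : aq < s) (h3 : s < b) (h4 : c < 2 * a - 1) (h5 : a < 1) (h6 : c < a) :
    ∃ N₀ : ℕ, ∀ N : ℕ, N₀ ≤ N → 3 ≤ N ∧ R ≤ Real.log N ∧ 1 ≤ Real.log (Real.log N) ∧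
      R * (Real.log N ^ a * Real.log (Real.log N)) ≤ Real.log N ^ s ∧
      R * (Real.log N ^ aq * Real.log (Real.log N)) ≤ Real.log N ^ s ∧
      R * (Real.log N ^ s * Real.log (Real.log N)) ≤ Real.log N ^ b ∧
      R * (Real.log N ^ c * Real.log (Real.log N)) ≤ Real.log N ^ (2 * a - 1) ∧
      R * (Real.log N ^ a * Real.log (Real.log N)) ≤ Real.log N ∧
      R * (Real.log N ^ c * Real.log (Real.log N)) ≤ Real.log N ^ a := by
  have t1 : Filter.Tendsto (fun N : ℕ => Real.log (N : ℝ)) Filter.atTop Filter.atTop :=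
    Real.tendsto_log_atTop.comp tendsto_natCast_atTop_atTop
  have g5 := ev h5 R
  simp only [Real.rpow_one] at g5
  have g := (Filter.eventually_ge_atTop R).and ((Real.tendsto_log_atTop.eventually_ge_atTop 1).and
    ((ev h1 R).and ((ev h2 R).and ((ev h3 R).and ((ev h4 R).and (g5.and (ev h6 R)))))))
  obtain ⟨N₀, hN₀⟩ := Filter.eventually_atTop.1 ((t1.eventually g).and (Filter.eventually_ge_atTop 3))
  exact ⟨N₀, fun N hN => ⟨(hN₀ N hN).2, (hN₀ N hN).1⟩⟩

lemma le_exp_self (x : ℝ) : x ≤ Real.exp x := by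
  have := Real.add_one_le_exp x
  linarith

lemma log_le_self' {x : ℝ} (hx : 0 < x) : Real.log x ≤ x := by
  have := Real.add_one_le_exp (Real.log x)
  rw [Real.exp_log hx] at this
  linarith

/-- Hölder's inequality, numbers -/
lemma num_holder {c0 G L Lb Laq l S lX θ q γ κ₂ V₁ : ℝ} {K : ℕ} (hL : 100 ≤ L) (hexpl : Real.exp l = L) (hlX0 : 0 ≤ lX)
    (hlX : lX ≤ 2 * L) (hc01 : 1 ≤ c0) (hc0 : 12 * c0 ≤ L) (hl : 0 ≤ l) (hlS : 2 * l ≤ S) (hG1 : 1 ≤ G) (hG : G ≤ Real.exp S)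
    (hθ0 : 0 ≤ θ) (hq : 1 < q) (hγ : γ = (1 - θ) * (1 - 1 / q)) (hV : V₁ = Real.exp Lb / G)
    (hK : (K : ℝ) + 1 ≤ κ₂ * Laq) (hK2 : 2 * κ₂ * (Laq * l) ≤ S) :
    ((1 + 2 * lX) * (2 * (c0 * G) * V₁ ^ (θ - 1))) ^ (1 - 1 / q) * ((1 + lX) ^ (K + 1)) ^ (1 / q) ≤
      Real.exp (3 * S) * Real.exp S * Real.exp (-(γ * Lb)) := by
  have hL0 : 0 < L := by linarith
  have hG0 : 0 < G := by linarith
  have hS0 : 0 ≤ S := by linarith
  have hLL : L * L = Real.exp (2 * l) := by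
    rw [show 2 * l = l + l by ring, Real.exp_add, hexpl]
  have hq0 : 0 < q := by linarith
  have hqi : 0 < 1 / q := by positivity
  have hqi1 : 1 / q < 1 := by rw [div_lt_one hq0]; exact hq
  have f1 : ((1 + 2 * lX) * (2 * (c0 * G) * V₁ ^ (θ - 1))) ^ (1 - 1 / q) ≤
      Real.exp (3 * S) * Real.exp (-(γ * Lb)) := by
    have e1 : (1 + 2 * lX) * (2 * (c0 * G)) ≤ Real.exp (2 * S) := by
      have g1 : (1 + 2 * lX) * (2 * c0) ≤ Real.exp S := by
        have g2 : 1 + 2 * lX ≤ 6 * L := by linarith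
        have g3 : (1 + 2 * lX) * (2 * c0) ≤ 6 * L * (2 * c0) := mul_le_mul_of_nonneg_right g2 (by linarith)
        have g4 : 12 * c0 * L ≤ L * L := mul_le_mul_of_nonneg_right hc0 hL0.le
        have g5 : Real.exp (2 * l) ≤ Real.exp S := Real.exp_le_exp.2 hlS
        linarith
      calc (1 + 2 * lX) * (2 * (c0 * G)) = ((1 + 2 * lX) * (2 * c0)) * G := by ring
        _ ≤ Real.exp S * Real.exp S := mul_le_mul g1 hG hG0.le (Real.exp_pos _).le
        _ = Real.exp (2 * S) := by rw [← Real.exp_add]; ring_nf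
    have e2 : V₁ ^ (θ - 1) = Real.exp ((θ - 1) * Lb) * G ^ (1 - θ) := by
      rw [hV, Real.div_rpow (Real.exp_pos _).le hG0.le, ← Real.exp_mul, div_eq_mul_inv, ← Real.rpow_neg hG0.le,
        neg_sub, mul_comm Lb]
    have e3 : G ^ (1 - θ) ≤ Real.exp S := by
      calc G ^ (1 - θ) ≤ G ^ (1 : ℝ) := Real.rpow_le_rpow_of_exponent_le hG1 (by linarith)
        _ = G := Real.rpow_one _
        _ ≤ _ := hG
    have e4 : (1 + 2 * lX) * (2 * (c0 * G) * V₁ ^ (θ - 1)) ≤ Real.exp (3 * S) * Real.exp ((θ - 1) * Lb) := by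
      rw [e2]
      calc (1 + 2 * lX) * (2 * (c0 * G) * (Real.exp ((θ - 1) * Lb) * G ^ (1 - θ)))
          = ((1 + 2 * lX) * (2 * (c0 * G))) * G ^ (1 - θ) * Real.exp ((θ - 1) * Lb) := by ring
        _ ≤ Real.exp (2 * S) * Real.exp S * Real.exp ((θ - 1) * Lb) := by
            apply mul_le_mul_of_nonneg_right _ (Real.exp_pos _).le
            exact mul_le_mul e1 e3 (by positivity) (Real.exp_pos _).le
        _ = _ := by
            rw [← Real.exp_add]
            ring_nf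
    have hV0 : 0 < V₁ := by rw [hV]; positivity
    have e5 : 0 ≤ (1 + 2 * lX) * (2 * (c0 * G) * V₁ ^ (θ - 1)) := by positivity
    calc ((1 + 2 * lX) * (2 * (c0 * G) * V₁ ^ (θ - 1))) ^ (1 - 1 / q)
        ≤ (Real.exp (3 * S) * Real.exp ((θ - 1) * Lb)) ^ (1 - 1 / q) := Real.rpow_le_rpow e5 e4 (by linarith)
      _ = Real.exp (3 * S * (1 - 1 / q)) * Real.exp (-(γ * Lb)) := by
          rw [Real.mul_rpow (Real.exp_pos _).le (Real.exp_pos _).le, ← Real.exp_mul, ← Real.exp_mul]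
          congr 2
          rw [hγ]
          ring
      _ ≤ _ := by
          apply mul_le_mul_of_nonneg_right _ (Real.exp_pos _).le
          apply Real.exp_le_exp.2
          have : 3 * S * (1 - 1 / q) ≤ 3 * S * 1 := mul_le_mul_of_nonneg_left (by linarith) (by positivity)
          linarith
  have f2 : ((1 + lX) ^ (K + 1)) ^ (1 / q) ≤ Real.exp S := by
    have e1 : 1 + lX ≤ Real.exp (2 * l) := by
      rw [← hLL]
      nlinarith
    have e2 : (1 + lX) ^ (K + 1) ≤ Real.exp S := by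
      calc (1 + lX) ^ (K + 1) ≤ (Real.exp (2 * l)) ^ (K + 1) := pow_le_pow_left₀ (by linarith) e1 _
        _ = Real.exp (((K : ℝ) + 1) * (2 * l)) := by rw [← Real.exp_nat_mul]; push_cast; ring_nf
        _ ≤ Real.exp S := by
            apply Real.exp_le_exp.2
            refine le_trans ?_ hK2
            have g1 : ((K : ℝ) + 1) * (2 * l) ≤ (κ₂ * Laq) * (2 * l) :=
              mul_le_mul_of_nonneg_right hK (by linarith)
            linarith
    have e3 : 1 ≤ (1 + lX) ^ (K + 1) := one_le_pow₀ (by linarith)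
    calc ((1 + lX) ^ (K + 1)) ^ (1 / q) ≤ ((1 + lX) ^ (K + 1)) ^ (1 : ℝ) := by
          apply Real.rpow_le_rpow_of_exponent_le e3
          linarith
      _ = (1 + lX) ^ (K + 1) := Real.rpow_one _
      _ ≤ _ := e2
  refine (mul_le_mul f1 f2 (by positivity) (by positivity)).trans (le_of_eq ?_)
  ring

/-- the smooth parts, numbers -/
lemma num_smooth {N Y β w lz zb CR K₁ A L Lc Lt l j : ℝ} (hN : 0 ≤ N) (hCR : 0 < CR)
    (hK₁ : K₁ = 3 * (CR * Real.exp (4 * Real.exp 1 * (1 + CR)))) (hw : 4 ≤ w) (hβ : β = 1 / w) (hY : Y = Real.exp A)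
    (hj : 0 < j) (hAj : A ≤ j) (hwj : w * j = L) (hA : 0 < A) (hLt : Lt * L = A * A) (hL : 0 < L) (hlz0 : 0 ≤ lz) (hlz : lz ≤ w)
    (hwL : w ≤ L) (hzb : zb ≤ Real.exp 1) (hexpl : Real.exp l = L) (hsum : K₁ + l + Lc ≤ Lt) :
    N * Y ^ (-β) * (CR * lz * Real.exp (4 * β * zb * (lz + CR))) ≤ N * Real.exp (-Lc) / 3 := by
  have hw0 : 0 < w := by linarith
  have hβw : β * w = 1 := by
    rw [hβ]
    field_simp
  have hβ0 : 0 ≤ β := by rw [hβ]; positivity
  have hβ1 : β ≤ 1 := by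
    rw [hβ, div_le_one hw0]
    linarith
  have h4 : β * (lz + CR) ≤ 1 + CR := by
    have e1 : β * lz ≤ β * w := mul_le_mul_of_nonneg_left hlz hβ0
    have e2 : β * CR ≤ 1 * CR := mul_le_mul_of_nonneg_right hβ1 hCR.le
    rw [mul_add]
    linarith
  have h5 : 4 * β * zb * (lz + CR) ≤ 4 * Real.exp 1 * (1 + CR) := by
    have e0 : 0 ≤ β * (lz + CR) := mul_nonneg hβ0 (by linarith)
    calc 4 * β * zb * (lz + CR) = 4 * zb * (β * (lz + CR)) := by ring
      _ ≤ 4 * Real.exp 1 * (1 + CR) := by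
        apply mul_le_mul _ h4 e0 (by positivity)
        linarith
  have h6 : Y ^ (-β) ≤ Real.exp (-Lt) := by
    rw [hY, ← Real.exp_mul]
    apply Real.exp_le_exp.2
    have e1 : Lt ≤ A * β := by
      rw [hβ, mul_one_div, le_div_iff₀ hw0]
      have e3 : Lt * w * j ≤ A * j := by
        calc Lt * w * j = Lt * (w * j) := by ring
          _ = A * A := by rw [hwj, hLt]
          _ ≤ A * j := mul_le_mul_of_nonneg_left hAj hA.le
      exact le_of_mul_le_mul_right e3 hj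
    linarith
  have h7 : CR * lz * Real.exp (4 * β * zb * (lz + CR)) ≤
      CR * L * Real.exp (4 * Real.exp 1 * (1 + CR)) := by
    apply mul_le_mul _ (Real.exp_le_exp.2 h5) (Real.exp_pos _).le (by positivity)
    exact mul_le_mul_of_nonneg_left (by linarith) hCR.le
  have h8 : K₁ * L * Real.exp (-Lt) ≤ Real.exp (-Lc) := by
    calc K₁ * L * Real.exp (-Lt) ≤ Real.exp K₁ * Real.exp l * Real.exp (-Lt) := by
          rw [hexpl]
          apply mul_le_mul_of_nonneg_right _ (Real.exp_pos _).le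
          exact mul_le_mul_of_nonneg_right (le_exp_self K₁) hL.le
      _ = Real.exp (K₁ + l - Lt) := by
          rw [← Real.exp_add, ← Real.exp_add]
          ring_nf
      _ ≤ _ := by
          apply Real.exp_le_exp.2
          linarith
  calc N * Y ^ (-β) * (CR * lz * Real.exp (4 * β * zb * (lz + CR)))
      ≤ N * Real.exp (-Lt) * (CR * L * Real.exp (4 * Real.exp 1 * (1 + CR))) := by
        apply mul_le_mul _ h7 (by positivity) (by positivity)
        exact mul_le_mul_of_nonneg_left h6 hN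
    _ = N * (K₁ * L * Real.exp (-Lt)) / 3 := by
        rw [hK₁]
        ring
    _ ≤ N * Real.exp (-Lc) / 3 := by
        apply div_le_div_of_nonneg_right _ (by norm_num)
        exact mul_le_mul_of_nonneg_left h8 hN

/-- the squares, numbers -/
lemma num_squares {N T₀ Y A Lc : ℝ} (hN : 0 ≤ N) (hT : 1 ≤ T₀) (hY : Y = Real.exp A) (hYT : Y ≤ 2 * T₀) (h : 6 + Lc ≤ A) :
    N / T₀ ≤ N * Real.exp (-Lc) / 3 := by
  have h1 : 6 * Real.exp Lc ≤ Y := by
    calc 6 * Real.exp Lc ≤ Real.exp 6 * Real.exp Lc := mul_le_mul_of_nonneg_right (le_exp_self 6) (Real.exp_pos _).le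
      _ = Real.exp (6 + Lc) := by rw [← Real.exp_add]
      _ ≤ Y := by
        rw [hY]
        exact Real.exp_le_exp.2 h
  have h2 : 3 * Real.exp Lc ≤ T₀ := by linarith
  rw [Real.exp_neg, div_le_div_iff₀ (by linarith) (by norm_num)]
  have h3 : 0 < Real.exp Lc := Real.exp_pos _
  rw [mul_assoc]
  apply mul_le_mul_of_nonneg_left _ hN
  rw [inv_mul_eq_div, le_div_iff₀ h3]
  exact h2

/-- the last part, numbers -/
lemma num_last {N lK HJ G RB A S L l γ Lb Lc : ℝ} {M lMN : ℝ} {J : ℕ} (hN : 0 ≤ N) (hlK : lK ≤ 4 * A)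
    (h4A : 4 * A ≤ S) (hJ : (J : ℝ) ≤ A) (hAS : A ≤ S) (hM : 1 ≤ M) (hlMN0 : 0 ≤ lMN) (hlMN : lMN ≤ M + L)
    (hL : 100 ≤ L) (hML : 3 * M ≤ L) (hexpl : Real.exp l = L) (hl : 0 ≤ l) (hAl : 2 * (A * l) ≤ S)
    (hHJ : HJ = (M * (1 + lMN)) ^ J) (hG0 : 0 ≤ G) (hG : G ≤ Real.exp S)
    (hRB : RB = Real.exp (3 * S) * Real.exp S * Real.exp (-(γ * Lb))) (hLc : Lc ≤ S) (hS1 : 1 ≤ S) (h11 : 11 * S ≤ γ * Lb) :
    N * (1 + lK) * (((J : ℝ) + 1) * HJ) * (G * RB) ≤ N * Real.exp (-Lc) / 3 := by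
  have hRB0 : 0 ≤ RB := by rw [hRB]; positivity
  have hHJ0 : 0 ≤ HJ := by rw [hHJ]; positivity
  have g1 : 1 + lK ≤ Real.exp S := by
    have e2 := Real.add_one_le_exp (4 * A)
    have e3 : Real.exp (4 * A) ≤ Real.exp S := Real.exp_le_exp.2 h4A
    linarith
  have g2 : (J : ℝ) + 1 ≤ Real.exp S := by
    have e2 := Real.add_one_le_exp A
    have e3 : Real.exp A ≤ Real.exp S := Real.exp_le_exp.2 hAS
    linarith
  have g3 : HJ ≤ Real.exp S := by
    have e1 : M * (1 + lMN) ≤ Real.exp (2 * l) := by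
      have g5 : Real.exp (2 * l) = L * L := by
        rw [show 2 * l = l + l by ring, Real.exp_add, hexpl]
      rw [g5]
      have g7 : 1 + lMN ≤ 3 * L := by linarith
      calc M * (1 + lMN) ≤ M * (3 * L) := mul_le_mul_of_nonneg_left g7 (by linarith)
        _ = (3 * M) * L := by ring
        _ ≤ L * L := mul_le_mul_of_nonneg_right hML (by linarith)
    rw [hHJ]
    calc (M * (1 + lMN)) ^ J ≤ (Real.exp (2 * l)) ^ J :=
          pow_le_pow_left₀ (by positivity) e1 _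
      _ = Real.exp ((J : ℝ) * (2 * l)) := by rw [← Real.exp_nat_mul]
      _ ≤ Real.exp S := by
          apply Real.exp_le_exp.2
          have e2 : (J : ℝ) * (2 * l) ≤ A * (2 * l) := mul_le_mul_of_nonneg_right hJ (by linarith)
          linarith
  calc N * (1 + lK) * ((J + 1) * HJ) * (G * RB)
      ≤ N * Real.exp S * (Real.exp S * Real.exp S) * (Real.exp S * RB) := by
        apply mul_le_mul _ (mul_le_mul_of_nonneg_right hG hRB0) (by positivity) (by positivity)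
        apply mul_le_mul _ _ (by positivity) (by positivity)
        · exact mul_le_mul_of_nonneg_left g1 hN
        · exact mul_le_mul g2 g3 hHJ0 (Real.exp_pos _).le
    _ = N * Real.exp (8 * S - γ * Lb) := by
        rw [hRB]
        have : Real.exp (8 * S - γ * Lb) = Real.exp S * (Real.exp S * Real.exp S) * (Real.exp S * (Real.exp (3 * S) *
            Real.exp S * Real.exp (-(γ * Lb)))) := by
          simp only [← Real.exp_add]
          congr 1
          ring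
        rw [this]
        ring
    _ ≤ N * (Real.exp (-Lc) / 3) := by
        apply mul_le_mul_of_nonneg_left _ hN
        have e1 : (3 : ℝ) ≤ Real.exp 2 := by
          have := Real.add_one_le_exp (2 : ℝ)
          linarith
        rw [le_div_iff₀ (by norm_num)]
        calc Real.exp (8 * S - γ * Lb) * 3 ≤ Real.exp (8 * S - γ * Lb) * Real.exp 2 :=
              mul_le_mul_of_nonneg_left e1 (Real.exp_pos _).le
          _ = Real.exp (8 * S - γ * Lb + 2) := by rw [← Real.exp_add]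
          _ ≤ _ := by
              apply Real.exp_le_exp.2
              linarith
    _ = _ := by ring

lemma mul_l {R x y l : ℝ} (hR : 0 ≤ R) (hx : 0 ≤ x) (hl : 1 ≤ l) (h : R * (x * l) ≤ y) : R * x ≤ y := by
  refine le_trans ?_ h
  apply mul_le_mul_of_nonneg_left _ hR
  exact le_mul_of_one_le_right hx hl

lemma mul_l' {R x y l : ℝ} (hR : 0 ≤ R) (hx : 1 ≤ x) (hl : 0 ≤ l) (h : R * (x * l) ≤ y) : R * l ≤ y := by
  refine le_trans ?_ h
  apply mul_le_mul_of_nonneg_left _ hR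
  exact le_mul_of_one_le_left hl hx

lemma mul_R {R r x y : ℝ} (hx : 0 ≤ x) (hr : r ≤ R) (h : R * x ≤ y) : r * x ≤ y :=
  (mul_le_mul_of_nonneg_right hr hx).trans h

/-- the choice of the number of prime factors and of the bound for the small primes -/
lemma scales {N P : ℕ} {L A R : ℝ} (hexpL : Real.exp L = N) (hA : 1 ≤ A) (hR : 100 ≤ R) (hP : 2 * (P : ℝ) ≤ R)
    (h : R * A ≤ L) : ∃ (J z : ℕ) (w : ℝ), (J : ℝ) ≤ A ∧ A ≤ J + 1 ∧ w * (J + 1) = L ∧ 4 ≤ w ∧ w ≤ L ∧ 2 ≤ z ∧ P ≤ z ∧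
      (z : ℝ) ≤ Real.exp w ∧ N < (z + 1) ^ (J + 1) ∧ 0 ≤ Real.log z ∧ Real.log z ≤ w := by
  have hA0 : 0 < A := by linarith
  have hL0 : 0 < L := by nlinarith
  obtain ⟨J, hJ⟩ : ∃ J : ℕ, J = ⌊A⌋₊ := ⟨_, rfl⟩
  have hJ1 : (J : ℝ) ≤ A := by rw [hJ]; exact Nat.floor_le hA0.le
  have hJ2 : A < J + 1 := by rw [hJ]; exact Nat.lt_floor_add_one _
  have hJ1p : (0 : ℝ) < (J : ℝ) + 1 := by linarith
  obtain ⟨w, hw⟩ : ∃ w : ℝ, w = L / (J + 1) := ⟨_, rfl⟩
  have hwJ : w * (J + 1) = L := by rw [hw]; field_simp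
  have hw0 : 0 < w := by rw [hw]; positivity
  have hwR : R / 2 ≤ w := by
    have h1 : R / 2 * (J + 1) ≤ w * (J + 1) := by
      rw [hwJ]
      have : (J : ℝ) + 1 ≤ 2 * A := by linarith
      calc R / 2 * (J + 1) ≤ R / 2 * (2 * A) := mul_le_mul_of_nonneg_left this (by linarith)
        _ = R * A := by ring
        _ ≤ L := h
    exact le_of_mul_le_mul_right h1 hJ1p
  have hwL : w ≤ L := by
    rw [← hwJ]
    exact le_mul_of_one_le_right hw0.le (by linarith)
  obtain ⟨z, hz⟩ : ∃ z : ℕ, z = ⌊Real.exp w⌋₊ := ⟨_, rfl⟩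
  have hz1 : (z : ℝ) ≤ Real.exp w := by rw [hz]; exact Nat.floor_le (Real.exp_pos _).le
  have hz2 : Real.exp w < z + 1 := by rw [hz]; exact Nat.lt_floor_add_one _
  have hzw : w ≤ z := by
    have := Real.add_one_le_exp w
    linarith
  have hz0 : (0 : ℝ) < z := by linarith
  have hlz : Real.log z ≤ w := by
    have := Real.log_le_log hz0 hz1
    rwa [Real.log_exp] at this
  refine ⟨J, z, w, hJ1, hJ2.le, hwJ, by linarith, hwL, ?_, ?_, hz1, ?_, Real.log_nonneg (by linarith), hlz⟩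
  · have : ((2 : ℕ) : ℝ) ≤ z := by push_cast; linarith
    exact_mod_cast this
  · have : (P : ℝ) ≤ z := by linarith
    exact_mod_cast this
  · have h2 : (N : ℝ) < (((z + 1) ^ (J + 1) : ℕ) : ℝ) := by
      calc (N : ℝ) = (Real.exp w) ^ (J + 1) := by
            rw [← Real.exp_nat_mul, ← hexpL]
            congr 1
            push_cast
            linarith
        _ < ((z : ℝ) + 1) ^ (J + 1) := pow_lt_pow_left₀ hz2 (Real.exp_pos _).le (by omega)
        _ = _ := by push_cast; ring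
    exact_mod_cast h2

/-- the choice of the other bounds -/
lemma cutoffs {A : ℝ} (hA : 1 ≤ A) : ∃ (T₀ K : ℕ), 1 ≤ T₀ ∧ Real.exp A ≤ 2 * T₀ ∧ 1 ≤ K ∧
    (K : ℝ) ≤ Real.exp (4 * A) ∧ ∀ k : ℕ, (k : ℝ) ≤ (T₀ : ℝ) ^ 3 * Real.exp A → k ≤ K := by
  have hY0 : 0 < Real.exp A := Real.exp_pos _
  have hY1 : 1 ≤ Real.exp A := Real.one_le_exp (by linarith)
  obtain ⟨T₀, hT₀⟩ : ∃ T₀ : ℕ, T₀ = ⌊Real.exp A⌋₊ := ⟨_, rfl⟩
  have hT₀Y : (T₀ : ℝ) ≤ Real.exp A := by rw [hT₀]; exact Nat.floor_le hY0.le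
  have hT₀1 : 1 ≤ T₀ := by rw [hT₀]; exact Nat.le_floor (by exact_mod_cast hY1)
  have hT₀r : (1 : ℝ) ≤ T₀ := by exact_mod_cast hT₀1
  have hT₀2 : Real.exp A ≤ 2 * T₀ := by
    have : Real.exp A < T₀ + 1 := by rw [hT₀]; exact Nat.lt_floor_add_one _
    linarith
  refine ⟨T₀, ⌊Real.exp (4 * A)⌋₊, hT₀1, hT₀2, ?_, Nat.floor_le (Real.exp_pos _).le, fun k hk => ?_⟩
  · apply Nat.le_floor
    push_cast
    exact Real.one_le_exp (by linarith)
  · apply Nat.le_floor
    refine hk.trans ?_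
    calc (T₀ : ℝ) ^ 3 * Real.exp A ≤ (Real.exp A) ^ 3 * Real.exp A := by
          apply mul_le_mul_of_nonneg_right _ hY0.le
          exact pow_le_pow_left₀ (by linarith) hT₀Y 3
      _ = Real.exp (4 * A) := by
          rw [← Real.exp_nat_mul, ← Real.exp_add]
          congr 1
          push_cast
          ring

/-- the bound for the values at the small parts -/
lemma num_G {C D K : ℕ} {A S R : ℝ} (hA : 1 ≤ A) (hK1 : 1 ≤ K) (hK : (K : ℝ) ≤ Real.exp (4 * A))
    (hR : (C : ℝ) + 4 * D ≤ R) (h : R * A ≤ S) : ((C * K ^ D : ℕ) : ℝ) ≤ Real.exp S := by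
  push_cast
  calc (C : ℝ) * (K : ℝ) ^ D ≤ Real.exp C * (Real.exp (4 * A)) ^ D := by
        apply mul_le_mul (le_exp_self _) (pow_le_pow_left₀ (Nat.cast_nonneg _) hK D) (by positivity) (Real.exp_pos _).le
    _ = Real.exp (C + D * (4 * A)) := by rw [← Real.exp_nat_mul, ← Real.exp_add]
    _ ≤ Real.exp S := by
        apply Real.exp_le_exp.2
        refine le_trans ?_ h
        have h1 : (C : ℝ) * 1 ≤ C * A := mul_le_mul_of_nonneg_left hA (Nat.cast_nonneg _)
        have h2 : (C + 4 * D) * A ≤ R * A := mul_le_mul_of_nonneg_right hR (by linarith)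
        linarith

/-- the size of the values -/
lemma num_X {M J N : ℕ} {A L : ℝ} (hM : 1 ≤ M) (hN : 1 ≤ N) (hL : L = Real.log N) (hJ : (J : ℝ) ≤ A) (h : M * A ≤ L) :
    0 ≤ Real.log (M ^ J * N : ℕ) ∧ Real.log (M ^ J * N : ℕ) ≤ 2 * L := by
  have hMr : (1 : ℝ) ≤ M := by exact_mod_cast hM
  have hN0 : (0 : ℝ) < N := by exact_mod_cast hN
  constructor
  · apply Real.log_nonneg
    exact_mod_cast Nat.mul_pos (Nat.pow_pos hM) hN
  · push_cast
    rw [Real.log_mul (by positivity) hN0.ne', Real.log_pow, ← hL]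
    have h1 : Real.log M ≤ M := log_le_self' (by linarith)
    have hJ0 : (0 : ℝ) ≤ J := Nat.cast_nonneg _
    have h2 : (J : ℝ) * Real.log M ≤ A * M := mul_le_mul hJ h1 (Real.log_nonneg hMr) (by linarith)
    linarith

/-- the number of factors in the moment -/
lemma num_K {J : ℕ} {a aq q A L : ℝ} (hL : 1 ≤ L) (hq : 0 < q) (haq : aq = a * q) (haq0 : 0 ≤ aq) (hA : A = L ^ a)
    (hA1 : 1 ≤ A) (hJ : (J : ℝ) ≤ A) : ∃ K : ℕ, ((J : ℝ) + 1) ^ q ≤ (K : ℝ) + 1 ∧ (K : ℝ) + 1 ≤ (2 ^ q + 2) * L ^ aq := by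
  have hJ0 : (0 : ℝ) ≤ J := Nat.cast_nonneg _
  refine ⟨⌈((J : ℝ) + 1) ^ q⌉₊, ?_, ?_⟩
  · have := Nat.le_ceil (((J : ℝ) + 1) ^ q)
    linarith
  · have h1 : (⌈((J : ℝ) + 1) ^ q⌉₊ : ℝ) < ((J : ℝ) + 1) ^ q + 1 := Nat.ceil_lt_add_one (by positivity)
    have h2 : ((J : ℝ) + 1) ^ q ≤ (2 * A) ^ q := Real.rpow_le_rpow (by positivity) (by linarith) hq.le
    have h3 : (2 * A) ^ q = 2 ^ q * L ^ aq := by
      rw [Real.mul_rpow (by norm_num) (by linarith), hA, ← Real.rpow_mul (by linarith), ← haq]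
    have h4 : 1 ≤ L ^ aq := Real.one_le_rpow hL haq0
    linarith

end Pool.Agent.U536.CF
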