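import Mathlib
import Pool.Agent.N733.TG.F
import Pool.Agent.U536.CF.D
import Pool.Agent.U536.CF.E0

set_option autoImplicit false

/-! Large divisors of the values of multiplicative functions avoid sets with a power saving (helper536). -/

namespace Pool.Agent.U536.CF

open Finset Classical
open Pool.Agent.N733.TG (LM Rough few_large' sp sp_pos)

/-- the sparse sets `W / g` -/
lemma slice_count {W : Set ℕ} {C₀ c0 θ : ℝ} (hC00 : 0 ≤ C₀) (hcC : C₀ ≤ c0) (hθ1 : θ ≤ 1)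
    (hW : ∀ X : ℕ, 1 ≤ X → (((Icc 1 X).filter (fun v => v ∈ W)).card : ℝ) ≤ C₀ * (X : ℝ) ^ θ) {g : ℕ} {G : ℝ}
    (hg1 : 1 ≤ g) (hgG : (g : ℝ) ≤ G) (X : ℕ) (hX : 1 ≤ X) :
    (((Icc 1 X).filter (fun v => v ∈ {v : ℕ | g * v ∈ W})).card : ℝ) ≤ (c0 * G) * (X : ℝ) ^ θ := by
  have hg0 : (0 : ℝ) < g := by exact_mod_cast hg1
  have h1 : ((Icc 1 X).filter (fun v => v ∈ {v : ℕ | g * v ∈ W})).card ≤
      ((Icc 1 (g * X)).filter (fun v => v ∈ W)).card := by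
    apply card_le_card_of_injOn (fun v => g * v)
    · intro v hv
      rw [mem_coe, mem_filter, mem_Icc] at hv
      rw [mem_coe, mem_filter, mem_Icc]
      exact ⟨⟨Nat.mul_pos hg1 hv.1.1, Nat.mul_le_mul_left _ hv.1.2⟩, hv.2⟩
    · intro v _ v' _ h
      exact Nat.eq_of_mul_eq_mul_left hg1 h
  have h2 := hW (g * X) (Nat.mul_pos hg1 hX)
  have h3 : (((Icc 1 X).filter (fun v => v ∈ {v : ℕ | g * v ∈ W})).card : ℝ) ≤
      (((Icc 1 (g * X)).filter (fun v => v ∈ W)).card : ℝ) := by exact_mod_cast h1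
  refine (h3.trans h2).trans ?_
  push_cast
  rw [Real.mul_rpow hg0.le (Nat.cast_nonneg _)]
  have h4 : (g : ℝ) ^ θ ≤ G := by
    calc (g : ℝ) ^ θ ≤ (g : ℝ) ^ (1 : ℝ) := Real.rpow_le_rpow_of_exponent_le (by exact_mod_cast hg1) hθ1
      _ = g := Real.rpow_one _
      _ ≤ G := hgG
  have h5 : (0 : ℝ) ≤ (X : ℝ) ^ θ := by positivity
  calc C₀ * ((g : ℝ) ^ θ * (X : ℝ) ^ θ) = (C₀ * (g : ℝ) ^ θ) * (X : ℝ) ^ θ := by ring
    _ ≤ (c0 * G) * (X : ℝ) ^ θ := by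
      apply mul_le_mul_of_nonneg_right _ h5
      exact mul_le_mul hcC h4 (by positivity) (hC00.trans hcC)

/-- the three kinds of exceptional integers -/
lemma cover3 {f : ℕ → ℕ} {W : Set ℕ} {N z T₀ K : ℕ} {Y V : ℝ} (hV : 0 < V)
    (hcut : ∀ k : ℕ, (k : ℝ) ≤ (T₀ : ℝ) ^ 3 * Y → k ≤ K) :
    (((Icc 1 N).filter (fun m => ∃ v ∈ W, V ≤ (v : ℝ) ∧ v ∣ f m)).card : ℝ) ≤
      (((Icc 1 N).filter (fun m => Y < (sp z m : ℝ))).card : ℝ) +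
      (((Icc 1 N).filter (fun m => ∃ D : ℕ, T₀ < D ∧ D ^ 2 ∣ m)).card : ℝ) +
      (((Icc 1 N).filter (fun m => (∃ k u : ℕ, m = k * u ∧ Nat.Coprime k u ∧ Squarefree u ∧ Rough z u ∧ 1 ≤ k ∧ 1 ≤ u ∧
        k ≤ K) ∧ ∃ v ∈ W, V ≤ (v : ℝ) ∧ 1 ≤ v ∧ v ∣ f m)).card : ℝ) := by
  have hcov : (Icc 1 N).filter (fun m => ∃ v ∈ W, V ≤ (v : ℝ) ∧ v ∣ f m) ⊆
      ((Icc 1 N).filter (fun m => Y < (sp z m : ℝ)) ∪ (Icc 1 N).filter (fun m => ∃ D : ℕ, T₀ < D ∧ D ^ 2 ∣ m)) ∪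
      (Icc 1 N).filter (fun m => (∃ k u : ℕ, m = k * u ∧ Nat.Coprime k u ∧ Squarefree u ∧ Rough z u ∧ 1 ≤ k ∧ 1 ≤ u ∧
        k ≤ K) ∧ ∃ v ∈ W, V ≤ (v : ℝ) ∧ 1 ≤ v ∧ v ∣ f m) := by
    intro m hm
    rw [mem_filter] at hm
    obtain ⟨hm1, v, hvW, hvV, hvf⟩ := hm
    have hm1' := mem_Icc.1 hm1
    rw [mem_union, mem_union]
    by_cases h1 : Y < (sp z m : ℝ)
    · left; left
      rw [mem_filter]
      exact ⟨hm1, h1⟩
    by_cases h2 : ∃ D : ℕ, T₀ < D ∧ D ^ 2 ∣ m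
    · left; right
      rw [mem_filter]
      exact ⟨hm1, h2⟩
    right
    push Not at h1 h2
    obtain ⟨k, u, hku, hcop, hsq, hr, hk1, hu1, hk⟩ := decomp hm1'.1 h1 h2
    rw [mem_filter]
    refine ⟨hm1, ⟨k, u, hku, hcop, hsq, hr, hk1, hu1, hcut k hk⟩, v, hvW, hvV, ?_, hvf⟩
    have : (0 : ℝ) < v := lt_of_lt_of_le hV hvV
    exact_mod_cast this
  have h1 := (card_le_card hcov).trans ((card_union_le _ _).trans (Nat.add_le_add_right (card_union_le _ _) _))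
  exact_mod_cast h1

/-- **Large divisors.** If `W` has at most `C₀ X^θ` elements up to `X`, then for all `m ≤ N` but `N exp (-(log N)^c)` no
divisor `v ≥ exp ((log N)^b)` of `f m` is in `W`; `1/2 < b < 1`, `c < 2 b - 1`. -/
theorem avoidD {f : ℕ → ℕ} (hf : LM f) {θ : ℝ} (hθ0 : 0 ≤ θ) (hθ : θ < 1) (C₀ : ℝ) {b c : ℝ} (hb : b < 1) (hc0 : 0 ≤ c)
    (hcb : c < 2 * b - 1) :
    ∃ N₀ : ℕ, ∀ W : Set ℕ, (∀ X : ℕ, 1 ≤ X → (((Icc 1 X).filter (fun v => v ∈ W)).card : ℝ) ≤ C₀ * (X : ℝ) ^ θ) →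
      ∀ N : ℕ, N₀ ≤ N → (((Icc 1 N).filter (fun m => ∃ v ∈ W, Real.exp (Real.log N ^ b) ≤ (v : ℝ) ∧ v ∣ f m)).card : ℝ) ≤
        N * Real.exp (-(Real.log N ^ c)) := by
  obtain ⟨P, M₀, hPM⟩ := hf.prime
  obtain ⟨C, D, hCD⟩ := hf.growth
  obtain ⟨CR, hCR0, hCR⟩ := few_large'
  obtain ⟨M, hM⟩ : ∃ M : ℕ, M = M₀ + 1 := ⟨_, rfl⟩
  have hM1 : 1 ≤ M := by rw [hM]; exact Nat.succ_pos _
  have hMr : (1 : ℝ) ≤ M := by exact_mod_cast hM1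
  have hPM' : ∀ p : ℕ, P ≤ p → p.Prime → f p ≤ M * p ∧
      ∀ q : ℕ, P ≤ q → q.Prime → f q = f p → q = p := by
    intro p h1 h2
    refine ⟨((hPM p h1 h2).1).trans (Nat.mul_le_mul_right _ ?_), (hPM p h1 h2).2⟩
    rw [hM]
    exact Nat.le_succ _
  -- the exponents
  obtain ⟨a, s, q, aq, γ, haq, h_as, h_aqs, h_sb, h_c, h_a1, h_ca, h_cs, ha0, hq1, hγ, hγ0, haq0⟩ :
      ∃ a s q aq γ : ℝ, aq = a * q ∧ a < s ∧ aq < s ∧ s < b ∧ c < 2 * a - 1 ∧ a < 1 ∧ c < a ∧ c ≤ s ∧ 0 < a ∧ 1 < q ∧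
        γ = (1 - θ) * (1 - 1 / q) ∧ 0 < γ ∧ 0 ≤ aq := by
    obtain ⟨a, ha⟩ : ∃ a : ℝ, a = ((1 + c) / 2 + b) / 2 := ⟨_, rfl⟩
    have ha1 : (1 + c) / 2 < a := by rw [ha]; linarith
    have hab : a < b := by rw [ha]; linarith
    have ha0 : 0 < a := by linarith
    obtain ⟨q, hq⟩ : ∃ q : ℝ, q = (1 + b / a) / 2 := ⟨_, rfl⟩
    have hba : 1 < b / a := by rw [lt_div_iff₀ ha0]; linarith
    have hq1 : 1 < q := by rw [hq]; linarith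
    have hq0 : 0 < q := by linarith
    have haq' : a * q = (a + b) / 2 := by
      rw [hq]
      field_simp
    have hq' : 0 < 1 - 1 / q := by
      have : 1 / q < 1 := by rw [div_lt_one hq0]; exact hq1
      linarith
    refine ⟨a, (a * q + b) / 2, q, a * q, (1 - θ) * (1 - 1 / q), rfl, ?_, ?_, ?_, ?_, ?_, ?_, ?_, ha0, hq1, rfl,
      mul_pos (by linarith) hq', by positivity⟩
    all_goals first | linarith | (rw [haq']; linarith)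
  have hq0 : 0 < q := lt_trans one_pos hq1
  -- the constants
  obtain ⟨c0, hcC, hc01⟩ : ∃ c0 : ℝ, C₀ ≤ c0 ∧ 1 ≤ c0 := ⟨max C₀ 1, le_max_left _ _, le_max_right _ _⟩
  obtain ⟨K₁, hK₁⟩ : ∃ K₁ : ℝ, K₁ = 3 * (CR * Real.exp (4 * Real.exp 1 * (1 + CR))) := ⟨_, rfl⟩
  have hK₁0 : 0 < K₁ := by rw [hK₁]; positivity
  obtain ⟨R, r0, r1, r2, r3, r4, r5, r6, r7⟩ : ∃ R : ℝ, 100 ≤ R ∧ 3 * (M : ℝ) ≤ R ∧ (((C + 1 : ℕ) : ℝ)) + 4 * D ≤ R ∧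
      12 * c0 ≤ R ∧ K₁ + 2 ≤ R ∧ 2 * (P : ℝ) ≤ R ∧ 2 * ((2 : ℝ) ^ q + 2) ≤ R ∧ 11 / γ ≤ R := by
    have p1 : (0 : ℝ) ≤ P := Nat.cast_nonneg _
    have p2 : (0 : ℝ) ≤ D := Nat.cast_nonneg _
    have p3 : (0 : ℝ) < 2 ^ q := by positivity
    have p4 : (0 : ℝ) < 11 / γ := by positivity
    have p5 : (0 : ℝ) ≤ ((C + 1 : ℕ) : ℝ) := Nat.cast_nonneg _
    refine ⟨100 + 3 * M + ((C + 1 : ℕ) : ℝ) + 4 * D + 12 * c0 + K₁ + 2 * P + 2 * (2 ^ q + 2) + 11 / γ, ?_, ?_, ?_, ?_, ?_,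
      ?_, ?_, ?_⟩ <;> linarith
  obtain ⟨N₀, hN₀⟩ := evs (a := a) (aq := aq) (s := s) (b := b) (c := c) R h_as h_aqs h_sb h_c h_a1 h_ca
  refine ⟨N₀, fun W hW N hN => ?_⟩
  obtain ⟨hN3, k0, k1, k2, k3, k4, k5, k6, k7⟩ := hN₀ N hN
  clear hN₀
  have hC00 : 0 ≤ C₀ := by
    have := hW 1 le_rfl
    rw [Nat.cast_one, Real.one_rpow, mul_one] at this
    exact le_trans (Nat.cast_nonneg _) this
  have hN1 : 1 ≤ N := le_trans (by norm_num) hN3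
  have hN0 : (0 : ℝ) < N := by exact_mod_cast hN1
  obtain ⟨L, hL⟩ : ∃ L, L = Real.log N := ⟨_, rfl⟩
  rw [← hL] at k0 k1 k2 k3 k4 k5 k6 k7 ⊢
  obtain ⟨l, hl⟩ : ∃ l, l = Real.log L := ⟨_, rfl⟩
  rw [← hl] at k1 k2 k3 k4 k5 k6 k7
  have hR0 : 0 ≤ R := le_trans (by norm_num) r0
  have hL100 : 100 ≤ L := r0.trans k0
  have hL0 : 0 < L := lt_of_lt_of_le (by norm_num) hL100
  have hL1 : 1 ≤ L := le_trans (by norm_num) hL100
  have hl0 : 0 ≤ l := zero_le_one.trans k1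
  have hexpl : Real.exp l = L := by rw [hl]; exact Real.exp_log hL0
  have hexpL : Real.exp L = N := by rw [hL]; exact Real.exp_log hN0
  obtain ⟨A, hA⟩ : ∃ A : ℝ, A = L ^ a := ⟨_, rfl⟩
  obtain ⟨S, hS⟩ : ∃ S : ℝ, S = L ^ s := ⟨_, rfl⟩
  rw [← hA] at k2 k6 k7
  rw [← hS] at k2 k3 k4
  have hA1 : 1 ≤ A := by rw [hA]; exact Real.one_le_rpow hL1 ha0.le
  have hA0 : 0 ≤ A := zero_le_one.trans hA1
  have hS1 : 1 ≤ S := by rw [hS]; exact Real.one_le_rpow hL1 (ha0.le.trans h_as.le)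
  have hS0 : 0 ≤ S := zero_le_one.trans hS1
  have hLc1 : 1 ≤ L ^ c := Real.one_le_rpow hL1 hc0
  have u2 : R * A ≤ S := mul_l hR0 hA0 k1 k2
  have u4 : R * S ≤ L ^ b := mul_l hR0 hS0 k1 k4
  have u5 : R * l ≤ S := mul_l' hR0 hA1 hl0 k2
  have u6 : R * A ≤ L := mul_l hR0 hA0 k1 k6
  have u7 : R * L ^ c ≤ A := mul_l hR0 (zero_le_one.trans hLc1) k1 k7
  obtain ⟨J, z, w, hJ1, hJ2, hwJ, hw4, hwL, hz2, hzP, hz1, hzN, hlz0, hlz⟩ := scales hexpL hA1 r0 r5 u6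
  obtain ⟨T₀, K, hT₀1, hT₀2, hK1, hKY, hcut⟩ := cutoffs hA1
  have hG₀S : (((C + 1) * K ^ D : ℕ) : ℝ) ≤ Real.exp S := num_G hA1 hK1 hKY r2 u2
  obtain ⟨G₀, hG₀⟩ : ∃ G₀ : ℕ, G₀ = (C + 1) * K ^ D := ⟨_, rfl⟩
  rw [← hG₀] at hG₀S
  have hG₀1 : (1 : ℝ) ≤ G₀ := by
    have : 1 ≤ G₀ := by rw [hG₀]; exact Nat.mul_pos (Nat.succ_pos _) (Nat.pow_pos hK1)
    exact_mod_cast this
  have hG₀0 : (0 : ℝ) < G₀ := lt_of_lt_of_le one_pos hG₀1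
  obtain ⟨V₁, hV₁⟩ : ∃ V₁ : ℝ, V₁ = Real.exp (L ^ b) / G₀ := ⟨_, rfl⟩
  have hV₁0 : 0 < V₁ := by rw [hV₁]; positivity
  have hMA : (M : ℝ) * A ≤ L := mul_R hA0 (by linarith only [r1, hMr]) u6
  obtain ⟨hlX0, hlX⟩ := num_X hM1 hN1 hL hJ1 hMA
  have hX1 : 1 ≤ M ^ J * N := Nat.mul_pos (Nat.pow_pos hM1) hN1
  obtain ⟨K', hK'1, hK'2⟩ := num_K hL1 hq0 haq haq0 hA hA1 hJ1
  obtain ⟨RB, hRB⟩ : ∃ RB : ℝ, RB = Real.exp (3 * S) * Real.exp (S) * Real.exp (-(γ * L ^ b)) := ⟨_, rfl⟩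
  have hRB0 : 0 ≤ RB := by rw [hRB]; positivity
  have hLaq0 : 0 ≤ L ^ aq * l := by positivity
  have hsum : ∀ g : ℕ, 1 ≤ g → g ≤ G₀ →
      ∑ v ∈ (Icc 1 (M ^ J * N)).filter (fun v : ℕ => v ∈ {v : ℕ | g * v ∈ W} ∧ V₁ ≤ v), (T J v : ℝ) / v ≤ RB := by
    intro g hg1 hgG
    have hgG' : (g : ℝ) ≤ G₀ := by exact_mod_cast hgG
    have h1 := holder_part (B := {v : ℕ | g * v ∈ W}) hθ.le (slice_count hC00 hcC hθ.le hW hg1 hgG') hV₁0 hX1 hq1 hK'1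
    refine h1.trans ?_
    rw [hRB]
    exact num_holder hL100 hexpl hlX0 hlX hc01 (r3.trans k0) hl0 (mul_R hl0 (by linarith only [r0]) u5) hG₀1 hG₀S hθ0 hq1
      hγ hV₁ hK'2 (mul_R hLaq0 r6 k3)
  have hfin := cover3 (f := f) (W := W) (N := N) (z := z) (Real.exp_pos (L ^ b)) hcut
  have q1 : (((Icc 1 N).filter (fun m => Real.exp A < (sp z m : ℝ))).card : ℝ) ≤ N * Real.exp (-(L ^ c)) / 3 := by
    have hw0 : 0 < w := by linarith only [hw4]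
    have hz0 : (0 : ℝ) ≤ z := Nat.cast_nonneg _
    have h1 := hCR (1 / w) z N (Real.exp A) (by positivity) (one_div_le_one_div_of_le (by norm_num) hw4) hz2
      (Real.exp_pos A)
    refine h1.trans ?_
    refine num_smooth hN0.le hCR0 hK₁ hw4 rfl rfl (by linarith only [hJ2, hA1]) hJ2 hwJ (by linarith only [hA1]) ?_ hL0 hlz0 hlz
      hwL ?_ hexpl ?_ (Lt := L ^ (2 * a - 1))
    · rw [hA, ← Real.rpow_add hL0]
      nth_rewrite 2 [← Real.rpow_one L]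
      rw [← Real.rpow_add hL0]
      congr 1
      ring
    · calc (z : ℝ) ^ (1 / w) ≤ (Real.exp w) ^ (1 / w) := Real.rpow_le_rpow hz0 hz1 (by positivity)
        _ = Real.exp 1 := by
          rw [← Real.exp_mul, mul_one_div_cancel hw0.ne']
    · refine le_trans ?_ k5
      have e2 : K₁ * 1 ≤ K₁ * (L ^ c * l) := by
        apply mul_le_mul_of_nonneg_left _ hK₁0.le
        exact one_le_mul_of_one_le_of_one_le hLc1 k1
      have e3 : 1 * l ≤ L ^ c * l := mul_le_mul_of_nonneg_right hLc1 hl0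
      have e4 : L ^ c * 1 ≤ L ^ c * l := mul_le_mul_of_nonneg_left k1 (by linarith only [hLc1])
      have e5 : 0 ≤ L ^ c * l := by positivity
      have e6 : (K₁ + 2) * (L ^ c * l) ≤ R * (L ^ c * l) := mul_le_mul_of_nonneg_right r4 e5
      linarith only [e2, e3, e4, e6]
  have q2 : (((Icc 1 N).filter (fun m => ∃ D : ℕ, T₀ < D ∧ D ^ 2 ∣ m)).card : ℝ) ≤ N * Real.exp (-(L ^ c)) / 3 := by
    refine (few_sq N T₀ hT₀1).trans ?_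
    refine num_squares hN0.le (by exact_mod_cast hT₀1) rfl hT₀2 ?_
    have e1 : 100 * L ^ c ≤ A := mul_R (by linarith only [hLc1]) r0 u7
    linarith only [e1, hLc1]
  have q4 : (((Icc 1 N).filter (fun m => (∃ k u : ℕ, m = k * u ∧ Nat.Coprime k u ∧ Squarefree u ∧ Rough z u ∧ 1 ≤ k ∧ 1 ≤ u ∧
        k ≤ K) ∧ ∃ v ∈ W, Real.exp (L ^ b) ≤ (v : ℝ) ∧ 1 ≤ v ∧ v ∣ f m)).card : ℝ) ≤ N * Real.exp (-(L ^ c)) / 3 := by
    have h1 := cover4 hf hM1 hPM' W (V := Real.exp (L ^ b)) (V₁ := V₁) hzP hN1 (K := K) (G₀ := G₀) hzN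
      (fun k hk1 hkK => by
        rw [hG₀]
        exact (hCD k hk1).trans (Nat.mul_le_mul (Nat.le_succ _) (Nat.pow_le_pow_left hkK D)))
      (by
        rw [hV₁]
        exact le_of_eq (div_mul_cancel₀ _ hG₀0.ne')) hRB0 hsum
    refine h1.trans ?_
    have hKr : (1 : ℝ) ≤ K := by exact_mod_cast hK1
    have hlK : Real.log K ≤ 4 * A := by
      have := Real.log_le_log (by linarith only [hKr]) hKY
      rwa [Real.log_exp] at this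
    have hlMN : Real.log (M * N : ℕ) ≤ M + L := by
      push_cast
      rw [Real.log_mul (by linarith only [hMr]) hN0.ne', ← hL]
      have := log_le_self' (x := (M : ℝ)) (by linarith only [hMr])
      linarith only [this]
    have hlMN0 : 0 ≤ Real.log (M * N : ℕ) := Real.log_nonneg (by exact_mod_cast Nat.mul_pos hM1 hN1)
    have hLcS : L ^ c ≤ S := by
      rw [hS]
      exact Real.rpow_le_rpow_of_exponent_le hL1 h_cs
    have h11 : 11 * S ≤ γ * L ^ b := by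
      have e6 : 11 / γ * S ≤ L ^ b := mul_R hS0 r7 u4
      rw [div_mul_eq_mul_div, div_le_iff₀ hγ0] at e6
      linarith only [e6]
    exact num_last hN0.le hlK (mul_R hA0 (by linarith only [r0]) u2) hJ1
      (le_trans (le_of_eq (one_mul A).symm) (mul_R hA0 (by linarith only [r0]) u2)) hMr hlMN0 hlMN hL100 (r1.trans k0) hexpl hl0
      (mul_R (by positivity) (by linarith only [r0]) k2) rfl hG₀0.le hG₀S hRB hLcS hS1 h11
  linarith only [hfin, q1, q2, q4]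

end Pool.Agent.U536.CF
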