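import Mathlib
import Pool.Agent.N760.TG.U
import Pool.Agent.U536.CF.Def
import Pool.Agent.U536.CF.E

set_option autoImplicit false

/-! Integers with a large common factor with the values of multiplicative functions avoid sets with a power saving; windows
(helper536). -/

namespace Pool.Agent.U536.CF

open Finset Classical
open Pool.Agent.N733.TG (LM Expanding NearG)
open Pool.Agent.N760.TG (nearG_count_unif)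

/-- **Common factors.** If `W` has at most `C₀ X^θ` elements up to `X`, then for all `m ≤ N` but `N exp (-(log N)^c)` no
`w ≥ exp ((log N)^b)` with `gcd(w, f m) ≥ w^ρ` is in `W`; `θ < ρ`, `1/2 < b < 1`, `c < 2 b - 1`. -/
theorem avoidG {f : ℕ → ℕ} (hf : LM f) {θ ρ : ℝ} (hθ0 : 0 ≤ θ) (hρ : θ < ρ) (C₀ : ℝ) {b c : ℝ} (hb : b < 1) (hc0 : 0 ≤ c)
    (hcb : c < 2 * b - 1) :
    ∃ N₀ : ℕ, ∀ W : Set ℕ, (∀ X : ℕ, 1 ≤ X → (((Icc 1 X).filter (fun v => v ∈ W)).card : ℝ) ≤ C₀ * (X : ℝ) ^ θ) →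
      ∀ N : ℕ, N₀ ≤ N → ({m : ℕ | 1 ≤ m ∧ m ≤ N ∧ ∃ w ∈ W, Common f b ρ N m w}.ncard : ℝ) ≤
        N * Real.exp (-(Real.log N ^ c)) := by
  have hρ0 : 0 < ρ := by linarith
  obtain ⟨C₁, hC₁0, hC₁⟩ := div_count hθ0 hρ C₀
  obtain ⟨b', hb'⟩ : ∃ b' : ℝ, b' = ((1 + c) / 2 + b) / 2 := ⟨_, rfl⟩
  have hb'b : b' < b := by rw [hb']; linarith
  have hθ' : (θ + ρ) / (2 * ρ) < 1 := by
    rw [div_lt_one (by linarith)]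
    linarith
  obtain ⟨N₁, hN₁⟩ := avoidD hf (θ := (θ + ρ) / (2 * ρ)) (by positivity) hθ' C₁ (b := b') (c := c) (by linarith) hc0
    (by rw [hb']; linarith)
  -- `L ^ b' ≤ ρ L ^ b`
  have t1 : Filter.Tendsto (fun N : ℕ => Real.log (N : ℝ)) Filter.atTop Filter.atTop :=
    Real.tendsto_log_atTop.comp tendsto_natCast_atTop_atTop
  have g := t1.eventually ((ev hb'b (1 / ρ)).and (Filter.eventually_ge_atTop (Real.exp 1)))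
  obtain ⟨N₂, hN₂⟩ := Filter.eventually_atTop.1 g
  refine ⟨max N₁ N₂, fun W hW N hN => ?_⟩
  obtain ⟨g1, g2⟩ := hN₂ N ((le_max_right _ _).trans hN)
  have h1 := hN₁ _ (hC₁ W hW) N ((le_max_left _ _).trans hN)
  refine le_trans ?_ h1
  rw [← Set.ncard_coe_finset]
  apply Nat.cast_le.2
  apply Set.ncard_le_ncard _ (finite_toSet _)
  rintro m ⟨hm1, hmN, w, hwW, hw⟩
  rw [mem_coe, mem_filter, mem_Icc]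
  refine ⟨⟨hm1, hmN⟩, Nat.gcd w (f m), ⟨w, hwW, hw.one_le, Nat.gcd_dvd_left _ _, hw.2⟩, ?_, Nat.gcd_dvd_right _ _⟩
  refine le_trans ?_ hw.2
  have hL1 : 1 ≤ Real.log (Real.log N) := by
    rw [← Real.log_exp 1]
    exact Real.log_le_log (Real.exp_pos _) g2
  have hL0 : 0 < Real.log N := lt_of_lt_of_le (Real.exp_pos _) g2
  have h2 : 1 / ρ * Real.log N ^ b' ≤ Real.log N ^ b := mul_l (by positivity) (by positivity) hL1 g1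
  rw [one_div, inv_mul_eq_div, div_le_iff₀ hρ0] at h2
  calc Real.exp (Real.log N ^ b') ≤ Real.exp (Real.log N ^ b * ρ) := Real.exp_le_exp.2 h2
    _ = (Real.exp (Real.log N ^ b)) ^ ρ := by rw [Real.exp_mul]
    _ ≤ (w : ℝ) ^ ρ := Real.rpow_le_rpow (Real.exp_pos _).le hw.1 hρ0.le

/-- **Windows, uniform form.** -/
theorem common_windows_unif {T : Type*} (h : T → ℝ) {f : ℕ → ℕ} (hf : LM f) {G : ℕ → ℝ} {d : ℝ}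
    (hG : Expanding G d) {s κ ρ b c : ℝ} (hs : 0 ≤ s) (hκ : 0 ≤ κ) (h1 : d * s + κ < ρ) (hρ : ρ ≤ 1) (hb : b < 1)
    (hc0 : 0 ≤ c) (hcb : c < 2 * b - 1) (C : ℝ) :
    ∃ N₀ : ℕ, ∀ S : Set T, (∀ X : ℝ, 1 ≤ X →
      {t | t ∈ S ∧ h t ≤ X}.Finite ∧ ({t | t ∈ S ∧ h t ≤ X}.ncard : ℝ) ≤ C * X ^ s) → ∀ N : ℕ, N₀ ≤ N →
      ({m : ℕ | 1 ≤ m ∧ m ≤ N ∧ ∃ w : ℕ, Common f b ρ N m w ∧ ∃ t ∈ S, |h t - G w| ≤ (w : ℝ) ^ κ}.ncard : ℝ) ≤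
        N * Real.exp (-(Real.log N ^ c)) := by
  have hd := hG.one_le
  have hds : 0 ≤ d * s := by positivity
  obtain ⟨K, hK⟩ := nearG_count_unif h hG hs hκ (by linarith) C
  obtain ⟨N₀, hN₀⟩ := avoidG hf (θ := d * s + κ) (ρ := ρ) (by positivity) h1 K hb hc0 hcb
  refine ⟨N₀, fun S hS N hN => ?_⟩
  have h3 := hN₀ (NearG S h G κ) (hK S hS) N hN
  refine le_trans (le_of_eq ?_) h3
  congr 2
  ext m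
  simp only [Set.mem_ofPred_eq, NearG]
  constructor
  · rintro ⟨a1, a2, w, a3, a4⟩
    exact ⟨a1, a2, w, a4, a3⟩
  · rintro ⟨a1, a2, w, a4, a3⟩
    exact ⟨a1, a2, w, a3, a4⟩

/-- **Windows.** -/
theorem common_windows {T : Type*} (S : Set T) (h : T → ℝ) {f : ℕ → ℕ} (hf : LM f) {G : ℕ → ℝ} {d : ℝ}
    (hG : Expanding G d) {s κ ρ b c : ℝ} (hs : 0 ≤ s) (hκ : 0 ≤ κ) (h1 : d * s + κ < ρ) (hρ : ρ ≤ 1) (hb : b < 1)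
    (hc0 : 0 ≤ c) (hcb : c < 2 * b - 1)
    (hS : ∀ ε : ℝ, 0 < ε → ∃ C : ℝ, ∀ X : ℝ, 1 ≤ X →
      {t | t ∈ S ∧ h t ≤ X}.Finite ∧ ({t | t ∈ S ∧ h t ≤ X}.ncard : ℝ) ≤ C * X ^ (s + ε)) :
    ∃ N₀ : ℕ, ∀ N : ℕ, N₀ ≤ N →
      ({m : ℕ | 1 ≤ m ∧ m ≤ N ∧ ∃ w : ℕ, Common f b ρ N m w ∧ ∃ t ∈ S, |h t - G w| ≤ (w : ℝ) ^ κ}.ncard : ℝ) ≤
        N * Real.exp (-(Real.log N ^ c)) := by
  have hd := hG.one_le
  obtain ⟨ε, hε⟩ : ∃ ε, ε = (ρ - d * s - κ) / (2 * d) := ⟨_, rfl⟩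
  have hε0 : 0 < ε := by
    rw [hε]
    apply div_pos (by linarith) (by linarith)
  have hεd : d * ε = (ρ - d * s - κ) / 2 := by
    rw [hε]
    field_simp
  obtain ⟨C, hC⟩ := hS ε hε0
  obtain ⟨N₀, hN₀⟩ := common_windows_unif h hf hG (s := s + ε) (κ := κ) (ρ := ρ) (b := b) (c := c) (by linarith) hκ (by
    rw [mul_add, hεd]
    linarith) hρ hb hc0 hcb C
  exact ⟨N₀, fun N hN => hN₀ S hC N hN⟩

/-- the case of a set of natural numbers -/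
theorem common_win_nat (P : Set ℕ) {f : ℕ → ℕ} (hf : LM f) {G : ℕ → ℝ} {d : ℝ}
    (hG : Expanding G d) {s κ ρ b c : ℝ} (hs : 0 ≤ s) (hκ : 0 ≤ κ) (h1 : d * s + κ < ρ) (hρ : ρ ≤ 1) (hb : b < 1)
    (hc0 : 0 ≤ c) (hcb : c < 2 * b - 1)
    (hP : ∀ ε : ℝ, 0 < ε → ∃ C : ℝ, ∀ X : ℕ, 1 ≤ X →
      (((Ioc 0 X).filter (fun t => t ∈ P)).card : ℝ) ≤ C * (X : ℝ) ^ (s + ε)) :
    ∃ N₀ : ℕ, ∀ N : ℕ, N₀ ≤ N →
      ({m : ℕ | 1 ≤ m ∧ m ≤ N ∧ ∃ w : ℕ, Common f b ρ N m w ∧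
        ∃ n : ℕ, (n = 0 ∨ n ∈ P) ∧ |(n : ℝ) - G w| ≤ (w : ℝ) ^ κ}.ncard : ℝ) ≤
        N * Real.exp (-(Real.log N ^ c)) := by
  obtain ⟨N₀, hN₀⟩ := common_windows {t : ℕ | t = 0 ∨ t ∈ P} (fun t : ℕ => (t : ℝ)) hf hG hs hκ h1 hρ hb hc0 hcb (by
    intro ε hε
    obtain ⟨C, hC⟩ := hP ε hε
    refine ⟨|C| + 1, fun X hX => ?_⟩
    have hX1 : 1 ≤ ⌊X⌋₊ := Nat.le_floor (by exact_mod_cast hX)
    have hsub : {t : ℕ | t ∈ {t : ℕ | t = 0 ∨ t ∈ P} ∧ (t : ℝ) ≤ X} ⊆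
        (((Ioc 0 ⌊X⌋₊).filter (fun t => t ∈ P) ∪ {0} : Finset ℕ) : Set ℕ) := by
      rintro t ⟨ht, htX⟩
      rw [mem_coe, mem_union, mem_filter, mem_Ioc, mem_singleton]
      rcases Nat.eq_zero_or_pos t with h0 | h0
      · right; exact h0
      · left
        refine ⟨⟨h0, Nat.le_floor htX⟩, ?_⟩
        rcases ht with h | h
        · omega
        · exact h
    refine ⟨(finite_toSet _).subset hsub, ?_⟩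
    have h2 := Set.ncard_le_ncard hsub (finite_toSet _)
    rw [Set.ncard_coe_finset] at h2
    have h3 : ((Ioc 0 ⌊X⌋₊).filter (fun t => t ∈ P) ∪ {0} : Finset ℕ).card ≤
        ((Ioc 0 ⌊X⌋₊).filter (fun t => t ∈ P)).card + 1 := (card_union_le _ _).trans (by simp)
    have h4 : (({t : ℕ | t ∈ {t : ℕ | t = 0 ∨ t ∈ P} ∧ (t : ℝ) ≤ X}.ncard : ℕ) : ℝ) ≤
        (((Ioc 0 ⌊X⌋₊).filter (fun t => t ∈ P)).card : ℝ) + 1 := by exact_mod_cast h2.trans h3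
    have h5 : (1 : ℝ) ≤ X ^ (s + ε) := Real.one_le_rpow hX (by linarith)
    have h6 : ((⌊X⌋₊ : ℕ) : ℝ) ^ (s + ε) ≤ X ^ (s + ε) :=
      Real.rpow_le_rpow (Nat.cast_nonneg _) (Nat.floor_le (by linarith)) (by linarith)
    calc _ ≤ (((Ioc 0 ⌊X⌋₊).filter (fun t => t ∈ P)).card : ℝ) + 1 := h4
      _ ≤ C * ((⌊X⌋₊ : ℕ) : ℝ) ^ (s + ε) + 1 := by linarith [hC _ hX1]
      _ ≤ |C| * X ^ (s + ε) + 1 * X ^ (s + ε) := by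
        have h7 : C * ((⌊X⌋₊ : ℕ) : ℝ) ^ (s + ε) ≤ |C| * X ^ (s + ε) :=
          (mul_le_mul_of_nonneg_right (le_abs_self _) (by positivity)).trans
            (mul_le_mul_of_nonneg_left h6 (abs_nonneg _))
        linarith
      _ = (|C| + 1) * X ^ (s + ε) := by ring)
  exact ⟨N₀, fun N hN => hN₀ N hN⟩

/-- the same for a property -/
theorem common_good {T : Type*} (Adm Good : T → Prop) (h : T → ℝ) {f : ℕ → ℕ} (hf : LM f) {G : ℕ → ℝ} {d : ℝ}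
    (hG : Expanding G d) {s κ ρ b c : ℝ} (hs : 0 ≤ s) (hκ : 0 ≤ κ) (h1 : d * s + κ < ρ) (hρ : ρ ≤ 1) (hb : b < 1)
    (hc0 : 0 ≤ c) (hcb : c < 2 * b - 1)
    (hS : ∀ ε : ℝ, 0 < ε → ∃ C : ℝ, ∀ X : ℝ, 1 ≤ X →
      {t | (Adm t ∧ ¬ Good t) ∧ h t ≤ X}.Finite ∧ ({t | (Adm t ∧ ¬ Good t) ∧ h t ≤ X}.ncard : ℝ) ≤ C * X ^ (s + ε)) :
    ∃ N₀ : ℕ, ∀ N : ℕ, N₀ ≤ N →
      ({m : ℕ | 1 ≤ m ∧ m ≤ N ∧ ¬ ∀ w : ℕ, Common f b ρ N m w → ∀ t, Adm t → |h t - G w| ≤ (w : ℝ) ^ κ →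
        Good t}.ncard : ℝ) ≤ N * Real.exp (-(Real.log N ^ c)) := by
  obtain ⟨N₀, hN₀⟩ := common_windows {t | Adm t ∧ ¬ Good t} h hf hG hs hκ h1 hρ hb hc0 hcb hS
  refine ⟨N₀, fun N hN => le_trans ?_ (hN₀ N hN)⟩
  have hfin : {m : ℕ | 1 ≤ m ∧ m ≤ N ∧ ∃ w : ℕ, Common f b ρ N m w ∧ ∃ t ∈ {t | Adm t ∧ ¬ Good t},
      |h t - G w| ≤ (w : ℝ) ^ κ}.Finite := by
    apply (Set.finite_Icc 1 N).subset
    intro m hm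
    exact ⟨hm.1, hm.2.1⟩
  have h2 : {m : ℕ | 1 ≤ m ∧ m ≤ N ∧ ¬ ∀ w : ℕ, Common f b ρ N m w → ∀ t, Adm t → |h t - G w| ≤ (w : ℝ) ^ κ →
        Good t} ⊆
      {m : ℕ | 1 ≤ m ∧ m ≤ N ∧ ∃ w : ℕ, Common f b ρ N m w ∧ ∃ t ∈ {t | Adm t ∧ ¬ Good t},
      |h t - G w| ≤ (w : ℝ) ^ κ} := by
    rintro m ⟨h2, h3, h4⟩
    push Not at h4
    obtain ⟨w, hw, n, hn, h5, h6⟩ := h4
    exact ⟨h2, h3, w, hw, n, ⟨hn, h6⟩, h5⟩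
  exact_mod_cast Set.ncard_le_ncard h2 hfin

/-- the same for natural numbers -/
theorem common_good_nat (Adm Good : ℕ → Prop) {f : ℕ → ℕ} (hf : LM f) {G : ℕ → ℝ} {d : ℝ}
    (hG : Expanding G d) {s κ ρ b c : ℝ} (hs : 0 ≤ s) (hκ : 0 ≤ κ) (h1 : d * s + κ < ρ) (hρ : ρ ≤ 1) (hb : b < 1)
    (hc0 : 0 ≤ c) (hcb : c < 2 * b - 1)
    (hP : ∀ ε : ℝ, 0 < ε → ∃ C : ℝ, ∀ X : ℕ, 1 ≤ X →
      ({t : ℕ | 1 ≤ t ∧ t ≤ X ∧ Adm t ∧ ¬ Good t}.ncard : ℝ) ≤ C * (X : ℝ) ^ (s + ε)) :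
    ∃ N₀ : ℕ, ∀ N : ℕ, N₀ ≤ N →
      ({m : ℕ | 1 ≤ m ∧ m ≤ N ∧ ¬ ∀ w : ℕ, Common f b ρ N m w → ∀ n : ℕ, 1 ≤ n → Adm n → |(n : ℝ) - G w| ≤ (w : ℝ) ^ κ →
        Good n}.ncard : ℝ) ≤ N * Real.exp (-(Real.log N ^ c)) := by
  obtain ⟨N₀, hN₀⟩ := common_win_nat {t | Adm t ∧ ¬ Good t} hf hG hs hκ h1 hρ hb hc0 hcb (fun ε hε => by
    obtain ⟨C, hC⟩ := hP ε hε
    refine ⟨C, fun X hX => le_trans (le_of_eq ?_) (hC X hX)⟩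
    congr 1
    rw [← Set.ncard_coe_finset]
    congr 1
    ext t
    simp only [coe_filter, mem_Ioc, Set.mem_ofPred_eq]
    constructor
    · rintro ⟨⟨a1, a2⟩, a3⟩
      exact ⟨a1, a2, a3⟩
    · rintro ⟨a1, a2, a3⟩
      exact ⟨⟨a1, a2⟩, a3⟩)
  refine ⟨N₀, fun N hN => le_trans ?_ (hN₀ N hN)⟩
  have hfin : {m : ℕ | 1 ≤ m ∧ m ≤ N ∧ ∃ w : ℕ, Common f b ρ N m w ∧ ∃ n : ℕ, (n = 0 ∨ n ∈ {t | Adm t ∧ ¬ Good t}) ∧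
      |(n : ℝ) - G w| ≤ (w : ℝ) ^ κ}.Finite := by
    apply (Set.finite_Icc 1 N).subset
    intro m hm
    exact ⟨hm.1, hm.2.1⟩
  have h2 : {m : ℕ | 1 ≤ m ∧ m ≤ N ∧ ¬ ∀ w : ℕ, Common f b ρ N m w → ∀ n : ℕ, 1 ≤ n → Adm n →
      |(n : ℝ) - G w| ≤ (w : ℝ) ^ κ → Good n} ⊆
      {m : ℕ | 1 ≤ m ∧ m ≤ N ∧ ∃ w : ℕ, Common f b ρ N m w ∧ ∃ n : ℕ, (n = 0 ∨ n ∈ {t | Adm t ∧ ¬ Good t}) ∧
      |(n : ℝ) - G w| ≤ (w : ℝ) ^ κ} := by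
    rintro m ⟨h2, h3, h4⟩
    push Not at h4
    obtain ⟨w, hw, n, hn1, hn, h5, h6⟩ := h4
    exact ⟨h2, h3, w, hw, n, Or.inr ⟨hn, h6⟩, h5⟩
  exact_mod_cast Set.ncard_le_ncard h2 hfin

/-- the uniform form for a property of natural numbers: `N₀` does not depend on the property -/
theorem common_good_nat_unif {f : ℕ → ℕ} (hf : LM f) {G : ℕ → ℝ} {d : ℝ}
    (hG : Expanding G d) {s κ ρ b c : ℝ} (hs : 0 ≤ s) (hκ : 0 ≤ κ) (h1 : d * s + κ < ρ) (hρ : ρ ≤ 1) (hb : b < 1)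
    (hc0 : 0 ≤ c) (hcb : c < 2 * b - 1) (C : ℝ) :
    ∃ N₀ : ℕ, ∀ Bad : ℕ → Prop, (∀ X : ℕ, 1 ≤ X →
      ({t : ℕ | 1 ≤ t ∧ t ≤ X ∧ Bad t}.ncard : ℝ) ≤ C * (X : ℝ) ^ s) → ∀ N : ℕ, N₀ ≤ N →
      ({m : ℕ | 1 ≤ m ∧ m ≤ N ∧ ∃ w : ℕ, Common f b ρ N m w ∧
        ∃ n : ℕ, 1 ≤ n ∧ |(n : ℝ) - G w| ≤ (w : ℝ) ^ κ ∧ Bad n}.ncard : ℝ) ≤ N * Real.exp (-(Real.log N ^ c)) := by
  obtain ⟨N₀, hN₀⟩ := common_windows_unif (fun t : ℕ => (t : ℝ)) hf hG hs hκ h1 hρ hb hc0 hcb |C|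
  refine ⟨N₀, fun Bad hB N hN => ?_⟩
  have h2 := hN₀ {t : ℕ | 1 ≤ t ∧ Bad t} (fun X hX => ?_) N hN
  · refine le_trans (le_of_eq ?_) h2
    congr 2
    ext m
    simp only [Set.mem_ofPred_eq]
    constructor
    · rintro ⟨a1, a2, w, hw, n, a3, a4, a5⟩
      exact ⟨a1, a2, w, hw, n, ⟨a3, a5⟩, a4⟩
    · rintro ⟨a1, a2, w, hw, n, ⟨a3, a5⟩, a4⟩
      exact ⟨a1, a2, w, hw, n, a3, a4, a5⟩
  · have hX1 : 1 ≤ ⌊X⌋₊ := Nat.le_floor (by exact_mod_cast hX)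
    have hset : {t : ℕ | t ∈ {t : ℕ | 1 ≤ t ∧ Bad t} ∧ (t : ℝ) ≤ X} = {t : ℕ | 1 ≤ t ∧ t ≤ ⌊X⌋₊ ∧ Bad t} := by
      ext t
      simp only [Set.mem_ofPred_eq]
      constructor
      · rintro ⟨⟨a1, a2⟩, a3⟩
        exact ⟨a1, Nat.le_floor a3, a2⟩
      · rintro ⟨a1, a2, a3⟩
        exact ⟨⟨a1, a3⟩, (Nat.le_floor_iff (by linarith)).1 a2⟩
    rw [hset]
    refine ⟨(Set.finite_Icc 1 ⌊X⌋₊).subset fun t ht => ⟨ht.1, ht.2.1⟩, ?_⟩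
    refine (hB _ hX1).trans ?_
    calc C * ((⌊X⌋₊ : ℕ) : ℝ) ^ s ≤ |C| * ((⌊X⌋₊ : ℕ) : ℝ) ^ s :=
          mul_le_mul_of_nonneg_right (le_abs_self _) (by positivity)
      _ ≤ |C| * X ^ s := mul_le_mul_of_nonneg_left
          (Real.rpow_le_rpow (Nat.cast_nonneg _) (Nat.floor_le (by linarith)) hs) (abs_nonneg _)

end Pool.Agent.U536.CF
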