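import Mathlib
import Pool.Agent.N60.MV.Tail
import Pool.Agent.U536.CF.F

set_option autoImplicit false

/-! From tail bounds `C X / y ^ c` for the orbits which never enter `[-y, y]` to the orbits of the integers near the
integers with a large common factor with the values of multiplicative functions (helper536). -/

namespace Pool.Agent.U536.CF

open Pool.Agent.N733.TG (LM Expanding)
open Pool.Agent.N60.MV (fin_abs tail_pow)

/-- **Tails.** For almost all `u` no nonzero integer `x` with `| |x| - G w | ≤ w^κ`, `w` any integer with a large common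
factor with `f u`, has the property `P` at the level `|x| ^ δ`. -/
theorem common_tail {P : ℤ → ℝ → Prop} (hmono : ∀ x y y', y ≤ y' → P x y' → P x y) {C c : ℝ} (hC : 0 < C) (hc : 0 < c)
    (h : ∀ X y : ℝ, 1 ≤ X → 1 ≤ y → ({x : ℤ | |(x : ℝ)| ≤ X ∧ P x y}.ncard : ℝ) ≤ C * X / y ^ c)
    {δ : ℝ} (hδ : 0 < δ) (hcδ : c * δ < 1) {f : ℕ → ℕ} (hf : LM f) {G : ℕ → ℝ} {e : ℝ} (hG : Expanding G e) {κ ρ b c' : ℝ}
    (hκ : 0 ≤ κ) (h1 : e * (1 - c * δ) + κ < ρ) (hρ : ρ ≤ 1) (hb : b < 1) (hc0 : 0 ≤ c') (hcb : c' < 2 * b - 1) :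
    ∃ N₀ : ℕ, ∀ N : ℕ, N₀ ≤ N →
      ({u : ℕ | 1 ≤ u ∧ u ≤ N ∧ ¬ ∀ w : ℕ, Common f b ρ N u w → ∀ x : ℤ, x ≠ 0 → |(|x| : ℝ) - G w| ≤ (w : ℝ) ^ κ →
        ¬ P x (|(x : ℝ)| ^ δ)}.ncard : ℝ) ≤ N * Real.exp (-(Real.log N ^ c')) := by
  obtain ⟨K, hK, hcount⟩ := tail_pow hmono hC hc h hδ hcδ
  obtain ⟨N₀, hN₀⟩ := common_windows {x : ℤ | x ≠ 0 ∧ P x (|(x : ℝ)| ^ δ)} (fun x : ℤ => |(x : ℝ)|) hf hG
    (s := 1 - c * δ) (κ := κ) (by linarith) hκ h1 hρ hb hc0 hcb (fun ε hε => ⟨K, fun X hX => by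
      have e1 : {t : ℤ | t ∈ {x : ℤ | x ≠ 0 ∧ P x (|(x : ℝ)| ^ δ)} ∧ |(t : ℝ)| ≤ X} =
          {x : ℤ | |(x : ℝ)| ≤ X ∧ (x ≠ 0 ∧ P x (|(x : ℝ)| ^ δ))} := by
        ext x
        simp only [Set.mem_ofPred_eq]
        tauto
      rw [e1]
      exact ⟨fin_abs _ _, (hcount X hX).trans (mul_le_mul_of_nonneg_left
        (Real.rpow_le_rpow_of_exponent_le hX (by linarith)) hK.le)⟩⟩)
  refine ⟨N₀, fun N hN => le_trans (le_of_eq ?_) (hN₀ N hN)⟩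
  congr 2
  ext u
  simp only [Set.mem_ofPred_eq]
  constructor
  · rintro ⟨h2, h3, h4⟩
    push Not at h4
    obtain ⟨w, hw, x, hx, h5, h6⟩ := h4
    exact ⟨h2, h3, w, hw, x, ⟨hx, h6⟩, h5⟩
  · rintro ⟨h2, h3, w, hw, x, ⟨hx, h6⟩, h5⟩
    exact ⟨h2, h3, fun h => h w hw x hx h5 h6⟩

end Pool.Agent.U536.CF
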