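import Pool.Agent.N407.BZ.Near
import Pool.Agent.U536.CF.F

set_option autoImplicit false

/-!
# Barnes zeta functions for almost all weights: ordinates near integers with a large common factor with a value of a
multiplicative function (helper536, tool of helper407)
-/

namespace Pool.Agent.U536.CF

open Filter MeasureTheory
open Pool.Agent.H131R5.BZ Pool.Agent.Y930.Bz Pool.Agent.Y616.BM
open Pool.Agent.N733.TG (LM Expanding)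
open Pool.Agent.N407.BZ (BadAt ff_count half_count half_exp floor_win bad_floor)

lemma exists_s' {δ η κ ρ : ℝ} (hδ : 1 ≤ δ) (hκ1 : κ < ρ) (h : δ * (1 - 2 * η) + κ < ρ) :
    ∃ s : ℝ, 0 < s ∧ 1 - 2 * η < s ∧ δ * s + κ < ρ := by
  obtain ⟨M, hM⟩ : ∃ M : ℝ, M = max (1 - 2 * η) 0 := ⟨_, rfl⟩
  have hM0 : 0 ≤ M := by rw [hM]; exact le_max_right _ _
  have hM1 : 1 - 2 * η ≤ M := by rw [hM]; exact le_max_left _ _
  have hM2 : δ * M + κ < ρ := by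
    rcases max_choice (1 - 2 * η) (0 : ℝ) with h1 | h1
    · rw [hM, h1]
      exact h
    · rw [hM, h1]
      linarith
  have hδ0 : 0 < δ := by linarith
  have hp : 0 < (ρ - δ * M - κ) / (2 * δ) := div_pos (by linarith) (by linarith)
  refine ⟨M + (ρ - δ * M - κ) / (2 * δ), by linarith, by linarith, ?_⟩
  have e : δ * (M + (ρ - δ * M - κ) / (2 * δ)) = δ * M + (ρ - δ * M - κ) / 2 := by
    field_simp
  rw [e]
  linarith

/-- near the integers with a large common factor with a value of a multiplicative function -/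
theorem ff_common {d : ℕ} {v : Fin d → ℝ} (hv : LinearIndependent ℚ v) (hGd : Good v) {r : ℕ} (hr : 2 ≤ r)
    {a : ℝ} (ha : 0 < a) {w : Fin r → ℝ} (hw : ∀ i, 0 < w i)
    (hspan : Submodule.span ℚ (Set.range w) = Submodule.span ℚ (Set.range v)) {c : ℕ → ℂ} (hc : Tay a w c)
    {f : ℕ → ℕ} (hf : LM f) {G : ℕ → ℝ} {δ : ℝ} (hG : Expanding G δ) (σ₁ : ℝ) {η κ ρ b c' : ℝ} (hη : 0 ≤ η) (hκ : 0 ≤ κ)
    (hκ1 : κ < ρ) (h : δ * (1 - 2 * η) + κ < ρ) (hρ : ρ ≤ 1) (hb : b < 1) (hc0 : 0 ≤ c') (hcb : c' < 2 * b - 1) :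
    ∃ N₀ : ℕ, ∀ N : ℕ, N₀ ≤ N →
      ({m : ℕ | 1 ≤ m ∧ m ≤ N ∧ ∃ u : ℕ, Common f b ρ N m u ∧ ∃ t σ : ℝ, 2 ≤ t ∧ |t - G u| ≤ (u : ℝ) ^ κ ∧
        (r : ℝ) - d / 2 ≤ σ ∧ σ ≤ σ₁ ∧
        t ^ η < ‖FF a w c ((σ : ℂ) + t * Complex.I)‖}.ncard : ℝ) ≤ N * Real.exp (-(Real.log N ^ c')) := by
  obtain ⟨s, hs, hs1, hs2⟩ := exists_s' hG.one_le hκ1 h
  obtain ⟨K, hK, h1⟩ := ff_count hv hGd hr ha hw hspan hc σ₁ hη hs hs1
  obtain ⟨N₀, hN₀⟩ := common_windows_unif (T := ℕ) (fun n : ℕ => (n : ℝ) / 2) hf (half_exp hG) hs.le hκ hs2 hρ hb hc0 hcb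
    (K * 2 ^ s)
  refine ⟨N₀, fun N hN => ?_⟩
  have h2 := hN₀ {n : ℕ | 1 ≤ n ∧ BadAt a w c ((r : ℝ) - d / 2) σ₁ η n} (fun X hX => half_count _ hK hs h1 X hX) N hN
  refine le_trans ?_ h2
  have hfin : {m : ℕ | 1 ≤ m ∧ m ≤ N ∧ ∃ u : ℕ, Common f b ρ N m u ∧
      ∃ t ∈ {n : ℕ | 1 ≤ n ∧ BadAt a w c ((r : ℝ) - d / 2) σ₁ η n},
      |(t : ℝ) / 2 - G u / 2| ≤ (u : ℝ) ^ κ}.Finite := (Set.finite_Iic N).subset (fun m hm => hm.2.1)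
  refine Nat.cast_le.2 (Set.ncard_le_ncard ?_ hfin)
  rintro m ⟨g1, g2, u, gu, t, σ, g3, g4, g5, g6, g7⟩
  have hfm : (1 : ℝ) ≤ u := by exact_mod_cast gu.one_le
  exact ⟨g1, g2, u, gu, ⌊t⌋₊, bad_floor g3 g5 g6 g7, floor_win (by linarith) hfm hκ g4⟩

end Pool.Agent.U536.CF
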