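import Mathlib
import Pool.Agent.U536.CF.E

set_option autoImplicit false

/-! The number of `m ≤ N` such that `f m` is a multiple of `w`, but for few exceptional `m`, uniformly in `w` (helper536). -/

namespace Pool.Agent.U536.CF

open Finset Classical
open Pool.Agent.N733.TG (LM Rough sp sp_pos few_large' omega_le)

/-- the integers `m` with a small part `k`, `f m` a multiple of `w` -/
theorem point {f : ℕ → ℕ} (hf : LM f) {P M : ℕ} (hM : 1 ≤ M) (hP : ∀ p : ℕ, P ≤ p → p.Prime → f p ≤ M * p ∧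
    ∀ q : ℕ, P ≤ q → q.Prime → f q = f p → q = p) {N z J K G₀ : ℕ} (hz : P ≤ z) (hN : 1 ≤ N)
    (hNz : N < (z + 1) ^ (J + 1)) (hG : ∀ k : ℕ, 1 ≤ k → k ≤ K → f k ≤ G₀) {w : ℕ} (hw : 1 ≤ w) :
    (((Icc 1 N).filter (fun m => (∃ k u : ℕ, m = k * u ∧ Nat.Coprime k u ∧ Squarefree u ∧ Rough z u ∧ 1 ≤ k ∧ 1 ≤ u ∧
      k ≤ K) ∧ w ∣ f m)).card : ℝ) ≤
      N * (1 + Real.log K) * ((J + 1) * (M * (1 + Real.log (M * N : ℕ))) ^ J) * (G₀ * ((T (J + 1) w : ℝ) / w)) := by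
  have hMN : (1 : ℝ) ≤ (M * N : ℕ) := by exact_mod_cast Nat.mul_pos hM hN
  have hl : 0 ≤ Real.log (M * N : ℕ) := Real.log_nonneg hMN
  obtain ⟨H, hH⟩ : ∃ H : ℝ, H = M * (1 + Real.log (M * N : ℕ)) := ⟨_, rfl⟩
  have hH0 : 0 ≤ H := by rw [hH]; positivity
  have hw0 : (0 : ℝ) < w := by exact_mod_cast hw
  rw [← hH]
  obtain ⟨UU, hUU⟩ : ∃ UU : ℕ → ℕ → Finset ℕ, UU = fun (k v : ℕ) => (Icc 1 N).filter (fun u : ℕ => (u : ℝ) ≤ (N : ℝ) / k ∧
    Squarefree u ∧ Rough z u ∧ u.primeFactors.card ≤ J ∧ v ∣ f u) := ⟨_, rfl⟩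
  obtain ⟨F, hF⟩ : ∃ F : Finset ℕ, F = w.divisors.filter (fun v : ℕ => w ≤ G₀ * v) := ⟨_, rfl⟩
  have hsub : (Icc 1 N).filter (fun m => (∃ k u : ℕ, m = k * u ∧ Nat.Coprime k u ∧ Squarefree u ∧ Rough z u ∧ 1 ≤ k ∧
      1 ≤ u ∧ k ≤ K) ∧ w ∣ f m) ⊆
      (Icc 1 K).biUnion (fun k => F.biUnion (fun v => (UU k v).image (fun u => k * u))) := by
    intro m hm
    rw [mem_filter, mem_Icc] at hm
    obtain ⟨⟨hm1, hmN⟩, ⟨k, u, hku, hcop, hsq, hr, hk1, hu1, hkK⟩, hvf⟩ := hm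
    have hfm : f m = f k * f u := by rw [hku]; exact hf.mul _ _ hcop
    rw [hfm] at hvf
    have hfk : 1 ≤ f k := hf.pos k hk1
    obtain ⟨g, hg⟩ : ∃ g, g = Nat.gcd w (f k) := ⟨_, rfl⟩
    have hg1 : 1 ≤ g := by rw [hg]; exact Nat.gcd_pos_of_pos_left _ hw
    have hgf : g ≤ f k := by rw [hg]; exact Nat.gcd_le_right _ hfk
    have hgG : g ≤ G₀ := hgf.trans (hG k hk1 hkK)
    obtain ⟨v', hv'⟩ : g ∣ w := by rw [hg]; exact Nat.gcd_dvd_left _ _
    have hvdiv : w / g = v' := by rw [hv']; exact Nat.mul_div_cancel_left _ hg1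
    have huN : u ≤ N := by
      have : u ≤ k * u := Nat.le_mul_of_pos_left _ hk1
      omega
    have hω := omega_le hNz hr hu1 huN
    have hv'u : v' ∣ f u := by
      have h6 : Nat.Coprime (w / Nat.gcd w (f k)) (f k / Nat.gcd w (f k)) :=
        Nat.coprime_div_gcd_div_gcd (by rw [← hg]; exact hg1)
      rw [← hg, hvdiv] at h6
      apply h6.dvd_of_dvd_mul_left
      apply Nat.dvd_of_mul_dvd_mul_left hg1
      rw [← mul_assoc, Nat.mul_div_cancel' (by rw [hg]; exact Nat.gcd_dvd_right _ _), ← hv']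
      exact hvf
    rw [mem_biUnion]
    refine ⟨k, mem_Icc.2 ⟨hk1, hkK⟩, ?_⟩
    rw [mem_biUnion]
    refine ⟨v', ?_, ?_⟩
    · rw [hF, mem_filter, Nat.mem_divisors]
      refine ⟨⟨⟨g, by rw [mul_comm]; exact hv'⟩, by omega⟩, ?_⟩
      calc w = g * v' := hv'
        _ ≤ G₀ * v' := Nat.mul_le_mul_right _ hgG
    · rw [mem_image]
      refine ⟨u, ?_, hku.symm⟩
      rw [hUU, mem_filter, mem_Icc]
      refine ⟨⟨hu1, huN⟩, ?_, hsq, hr, hω, hv'u⟩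
      have hk0 : (0 : ℝ) < k := by exact_mod_cast hk1
      rw [le_div_iff₀ hk0]
      have : u * k ≤ N := by rw [mul_comm, ← hku]; exact hmN
      exact_mod_cast this
  have h1 : (((Icc 1 N).filter (fun m => (∃ k u : ℕ, m = k * u ∧ Nat.Coprime k u ∧ Squarefree u ∧ Rough z u ∧ 1 ≤ k ∧
      1 ≤ u ∧ k ≤ K) ∧ w ∣ f m)).card : ℝ) ≤
      ∑ k ∈ Icc 1 K, ∑ v ∈ F, ((UU k v).card : ℝ) := by
    have h2 := (card_le_card hsub).trans (card_biUnion_le.trans (sum_le_sum (fun k _ =>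
      card_biUnion_le.trans (sum_le_sum (fun v _ => card_image_le)))))
    exact_mod_cast h2
  refine h1.trans ?_
  have hN0 : (0 : ℝ) ≤ N := Nat.cast_nonneg _
  have h3 : ∀ k ∈ Icc 1 K, ∑ v ∈ F, ((UU k v).card : ℝ) ≤
      (1 : ℝ) / k * (N * ((J + 1) * H ^ J) * (G₀ * ((T (J + 1) w : ℝ) / w))) := by
    intro k hk
    rw [mem_Icc] at hk
    have hk1 : (1 : ℝ) ≤ k := by exact_mod_cast hk.1
    have h5 : ∀ v ∈ F, ((UU k v).card : ℝ) ≤ (N : ℝ) / k * ((J + 1) * H ^ J) * (G₀ / w) * (T J v : ℝ) := by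
      intro v hv
      rw [hF, mem_filter, Nat.mem_divisors] at hv
      have hv1 : 1 ≤ v := Nat.pos_of_dvd_of_pos hv.1.1 hw
      have hv0 : (0 : ℝ) < v := by exact_mod_cast hv1
      have h6 := coreJ hf hM hP hz hN J (t := (N : ℝ) / k) (v := v) (by positivity) (div_le_self hN0 hk1) hv1
      rw [← hH] at h6
      rw [hUU]
      refine h6.trans ?_
      have h7 : (1 : ℝ) / v ≤ G₀ / w := by
        rw [div_le_div_iff₀ hv0 hw0, one_mul]
        exact_mod_cast hv.2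
      calc ((J : ℝ) + 1) * ((N : ℝ) / k / v * H ^ J * T J v) = (N : ℝ) / k * ((J + 1) * H ^ J) * (1 / v) * T J v := by
            ring
        _ ≤ (N : ℝ) / k * ((J + 1) * H ^ J) * (G₀ / w) * (T J v : ℝ) := by
            apply mul_le_mul_of_nonneg_right _ (Nat.cast_nonneg _)
            apply mul_le_mul_of_nonneg_left h7 (by positivity)
    refine (sum_le_sum h5).trans ?_
    rw [← mul_sum]
    have h8 : ∑ v ∈ F, (T J v : ℝ) ≤ T (J + 1) w := by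
      rw [T_succ, hF]
      push_cast
      apply sum_le_sum_of_subset_of_nonneg (filter_subset _ _)
      intro v _ _
      exact Nat.cast_nonneg _
    refine (mul_le_mul_of_nonneg_left h8 (by positivity)).trans (le_of_eq ?_)
    ring
  refine (sum_le_sum h3).trans ?_
  rw [← sum_mul]
  have h7 : ∑ k ∈ Icc 1 K, (1 : ℝ) / k ≤ 1 + Real.log K := by
    have := recip_multiples (Icc 1 K) (fun k => k) (fun _ _ _ _ h => h) (d := 1) (Y := K) le_rfl (fun k hk => by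
      rw [mem_Icc] at hk
      exact ⟨hk.1, hk.2, one_dvd _⟩)
    simpa using this
  have h8 : 0 ≤ (N * ((J + 1) * H ^ J) * (G₀ * ((T (J + 1) w : ℝ) / w)) : ℝ) := by positivity
  refine (mul_le_mul_of_nonneg_right h7 h8).trans (le_of_eq ?_)
  ring

/-- the factors, numbers -/
lemma num_point {lK HJ G A S L l M lMN : ℝ} {J : ℕ} (hlK : lK ≤ 4 * A)
    (h4A : 4 * A ≤ S) (hJ : (J : ℝ) ≤ A) (hAS : A ≤ S) (hM : 1 ≤ M) (hlMN0 : 0 ≤ lMN) (hlMN : lMN ≤ M + L)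
    (hL : 100 ≤ L) (hML : 3 * M ≤ L) (hexpl : Real.exp l = L) (hl : 0 ≤ l) (hAl : 2 * (A * l) ≤ S)
    (hHJ : HJ = (M * (1 + lMN)) ^ J) (hG0 : 0 ≤ G) (hG : G ≤ Real.exp S) :
    (1 + lK) * (((J : ℝ) + 1) * HJ) * G ≤ Real.exp (4 * S) := by
  have hHJ0 : 0 ≤ HJ := by rw [hHJ]; positivity
  have g1 : 1 + lK ≤ Real.exp S := by
    have e2 := Real.add_one_le_exp (4 * A)
    have e3 : Real.exp (4 * A) ≤ Real.exp S := Real.exp_le_exp.2 h4A
    linarith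
  have g2 : (J : ℝ) + 1 ≤ Real.exp S := by
    have e2 := Real.add_one_le_exp A
    have e3 : Real.exp A ≤ Real.exp S := Real.exp_le_exp.2 hAS
    linarith
  have g3 : HJ ≤ Real.exp S := by
    have e1 : M * (1 + lMN) ≤ Real.exp (2 * l) := by
      have g5 : Real.exp (2 * l) = L * L := by
        rw [show 2 * l = l + l by ring, Real.exp_add, hexpl]
      rw [g5]
      have g7 : 1 + lMN ≤ 3 * L := by linarith
      calc M * (1 + lMN) ≤ M * (3 * L) := mul_le_mul_of_nonneg_left g7 (by linarith)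
        _ = (3 * M) * L := by ring
        _ ≤ L * L := mul_le_mul_of_nonneg_right hML (by linarith)
    rw [hHJ]
    calc (M * (1 + lMN)) ^ J ≤ (Real.exp (2 * l)) ^ J :=
          pow_le_pow_left₀ (by positivity) e1 _
      _ = Real.exp ((J : ℝ) * (2 * l)) := by rw [← Real.exp_nat_mul]
      _ ≤ Real.exp S := by
          apply Real.exp_le_exp.2
          have e2 : (J : ℝ) * (2 * l) ≤ A * (2 * l) := mul_le_mul_of_nonneg_right hJ (by linarith)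
          linarith
  calc (1 + lK) * ((J + 1) * HJ) * G
      ≤ Real.exp S * (Real.exp S * Real.exp S) * Real.exp S := by
        apply mul_le_mul _ hG hG0 (by positivity)
        apply mul_le_mul g1 _ (by positivity) (by positivity)
        exact mul_le_mul g2 g3 hHJ0 (Real.exp_pos _).le
    _ = Real.exp (4 * S) := by
        simp only [← Real.exp_add]
        congr 1
        ring

/-- **The pointwise bound.** But for `N exp (-(log N)^c)` exceptional `m ≤ N`, the number of `m ≤ N` with `g ∣ f m` is at most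
`N τ_J(g) / g` up to a factor `exp ((log N)^s)`, for all `g ≥ 1`; `J = (log N)^a` up to a constant, `(1 + c)/2 < a < 1`,
`a < s`. -/
theorem pw {f : ℕ → ℕ} (hf : LM f) {a s c : ℝ} (h_as : a < s) (h_a1 : a < 1) (hc0 : 0 ≤ c) (h_c : c < 2 * a - 1) :
    ∃ N₀ : ℕ, ∀ N : ℕ, N₀ ≤ N → ∃ E : Finset ℕ, (E.card : ℝ) ≤ N * Real.exp (-(Real.log N ^ c)) ∧
      ∀ g : ℕ, 1 ≤ g → (((Icc 1 N).filter (fun m => m ∉ E ∧ g ∣ f m)).card : ℝ) ≤
        N * (Real.exp (Real.log N ^ s) * ((T (⌊Real.log N ^ a⌋₊ + 1) g : ℝ) / g)) := by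
  obtain ⟨P, M₀, hPM⟩ := hf.prime
  obtain ⟨C, D, hCD⟩ := hf.growth
  obtain ⟨CR, hCR0, hCR⟩ := few_large'
  obtain ⟨M, hM⟩ : ∃ M : ℕ, M = M₀ + 1 := ⟨_, rfl⟩
  have hM1 : 1 ≤ M := by rw [hM]; exact Nat.succ_pos _
  have hMr : (1 : ℝ) ≤ M := by exact_mod_cast hM1
  have hPM' : ∀ p : ℕ, P ≤ p → p.Prime → f p ≤ M * p ∧
      ∀ q : ℕ, P ≤ q → q.Prime → f q = f p → q = p := by
    intro p h1 h2
    refine ⟨((hPM p h1 h2).1).trans (Nat.mul_le_mul_right _ ?_), (hPM p h1 h2).2⟩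
    rw [hM]
    exact Nat.le_succ _
  have ha0 : 0 < a := by linarith
  obtain ⟨s', hs'⟩ : ∃ s' : ℝ, s' = (a + s) / 2 := ⟨_, rfl⟩
  have h_as' : a < s' := by rw [hs']; linarith
  have h_s's : s' < s := by rw [hs']; linarith
  have h_ca : c < a := by linarith
  obtain ⟨K₁, hK₁⟩ : ∃ K₁ : ℝ, K₁ = 3 * (CR * Real.exp (4 * Real.exp 1 * (1 + CR))) := ⟨_, rfl⟩
  have hK₁0 : 0 < K₁ := by rw [hK₁]; positivity
  obtain ⟨R, r0, r1, r2, r4, r5⟩ : ∃ R : ℝ, 100 ≤ R ∧ 3 * (M : ℝ) ≤ R ∧ (((C + 1 : ℕ) : ℝ)) + 4 * D ≤ R ∧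
      K₁ + 2 ≤ R ∧ 2 * (P : ℝ) ≤ R := by
    have p1 : (0 : ℝ) ≤ P := Nat.cast_nonneg _
    have p2 : (0 : ℝ) ≤ D := Nat.cast_nonneg _
    have p5 : (0 : ℝ) ≤ ((C + 1 : ℕ) : ℝ) := Nat.cast_nonneg _
    refine ⟨100 + 3 * M + ((C + 1 : ℕ) : ℝ) + 4 * D + K₁ + 2 * P, ?_, ?_, ?_, ?_, ?_⟩ <;> linarith
  obtain ⟨N₀, hN₀⟩ := evs (a := a) (aq := a) (s := s') (b := s) (c := c) R h_as' h_as' h_s's h_c h_a1 h_ca
  refine ⟨N₀, fun N hN => ?_⟩
  obtain ⟨hN3, k0, k1, k2, -, k4, k5, k6, k7⟩ := hN₀ N hN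
  clear hN₀
  have hN1 : 1 ≤ N := le_trans (by norm_num) hN3
  have hN0 : (0 : ℝ) < N := by exact_mod_cast hN1
  obtain ⟨L, hL⟩ : ∃ L, L = Real.log N := ⟨_, rfl⟩
  rw [← hL] at k0 k1 k2 k4 k5 k6 k7 ⊢
  obtain ⟨l, hl⟩ : ∃ l, l = Real.log L := ⟨_, rfl⟩
  rw [← hl] at k1 k2 k4 k5 k6 k7
  have hR0 : 0 ≤ R := le_trans (by norm_num) r0
  have hL100 : 100 ≤ L := r0.trans k0
  have hL0 : 0 < L := lt_of_lt_of_le (by norm_num) hL100
  have hL1 : 1 ≤ L := le_trans (by norm_num) hL100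
  have hl0 : 0 ≤ l := zero_le_one.trans k1
  have hexpl : Real.exp l = L := by rw [hl]; exact Real.exp_log hL0
  have hexpL : Real.exp L = N := by rw [hL]; exact Real.exp_log hN0
  obtain ⟨A, hA⟩ : ∃ A : ℝ, A = L ^ a := ⟨_, rfl⟩
  obtain ⟨S, hS⟩ : ∃ S : ℝ, S = L ^ s' := ⟨_, rfl⟩
  rw [← hA] at k2 k6 k7 ⊢
  rw [← hS] at k2 k4
  have hA1 : 1 ≤ A := by rw [hA]; exact Real.one_le_rpow hL1 ha0.le
  have hA0 : 0 ≤ A := zero_le_one.trans hA1
  have hS1 : 1 ≤ S := by rw [hS]; exact Real.one_le_rpow hL1 (ha0.le.trans h_as'.le)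
  have hS0 : 0 ≤ S := zero_le_one.trans hS1
  have hLc1 : 1 ≤ L ^ c := Real.one_le_rpow hL1 hc0
  have u2 : R * A ≤ S := mul_l hR0 hA0 k1 k2
  have u4 : R * S ≤ L ^ s := mul_l hR0 hS0 k1 k4
  have u6 : R * A ≤ L := mul_l hR0 hA0 k1 k6
  have u7 : R * L ^ c ≤ A := mul_l hR0 (zero_le_one.trans hLc1) k1 k7
  obtain ⟨J, z, w, hJ1, hJ2, hwJ, hw4, hwL, hz2, hzP, hz1, hzN, hlz0, hlz⟩ := scales hexpL hA1 r0 r5 u6
  obtain ⟨T₀, K, hT₀1, hT₀2, hK1, hKY, hcut⟩ := cutoffs hA1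
  have hG₀S : (((C + 1) * K ^ D : ℕ) : ℝ) ≤ Real.exp S := num_G hA1 hK1 hKY r2 u2
  obtain ⟨G₀, hG₀⟩ : ∃ G₀ : ℕ, G₀ = (C + 1) * K ^ D := ⟨_, rfl⟩
  rw [← hG₀] at hG₀S
  have hG₀0 : (0 : ℝ) ≤ G₀ := Nat.cast_nonneg _
  refine ⟨(Icc 1 N).filter (fun m => Real.exp A < (sp z m : ℝ)) ∪ (Icc 1 N).filter (fun m => ∃ D : ℕ, T₀ < D ∧ D ^ 2 ∣ m),
    ?_, fun g hg => ?_⟩
  · have q1 : (((Icc 1 N).filter (fun m => Real.exp A < (sp z m : ℝ))).card : ℝ) ≤ N * Real.exp (-(L ^ c)) / 3 := by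
      have hw0 : 0 < w := by linarith only [hw4]
      have hz0 : (0 : ℝ) ≤ z := Nat.cast_nonneg _
      have h1 := hCR (1 / w) z N (Real.exp A) (by positivity) (one_div_le_one_div_of_le (by norm_num) hw4) hz2
        (Real.exp_pos A)
      refine h1.trans ?_
      refine num_smooth hN0.le hCR0 hK₁ hw4 rfl rfl (by linarith only [hJ2, hA1]) hJ2 hwJ (by linarith only [hA1]) ?_ hL0
        hlz0 hlz hwL ?_ hexpl ?_ (Lt := L ^ (2 * a - 1))
      · rw [hA, ← Real.rpow_add hL0]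
        nth_rewrite 2 [← Real.rpow_one L]
        rw [← Real.rpow_add hL0]
        congr 1
        ring
      · calc (z : ℝ) ^ (1 / w) ≤ (Real.exp w) ^ (1 / w) := Real.rpow_le_rpow hz0 hz1 (by positivity)
          _ = Real.exp 1 := by
            rw [← Real.exp_mul, mul_one_div_cancel hw0.ne']
      · refine le_trans ?_ k5
        have e2 : K₁ * 1 ≤ K₁ * (L ^ c * l) := by
          apply mul_le_mul_of_nonneg_left _ hK₁0.le
          exact one_le_mul_of_one_le_of_one_le hLc1 k1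
        have e3 : 1 * l ≤ L ^ c * l := mul_le_mul_of_nonneg_right hLc1 hl0
        have e4 : L ^ c * 1 ≤ L ^ c * l := mul_le_mul_of_nonneg_left k1 (by linarith only [hLc1])
        have e5 : 0 ≤ L ^ c * l := by positivity
        have e6 : (K₁ + 2) * (L ^ c * l) ≤ R * (L ^ c * l) := mul_le_mul_of_nonneg_right r4 e5
        linarith only [e2, e3, e4, e6]
    have q2 : (((Icc 1 N).filter (fun m => ∃ D : ℕ, T₀ < D ∧ D ^ 2 ∣ m)).card : ℝ) ≤ N * Real.exp (-(L ^ c)) / 3 := by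
      refine (few_sq N T₀ hT₀1).trans ?_
      refine num_squares hN0.le (by exact_mod_cast hT₀1) rfl hT₀2 ?_
      have e1 : 100 * L ^ c ≤ A := mul_R (by linarith only [hLc1]) r0 u7
      linarith only [e1, hLc1]
    have q3 : (((Icc 1 N).filter (fun m => Real.exp A < (sp z m : ℝ)) ∪
        (Icc 1 N).filter (fun m => ∃ D : ℕ, T₀ < D ∧ D ^ 2 ∣ m)).card : ℝ) ≤
        ((Icc 1 N).filter (fun m => Real.exp A < (sp z m : ℝ))).card +
        ((Icc 1 N).filter (fun m => ∃ D : ℕ, T₀ < D ∧ D ^ 2 ∣ m)).card := by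
      exact_mod_cast card_union_le _ _
    have q4 : 0 ≤ N * Real.exp (-(L ^ c)) := by positivity
    linarith only [q1, q2, q3, q4]
  · have h1 := point hf hM1 hPM' hzP hN1 (K := K) (G₀ := G₀) hzN
      (fun k hk1 hkK => by
        rw [hG₀]
        exact (hCD k hk1).trans (Nat.mul_le_mul (Nat.le_succ _) (Nat.pow_le_pow_left hkK D))) hg
    have hsub : (Icc 1 N).filter (fun m => m ∉ ((Icc 1 N).filter (fun m => Real.exp A < (sp z m : ℝ)) ∪
        (Icc 1 N).filter (fun m => ∃ D : ℕ, T₀ < D ∧ D ^ 2 ∣ m)) ∧ g ∣ f m) ⊆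
        (Icc 1 N).filter (fun m => (∃ k u : ℕ, m = k * u ∧ Nat.Coprime k u ∧ Squarefree u ∧ Rough z u ∧ 1 ≤ k ∧ 1 ≤ u ∧
        k ≤ K) ∧ g ∣ f m) := by
      intro m hm
      rw [mem_filter] at hm
      obtain ⟨hm1, hm2, hgf⟩ := hm
      have hm1' := mem_Icc.1 hm1
      rw [mem_union, mem_filter, mem_filter] at hm2
      push Not at hm2
      obtain ⟨h1, h2⟩ := hm2
      obtain ⟨k, u, hku, hcop, hsq, hr, hk1, hu1, hk⟩ := decomp hm1'.1 (h1 hm1) (h2 hm1)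
      rw [mem_filter]
      exact ⟨hm1, ⟨k, u, hku, hcop, hsq, hr, hk1, hu1, hcut k hk⟩, hgf⟩
    have h2 : (((Icc 1 N).filter (fun m => m ∉ ((Icc 1 N).filter (fun m => Real.exp A < (sp z m : ℝ)) ∪
        (Icc 1 N).filter (fun m => ∃ D : ℕ, T₀ < D ∧ D ^ 2 ∣ m)) ∧ g ∣ f m)).card : ℝ) ≤
        (((Icc 1 N).filter (fun m => (∃ k u : ℕ, m = k * u ∧ Nat.Coprime k u ∧ Squarefree u ∧ Rough z u ∧ 1 ≤ k ∧ 1 ≤ u ∧
        k ≤ K) ∧ g ∣ f m)).card : ℝ) := by exact_mod_cast card_le_card hsub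
    refine (h2.trans h1).trans ?_
    have hKr : (1 : ℝ) ≤ K := by exact_mod_cast hK1
    have hlK : Real.log K ≤ 4 * A := by
      have := Real.log_le_log (by linarith only [hKr]) hKY
      rwa [Real.log_exp] at this
    have hlMN : Real.log (M * N : ℕ) ≤ M + L := by
      push_cast
      rw [Real.log_mul (by linarith only [hMr]) hN0.ne', ← hL]
      have := log_le_self' (x := (M : ℝ)) (by linarith only [hMr])
      linarith only [this]
    have hlMN0 : 0 ≤ Real.log (M * N : ℕ) := Real.log_nonneg (by exact_mod_cast Nat.mul_pos hM1 hN1)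
    have h3 := num_point hlK (mul_R hA0 (by linarith only [r0]) u2) hJ1
      (le_trans (le_of_eq (one_mul A).symm) (mul_R hA0 (by linarith only [r0]) u2)) hMr hlMN0 hlMN hL100 (r1.trans k0) hexpl
      hl0 (mul_R (by positivity) (by linarith only [r0]) k2) rfl hG₀0 hG₀S
    have h4 : Real.exp (4 * S) ≤ Real.exp (L ^ s) := Real.exp_le_exp.2 (mul_R hS0 (by linarith only [r0]) u4)
    have hg0 : (0 : ℝ) < g := by exact_mod_cast hg
    have h5 : (T (J + 1) g : ℝ) / g ≤ (T (⌊A⌋₊ + 1) g : ℝ) / g := by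
      apply div_le_div_of_nonneg_right _ hg0.le
      have : J ≤ ⌊A⌋₊ := Nat.le_floor hJ1
      exact_mod_cast T_mono' (Nat.add_le_add_right this 1) g hg
    have h6 : (0 : ℝ) ≤ (T (J + 1) g : ℝ) / g := by positivity
    calc (N : ℝ) * (1 + Real.log K) * ((J + 1) * (M * (1 + Real.log (M * N : ℕ))) ^ J) * (G₀ * ((T (J + 1) g : ℝ) / g)) =
          N * (((1 + Real.log K) * ((J + 1) * (M * (1 + Real.log (M * N : ℕ))) ^ J) * G₀) * ((T (J + 1) g : ℝ) / g)) := by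
          ring
      _ ≤ N * (Real.exp (L ^ s) * ((T (⌊A⌋₊ + 1) g : ℝ) / g)) := by
          apply mul_le_mul_of_nonneg_left _ hN0.le
          exact mul_le_mul (h3.trans h4) h5 h6 (Real.exp_pos _).le

end Pool.Agent.U536.CF
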