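import Mathlib
import Pool.Agent.U536.CF.P

set_option autoImplicit false

/-! Tuples: the number of the tuples of divisors, and Hölder's inequality (helper536). -/

namespace Pool.Agent.U536.CF

open Finset Classical

/-- the tuples of divisors of the members of a sparse set of tuples -/
lemma wcount {k : ℕ} {e ε C₀ Cd : ℝ} (hCd0 : 0 < Cd) (hε : 0 ≤ ε) {W : Set (Fin k → ℕ)}
    (hCd : ∀ n : ℕ, 1 ≤ n → (n.divisors.card : ℝ) ≤ Cd * (n : ℝ) ^ ε) {X : ℕ} (hX : 1 ≤ X)
    (hW : ({w : Fin k → ℕ | (∀ i, 2 ≤ w i ∧ w i ≤ X) ∧ w ∈ W}.ncard : ℝ) ≤ C₀ * (X : ℝ) ^ e) :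
    (((Fintype.piFinset (fun _ : Fin k => Icc 1 X)).filter (fun g => ∃ w ∈ W, ∀ i, (2 ≤ w i ∧ w i ≤ X) ∧ g i ∣ w i)).card : ℝ) ≤
      C₀ * Cd ^ k * (X : ℝ) ^ (e + k * ε) := by
  have hX0 : (0 : ℝ) < X := by exact_mod_cast hX
  obtain ⟨WX, hWX⟩ : ∃ WX : Finset (Fin k → ℕ), WX = (Fintype.piFinset (fun _ : Fin k => Icc 2 X)).filter (fun w => w ∈ W) :=
    ⟨_, rfl⟩
  have hWXc : (WX.card : ℝ) ≤ C₀ * (X : ℝ) ^ e := by
    refine le_trans (le_of_eq ?_) hW
    rw [← Set.ncard_coe_finset]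
    congr 2
    ext w
    simp only [hWX, coe_filter, Fintype.mem_piFinset, mem_Icc, Set.mem_ofPred_eq]
  have hsub : (Fintype.piFinset (fun _ : Fin k => Icc 1 X)).filter (fun g => ∃ w ∈ W, ∀ i, (2 ≤ w i ∧ w i ≤ X) ∧ g i ∣ w i) ⊆
      WX.biUnion (fun w => Fintype.piFinset (fun i => (w i).divisors)) := by
    intro g hg
    rw [mem_filter] at hg
    obtain ⟨-, w, hw, hi⟩ := hg
    rw [mem_biUnion]
    refine ⟨w, ?_, ?_⟩
    · rw [hWX, mem_filter, Fintype.mem_piFinset]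
      exact ⟨fun i => mem_Icc.2 (hi i).1, hw⟩
    · rw [Fintype.mem_piFinset]
      intro i
      rw [Nat.mem_divisors]
      exact ⟨(hi i).2, by have := (hi i).1.1; omega⟩
  have h1 : (((Fintype.piFinset (fun _ : Fin k => Icc 1 X)).filter
      (fun g => ∃ w ∈ W, ∀ i, (2 ≤ w i ∧ w i ≤ X) ∧ g i ∣ w i)).card : ℝ) ≤
      ∑ w ∈ WX, ∏ i, ((w i).divisors.card : ℝ) := by
    have h2 := (card_le_card hsub).trans card_biUnion_le
    simp only [Fintype.card_piFinset] at h2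
    exact_mod_cast h2
  have h2 : ∀ w ∈ WX, ∏ i, ((w i).divisors.card : ℝ) ≤ Cd ^ k * (X : ℝ) ^ (k * ε) := by
    intro w hw
    rw [hWX, mem_filter, Fintype.mem_piFinset] at hw
    calc ∏ i, ((w i).divisors.card : ℝ) ≤ ∏ _i : Fin k, (Cd * (X : ℝ) ^ ε) := by
          apply prod_le_prod
          · intro i _
            exact Nat.cast_nonneg _
          · intro i _
            have h3 := mem_Icc.1 (hw.1 i)
            refine (hCd (w i) (by omega)).trans (mul_le_mul_of_nonneg_left ?_ hCd0.le)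
            exact Real.rpow_le_rpow (Nat.cast_nonneg _) (by exact_mod_cast h3.2) hε
      _ = Cd ^ k * (X : ℝ) ^ (k * ε) := by
          rw [prod_const, card_univ, Fintype.card_fin, mul_pow, ← Real.rpow_natCast ((X : ℝ) ^ ε), ← Real.rpow_mul hX0.le,
            mul_comm ε]
  refine (h1.trans (sum_le_sum h2)).trans ?_
  rw [sum_const, nsmul_eq_mul, Real.rpow_add hX0]
  calc (WX.card : ℝ) * (Cd ^ k * (X : ℝ) ^ (k * ε)) ≤ (C₀ * (X : ℝ) ^ e) * (Cd ^ k * (X : ℝ) ^ (k * ε)) :=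
        mul_le_mul_of_nonneg_right hWXc (by positivity)
    _ = _ := by ring

/-- Hölder's inequality for tuples -/
lemma holderT {k : ℕ} (S : Finset (Fin k → ℕ)) {X : ℕ} (hX : 1 ≤ X) (hS : ∀ g ∈ S, ∀ i, 1 ≤ g i ∧ g i ≤ X) {q : ℝ}
    (hq : 1 < q) {J K : ℕ} (hJK : ((J : ℝ) + 1) ^ q ≤ (K : ℝ) + 1) {B : ℝ} (hB : ∑ g ∈ S, ∏ i, (1 : ℝ) / g i ≤ B) :
    ∑ g ∈ S, ∏ i, ((T (J + 1) (g i) : ℝ) / g i) ≤
      B ^ (1 - 1 / q) * (((1 + Real.log X) ^ (K + 1)) ^ k) ^ (1 / q) := by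
  have hq0 : 0 < q := by linarith
  have hpq : q.conjExponent.HolderConjugate q := (Real.HolderConjugate.conjExponent hq).symm
  obtain ⟨p, hp⟩ : ∃ p, p = q.conjExponent := ⟨_, rfl⟩
  rw [← hp] at hpq
  have hp0 : 0 < p := hpq.pos
  have hp1 : 1 / p = 1 - 1 / q := by
    have := hpq.inv_add_inv_eq_one
    rw [one_div, one_div]
    linarith
  have h1 := Real.inner_le_Lp_mul_Lq_of_nonneg S hpq (f := fun g : Fin k → ℕ => (∏ i, (1 : ℝ) / g i) ^ (1 / p))
    (g := fun g : Fin k → ℕ => (∏ i, (T (J + 1) (g i) : ℝ)) * (∏ i, (1 : ℝ) / g i) ^ (1 / q)) (fun v _ => by positivity)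
    (fun v _ => by positivity)
  have e1 : ∑ g ∈ S, (∏ i, (1 : ℝ) / g i) ^ (1 / p) * ((∏ i, (T (J + 1) (g i) : ℝ)) * (∏ i, (1 : ℝ) / g i) ^ (1 / q)) =
      ∑ g ∈ S, ∏ i, ((T (J + 1) (g i) : ℝ) / g i) := by
    apply sum_congr rfl
    intro g hg
    have hv0 : 0 < ∏ i, (1 : ℝ) / g i := by
      apply prod_pos
      intro i _
      have : (0 : ℝ) < g i := by exact_mod_cast (hS g hg i).1
      positivity
    have : (∏ i, (1 : ℝ) / g i) ^ (1 / p) * (∏ i, (1 : ℝ) / g i) ^ (1 / q) = ∏ i, (1 : ℝ) / g i := by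
      rw [← Real.rpow_add hv0, hp1, sub_add_cancel, Real.rpow_one]
    calc (∏ i, (1 : ℝ) / g i) ^ (1 / p) * ((∏ i, (T (J + 1) (g i) : ℝ)) * (∏ i, (1 : ℝ) / g i) ^ (1 / q)) =
          (∏ i, (T (J + 1) (g i) : ℝ)) * ((∏ i, (1 : ℝ) / g i) ^ (1 / p) * (∏ i, (1 : ℝ) / g i) ^ (1 / q)) := by ring
      _ = _ := by
        rw [this, ← prod_mul_distrib]
        apply prod_congr rfl
        intro i _
        rw [mul_one_div]
  have e2 : ∑ g ∈ S, ((∏ i, (1 : ℝ) / g i) ^ (1 / p)) ^ p = ∑ g ∈ S, ∏ i, (1 : ℝ) / g i := by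
    apply sum_congr rfl
    intro v _
    rw [← Real.rpow_mul (by positivity), one_div_mul_cancel hp0.ne', Real.rpow_one]
  have e3 : ∑ g ∈ S, ((∏ i, (T (J + 1) (g i) : ℝ)) * (∏ i, (1 : ℝ) / g i) ^ (1 / q)) ^ q ≤
      ((1 + Real.log X) ^ (K + 1)) ^ k := by
    calc ∑ g ∈ S, ((∏ i, (T (J + 1) (g i) : ℝ)) * (∏ i, (1 : ℝ) / g i) ^ (1 / q)) ^ q ≤
          ∑ g ∈ S, ∏ i, ((T (K + 1) (g i) : ℝ) / g i) := by
          apply sum_le_sum
          intro g hg
          have hP0 : 0 ≤ ∏ i, (T (J + 1) (g i) : ℝ) := prod_nonneg (fun i _ => Nat.cast_nonneg _)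
          have hR0 : 0 ≤ ∏ i, (1 : ℝ) / g i := prod_nonneg (fun i _ => by positivity)
          rw [Real.mul_rpow hP0 (by positivity), ← Real.rpow_mul hR0,
            one_div_mul_cancel hq0.ne', Real.rpow_one, ← Real.finsetProd_rpow _ _ (fun i _ => Nat.cast_nonneg _),
            ← prod_mul_distrib]
          apply prod_le_prod
          · intro i _
            positivity
          · intro i _
            rw [mul_one_div]
            exact div_le_div_of_nonneg_right (T_rpow hq.le hJK (hS g hg i).1) (Nat.cast_nonneg _)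
      _ ≤ ∑ g ∈ Fintype.piFinset (fun _ : Fin k => Icc 1 X), ∏ i, ((T (K + 1) (g i) : ℝ) / g i) := by
          apply sum_le_sum_of_subset_of_nonneg
          · intro g hg
            rw [Fintype.mem_piFinset]
            exact fun i => mem_Icc.2 (hS g hg i)
          · intro v _ _
            exact prod_nonneg (fun i _ => by positivity)
      _ = ∏ _i : Fin k, ∑ v ∈ Icc 1 X, (T (K + 1) v : ℝ) / v :=
          (prod_univ_sum (fun _ : Fin k => Icc 1 X) (fun _ v => (T (K + 1) v : ℝ) / v)).symm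
      _ ≤ ∏ _i : Fin k, (1 + Real.log X) ^ (K + 1) := by
          apply prod_le_prod
          · intro i _
            exact sum_nonneg (fun v _ => by positivity)
          · intro i _
            exact T_sum (K + 1) X hX
      _ = _ := by rw [prod_const, card_univ, Fintype.card_fin]
  rw [e1, e2, hp1] at h1
  refine h1.trans ?_
  have hq1 : 0 ≤ 1 - 1 / q := by
    rw [← hp1]
    positivity
  have h2 : 0 ≤ ∑ g ∈ S, ∏ i, (1 : ℝ) / g i := sum_nonneg (fun v _ => prod_nonneg (fun i _ => by positivity))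
  have h3 : 0 ≤ ∑ g ∈ S, ((∏ i, (T (J + 1) (g i) : ℝ)) * (∏ i, (1 : ℝ) / g i) ^ (1 / q)) ^ q :=
    sum_nonneg (fun v _ => by positivity)
  exact mul_le_mul (Real.rpow_le_rpow h2 hB hq1) (Real.rpow_le_rpow h3 e3 (by positivity)) (by positivity)
    (Real.rpow_nonneg (h2.trans hB) _)

/-- tuples with an exceptional coordinate -/
lemma exc_count {k N : ℕ} {η : ℝ} (E : Fin k → Finset ℕ) (hE : ∀ i, ((E i).card : ℝ) ≤ N * η) :
    (((Fintype.piFinset (fun _ : Fin k => Icc 1 N)).filter (fun m => ∃ i, m i ∈ E i)).card : ℝ) ≤ k * ((N : ℝ) ^ k * η) := by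
  have hN0 : (0 : ℝ) ≤ N := Nat.cast_nonneg _
  have hsub : (Fintype.piFinset (fun _ : Fin k => Icc 1 N)).filter (fun m => ∃ i, m i ∈ E i) ⊆
      (univ : Finset (Fin k)).biUnion (fun i => Fintype.piFinset (fun j => if j = i then E i else Icc 1 N)) := by
    intro m hm
    rw [mem_filter, Fintype.mem_piFinset] at hm
    obtain ⟨h1, i, hi⟩ := hm
    rw [mem_biUnion]
    refine ⟨i, mem_univ _, ?_⟩
    rw [Fintype.mem_piFinset]
    intro j
    split_ifs with hj
    · rw [hj]; exact hi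
    · exact h1 j
  have h1 : (((Fintype.piFinset (fun _ : Fin k => Icc 1 N)).filter (fun m => ∃ i, m i ∈ E i)).card : ℝ) ≤
      ∑ i : Fin k, ((Fintype.piFinset (fun j => if j = i then E i else Icc 1 N)).card : ℝ) := by
    exact_mod_cast (card_le_card hsub).trans card_biUnion_le
  have h2 : ∀ i ∈ (univ : Finset (Fin k)), ((Fintype.piFinset (fun j => if j = i then E i else Icc 1 N)).card : ℝ) ≤
      (N : ℝ) ^ k * η := by
    intro i _
    rw [Fintype.card_piFinset]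
    push_cast
    calc ∏ j : Fin k, (((if j = i then E i else Icc 1 N : Finset ℕ).card : ℕ) : ℝ) ≤
          ∏ j : Fin k, ((N : ℝ) * (if j = i then η else 1)) := by
          apply prod_le_prod
          · intro j _
            exact Nat.cast_nonneg _
          · intro j _
            split_ifs with hj
            · exact hE i
            · rw [Nat.card_Icc, Nat.add_sub_cancel, mul_one]
      _ = (N : ℝ) ^ k * η := by
          rw [prod_mul_distrib, prod_const, card_univ, Fintype.card_fin, prod_ite_eq' univ i (fun _ => η), if_pos (mem_univ _)]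
  refine (h1.trans (sum_le_sum h2)).trans ?_
  rw [sum_const, card_univ, Fintype.card_fin, nsmul_eq_mul]

end Pool.Agent.U536.CF
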