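import Mathlib
import Pool.Agent.U536.CF.TA

set_option autoImplicit false

/-! Tuples with large common factors with the values of multiplicative functions avoid sets with a power saving
(helper536). -/

namespace Pool.Agent.U536.CF

open Finset Classical
open Pool.Agent.N733.TG (LM)

/-- all `w i ≥ exp ((log N)^b)`, and the greatest common divisor of `w i` and `F i (m i)` is at least `(w j)^ρ` for all
`i`, `j` -/
def CommonT {k : ℕ} (F : Fin k → ℕ → ℕ) (b ρ : ℝ) (N : ℕ) (m w : Fin k → ℕ) : Prop :=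
  ∀ i, Real.exp (Real.log N ^ b) ≤ (w i : ℝ) ∧ ∀ j, (w j : ℝ) ^ ρ ≤ (Nat.gcd (w i) (F i (m i)) : ℝ)

/-- large divisors of comparable size -/
theorem commonT_of_dvd {k : ℕ} {F : Fin k → ℕ → ℕ} {b ρ : ℝ} {N : ℕ} {m w : Fin k → ℕ}
    (hw : ∀ i, Real.exp (Real.log N ^ b) ≤ (w i : ℝ)) (hd : ∀ i, w i ∣ F i (m i)) (hc : ∀ i j, (w j : ℝ) ^ ρ ≤ (w i : ℝ)) :
    CommonT F b ρ N m w := by
  refine fun i => ⟨hw i, fun j => ?_⟩
  rw [Nat.gcd_eq_left (hd i)]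
  exact hc i j

/-- a suitable exponent -/
theorem exists_rho {k : ℕ} (hk : 1 ≤ k) {c₀ : ℝ} (hc : 0 < c₀) :
    ∃ ρ : ℝ, 0 < ρ ∧ ρ < 1 ∧ k * (1 - ρ) < c₀ := by
  have hk0 : (0 : ℝ) < k := by exact_mod_cast hk
  refine ⟨1 - min (1 / 2) (c₀ / (2 * k)), ?_, ?_, ?_⟩
  · have := min_le_left (1 / 2) (c₀ / (2 * k))
    linarith
  · have : 0 < min (1 / 2) (c₀ / (2 * k)) := lt_min (by norm_num) (by positivity)
    linarith
  · have h1 := min_le_right (1 / 2) (c₀ / (2 * k))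
    have h2 : k * (1 - (1 - min (1 / 2) (c₀ / (2 * k)))) ≤ k * (c₀ / (2 * k)) :=
      mul_le_mul_of_nonneg_left (by linarith) hk0.le
    have h3 : k * (c₀ / (2 * k)) = c₀ / 2 := by field_simp
    linarith

/-- the sum over one scale -/
lemma scale_sum {k : ℕ} {c₀ ρ ε δ C₀ Cd : ℝ} (hCd0 : 0 < Cd) (hε : 0 ≤ ε) (hρ1 : ρ ≤ 1) (hδ : δ = c₀ - k * (1 - ρ) - k * ε) {W : Set (Fin k → ℕ)}
    (hCd : ∀ n : ℕ, 1 ≤ n → (n.divisors.card : ℝ) ≤ Cd * (n : ℝ) ^ ε) {X : ℕ} (hX : 1 ≤ X)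
    (hW : ({w : Fin k → ℕ | (∀ i, 2 ≤ w i ∧ w i ≤ X) ∧ w ∈ W}.ncard : ℝ) ≤ C₀ * (X : ℝ) ^ ((k : ℝ) - c₀)) :
    ∑ g ∈ (Fintype.piFinset (fun _ : Fin k => Icc 1 X)).filter (fun g => (∀ i, ((X : ℝ) / 2) ^ ρ ≤ (g i : ℝ)) ∧
      ∃ w ∈ W, ∀ i, (2 ≤ w i ∧ w i ≤ X) ∧ g i ∣ w i), ∏ i, (1 : ℝ) / g i ≤ C₀ * (2 * Cd) ^ k * (X : ℝ) ^ (-δ) := by
  have hX1 : (1 : ℝ) ≤ X := by exact_mod_cast hX
  have hX0 : (0 : ℝ) < X := by linarith
  have h1 : ∀ g ∈ (Fintype.piFinset (fun _ : Fin k => Icc 1 X)).filter (fun g => (∀ i, ((X : ℝ) / 2) ^ ρ ≤ (g i : ℝ)) ∧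
      ∃ w ∈ W, ∀ i, (2 ≤ w i ∧ w i ≤ X) ∧ g i ∣ w i), ∏ i, (1 : ℝ) / g i ≤ 2 ^ k * (X : ℝ) ^ (-(k * ρ)) := by
    intro g hg
    rw [mem_filter] at hg
    calc ∏ i, (1 : ℝ) / g i ≤ ∏ _i : Fin k, (2 * (X : ℝ) ^ (-ρ)) := by
          apply prod_le_prod
          · intro i _
            positivity
          · intro i _
            have h2 := hg.2.1 i
            have h3 : (0 : ℝ) < ((X : ℝ) / 2) ^ ρ := by positivity
            calc (1 : ℝ) / g i ≤ 1 / (((X : ℝ) / 2) ^ ρ) := one_div_le_one_div_of_le h3 h2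
              _ = 2 ^ ρ * (X : ℝ) ^ (-ρ) := by
                rw [Real.div_rpow hX0.le (by norm_num), Real.rpow_neg hX0.le]
                field_simp
              _ ≤ 2 * (X : ℝ) ^ (-ρ) := by
                apply mul_le_mul_of_nonneg_right _ (by positivity)
                calc (2 : ℝ) ^ ρ ≤ 2 ^ (1 : ℝ) := Real.rpow_le_rpow_of_exponent_le (by norm_num) hρ1
                  _ = 2 := Real.rpow_one _
      _ = _ := by
          rw [prod_const, card_univ, Fintype.card_fin, mul_pow, ← Real.rpow_natCast ((X : ℝ) ^ (-ρ)), ← Real.rpow_mul hX0.le]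
          congr 2
          ring
  refine (sum_le_sum h1).trans ?_
  rw [sum_const, nsmul_eq_mul]
  have h2 : (((Fintype.piFinset (fun _ : Fin k => Icc 1 X)).filter (fun g => (∀ i, ((X : ℝ) / 2) ^ ρ ≤ (g i : ℝ)) ∧
      ∃ w ∈ W, ∀ i, (2 ≤ w i ∧ w i ≤ X) ∧ g i ∣ w i)).card : ℝ) ≤
      C₀ * Cd ^ k * (X : ℝ) ^ (((k : ℝ) - c₀) + k * ε) := by
    refine le_trans ?_ (wcount hCd0 hε hCd hX hW)
    apply Nat.cast_le.2
    apply card_le_card
    intro g hg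
    rw [mem_filter] at hg ⊢
    exact ⟨hg.1, hg.2.2⟩
  calc (((Fintype.piFinset (fun _ : Fin k => Icc 1 X)).filter (fun g => (∀ i, ((X : ℝ) / 2) ^ ρ ≤ (g i : ℝ)) ∧
      ∃ w ∈ W, ∀ i, (2 ≤ w i ∧ w i ≤ X) ∧ g i ∣ w i)).card : ℝ) * (2 ^ k * (X : ℝ) ^ (-(k * ρ)))
      ≤ (C₀ * Cd ^ k * (X : ℝ) ^ (((k : ℝ) - c₀) + k * ε)) * (2 ^ k * (X : ℝ) ^ (-(k * ρ))) :=
        mul_le_mul_of_nonneg_right h2 (by positivity)
    _ = C₀ * (2 * Cd) ^ k * ((X : ℝ) ^ (((k : ℝ) - c₀) + k * ε) * (X : ℝ) ^ (-(k * ρ))) := by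
        rw [mul_pow]
        ring
    _ = C₀ * (2 * Cd) ^ k * (X : ℝ) ^ (-δ) := by
        rw [← Real.rpow_add hX0]
        congr 2
        rw [hδ]
        ring

/-- the whole estimate, numbers -/
lemma num_tuple {k K j : ℕ} {L l S Lb Laq Lc Lc₁ R κ₂ δ γ q C₁ X lX : ℝ} (hL : 100 ≤ L) (hexpl : Real.exp l = L) (hl : 1 ≤ l)
    (hLc : 1 ≤ Lc) (hLcS : Lc ≤ S) (hC₁ : 0 ≤ C₁) (hδ : 0 < δ) (hq : 1 < q) (hγ : γ = δ * (1 - 1 / q))
    (hX : 0 < X) (hXb : Real.exp Lb ≤ X) (hj : (j : ℝ) ≤ R * L) (hlX0 : 0 ≤ lX) (hlX : lX ≤ j) (hRL : R + 2 ≤ L)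
    (hC₁L : C₁ + 1 ≤ L) (hK : (K : ℝ) + 1 ≤ κ₂ * Laq)
    (hK2 : 2 * k * κ₂ * (Laq * l) ≤ S) (hlS : 2 * l ≤ S) (hkS : (k + 8) * S ≤ γ * Lb) (hkLc : (2 * k + 1) * Lc ≤ Lc₁) :
    k * Real.exp (-Lc₁) ≤ Real.exp (-Lc) / 2 ∧
    (R * L + 1) * (Real.exp S ^ k * ((C₁ * X ^ (-δ)) ^ (1 - 1 / q) * (((1 + lX) ^ (K + 1)) ^ k) ^ (1 / q))) ≤
      Real.exp (-Lc) / 2 := by
  have hL0 : 0 < L := by linarith
  have hq0 : 0 < q := by linarith
  have hqi : 0 < 1 / q := by positivity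
  have hqi1 : 1 / q < 1 := by rw [div_lt_one hq0]; exact hq
  have hk0 : (0 : ℝ) ≤ k := Nat.cast_nonneg _
  constructor
  · have h1 : (2 * k : ℝ) ≤ Real.exp (2 * k) := le_exp_self _
    have h2 : 2 * k + Lc ≤ Lc₁ := by nlinarith
    have h3 : (2 * k : ℝ) * Real.exp (-Lc₁) ≤ Real.exp (-Lc) := by
      calc (2 * k : ℝ) * Real.exp (-Lc₁) ≤ Real.exp (2 * k) * Real.exp (-Lc₁) :=
            mul_le_mul_of_nonneg_right h1 (Real.exp_pos _).le
        _ = Real.exp (2 * k + -Lc₁) := by rw [← Real.exp_add]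
        _ ≤ Real.exp (-Lc) := Real.exp_le_exp.2 (by linarith)
    linarith
  · have hLL : L * L = Real.exp (2 * l) := by
      rw [show 2 * l = l + l by ring, Real.exp_add, hexpl]
    have g0 : Real.exp (2 * l) ≤ Real.exp S := Real.exp_le_exp.2 hlS
    have g1 : R * L + 1 ≤ Real.exp S := by
      refine le_trans ?_ g0
      rw [← hLL]
      nlinarith
    have g1' : 1 + lX ≤ Real.exp (2 * l) := by
      rw [← hLL]
      nlinarith
    have g2 : (C₁ * X ^ (-δ)) ^ (1 - 1 / q) ≤ Real.exp S * Real.exp (-(γ * Lb)) := by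
      have e1 : X ^ (-δ) ≤ Real.exp (-(δ * Lb)) := by
        calc X ^ (-δ) ≤ (Real.exp Lb) ^ (-δ) :=
              Real.rpow_le_rpow_of_nonpos (Real.exp_pos _) hXb (by linarith)
          _ = Real.exp (-(δ * Lb)) := by
              rw [← Real.exp_mul]
              congr 1
              ring
      have e2 : C₁ ≤ Real.exp l := by rw [hexpl]; linarith
      have e3 : C₁ * X ^ (-δ) ≤ Real.exp l * Real.exp (-(δ * Lb)) :=
        mul_le_mul e2 e1 (by positivity) (Real.exp_pos _).le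
      calc (C₁ * X ^ (-δ)) ^ (1 - 1 / q) ≤ (Real.exp l * Real.exp (-(δ * Lb))) ^ (1 - 1 / q) :=
            Real.rpow_le_rpow (by positivity) e3 (by linarith)
        _ = Real.exp (l * (1 - 1 / q)) * Real.exp (-(γ * Lb)) := by
            rw [← Real.exp_add, ← Real.exp_mul, ← Real.exp_add, hγ]
            congr 1
            ring
        _ ≤ _ := by
            apply mul_le_mul_of_nonneg_right _ (Real.exp_pos _).le
            apply Real.exp_le_exp.2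
            nlinarith
    have g3 : (((1 + lX) ^ (K + 1)) ^ k) ^ (1 / q) ≤ Real.exp S := by
      have e0 : (1 : ℝ) ≤ ((1 + lX) ^ (K + 1)) ^ k := one_le_pow₀ (one_le_pow₀ (by linarith))
      calc (((1 + lX) ^ (K + 1)) ^ k) ^ (1 / q) ≤ (((1 + lX) ^ (K + 1)) ^ k) ^ (1 : ℝ) :=
            Real.rpow_le_rpow_of_exponent_le e0 hqi1.le
        _ = ((1 + lX) ^ (K + 1)) ^ k := Real.rpow_one _
        _ ≤ ((Real.exp (2 * l)) ^ (K + 1)) ^ k := by gcongr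
        _ = Real.exp ((k : ℝ) * (((K + 1 : ℕ) : ℝ) * (2 * l))) := by rw [← Real.exp_nat_mul, ← Real.exp_nat_mul]
        _ ≤ Real.exp S := by
            apply Real.exp_le_exp.2
            push_cast
            refine le_trans ?_ hK2
            have e4 : ((K : ℝ) + 1) * (2 * l) ≤ (κ₂ * Laq) * (2 * l) := mul_le_mul_of_nonneg_right hK (by linarith)
            calc (k : ℝ) * (((K : ℝ) + 1) * (2 * l)) ≤ k * ((κ₂ * Laq) * (2 * l)) := mul_le_mul_of_nonneg_left e4 hk0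
              _ = 2 * k * κ₂ * (Laq * l) := by ring
    have g4 : Real.exp S ^ k = Real.exp (k * S) := by rw [← Real.exp_nat_mul]
    have hB0 : 0 ≤ (C₁ * X ^ (-δ)) ^ (1 - 1 / q) := by positivity
    have hD0 : 0 ≤ (((1 + lX) ^ (K + 1)) ^ k) ^ (1 / q) := by positivity
    calc (R * L + 1) * (Real.exp S ^ k * ((C₁ * X ^ (-δ)) ^ (1 - 1 / q) * (((1 + lX) ^ (K + 1)) ^ k) ^ (1 / q)))
        ≤ Real.exp S * (Real.exp S ^ k * ((Real.exp S * Real.exp (-(γ * Lb))) * Real.exp S)) := by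
          apply mul_le_mul g1 _ (by positivity) (Real.exp_pos _).le
          apply mul_le_mul_of_nonneg_left _ (by positivity)
          exact mul_le_mul g2 g3 hD0 (by positivity)
      _ = Real.exp ((k + 3) * S - γ * Lb) := by
          rw [g4]
          simp only [← Real.exp_add]
          congr 1
          ring
      _ ≤ Real.exp (-Lc) / 2 := by
          have e1 : (2 : ℝ) ≤ Real.exp 1 := by
            have := Real.add_one_le_exp (1 : ℝ)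
            linarith
          rw [le_div_iff₀ (by norm_num)]
          calc Real.exp ((k + 3) * S - γ * Lb) * 2 ≤ Real.exp ((k + 3) * S - γ * Lb) * Real.exp 1 :=
                mul_le_mul_of_nonneg_left e1 (Real.exp_pos _).le
            _ = Real.exp ((k + 3) * S - γ * Lb + 1) := by rw [← Real.exp_add]
            _ ≤ _ := by
                apply Real.exp_le_exp.2
                nlinarith

/-- **Tuples.** If `W` has at most `C₀ X^(k - c₀)` elements in `[2, X]^k`, then for all `m` in `[1, N]^k` but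
`N^k exp (-(log N)^c)` no tuple `w` with all `w i ≥ exp ((log N)^b)`, `gcd(w i, F i (m i)) ≥ (w j)^ρ`, is in `W`; `1/2 < b < 1`,
`c < 2 b - 1`, `k (1 - ρ) < c₀`. -/
theorem avoidT {k : ℕ} (hk : 1 ≤ k) {F : Fin k → ℕ → ℕ} (hF : ∀ i, LM (F i)) {c₀ ρ : ℝ} (hρ0 : 0 < ρ) (hρ1 : ρ ≤ 1)
    (hρ : k * (1 - ρ) < c₀) (C₀ : ℝ) {b c : ℝ} (hb : b < 1) (hc0 : 0 ≤ c) (hcb : c < 2 * b - 1) :
    ∃ N₀ : ℕ, ∀ N : ℕ, N₀ ≤ N → ∀ W : Set (Fin k → ℕ),
      (∀ X : ℕ, 1 ≤ X → ({w : Fin k → ℕ | (∀ i, 2 ≤ w i ∧ w i ≤ X) ∧ w ∈ W}.ncard : ℝ) ≤ C₀ * (X : ℝ) ^ ((k : ℝ) - c₀)) →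
      ({m : Fin k → ℕ | (∀ i, 1 ≤ m i ∧ m i ≤ N) ∧ ∃ w ∈ W, CommonT F b ρ N m w}.ncard : ℝ) ≤
        (N : ℝ) ^ k * Real.exp (-(Real.log N ^ c)) := by
  have hk0 : (0 : ℝ) < k := by exact_mod_cast hk
  -- the exponents
  obtain ⟨c₁, a, s, q, aq, haq, hc₁0, hcc₁, h_as, h_aqs, h_sb, h_c, h_a1, h_cs, ha0, hq1, haq0⟩ :
      ∃ c₁ a s q aq : ℝ, aq = a * q ∧ 0 ≤ c₁ ∧ c < c₁ ∧ a < s ∧ aq < s ∧ s < b ∧ c₁ < 2 * a - 1 ∧ a < 1 ∧ c < s ∧ 0 < a ∧
        1 < q ∧ 0 ≤ aq := by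
    obtain ⟨c₁, hc₁⟩ : ∃ c₁ : ℝ, c₁ = ((2 * b - 1) + c) / 2 := ⟨_, rfl⟩
    have hc1 : c < c₁ := by rw [hc₁]; linarith
    have hc2 : c₁ < 2 * b - 1 := by rw [hc₁]; linarith
    obtain ⟨a, ha⟩ : ∃ a : ℝ, a = ((1 + c₁) / 2 + b) / 2 := ⟨_, rfl⟩
    have ha1 : (1 + c₁) / 2 < a := by rw [ha]; linarith
    have hab : a < b := by rw [ha]; linarith
    have ha0 : 0 < a := by linarith
    obtain ⟨q, hq⟩ : ∃ q : ℝ, q = (1 + b / a) / 2 := ⟨_, rfl⟩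
    have hba : 1 < b / a := by rw [lt_div_iff₀ ha0]; linarith
    have hq1 : 1 < q := by rw [hq]; linarith
    have hq0 : 0 < q := by linarith
    have haq' : a * q = (a + b) / 2 := by
      rw [hq]
      field_simp
    refine ⟨c₁, a, (a * q + b) / 2, q, a * q, rfl, ?_, ?_, ?_, ?_, ?_, ?_, ?_, ?_, ha0, hq1, by positivity⟩
    all_goals linarith
  have hq0 : 0 < q := lt_trans one_pos hq1
  obtain ⟨ε, hεd⟩ : ∃ ε : ℝ, ε = (c₀ - k * (1 - ρ)) / (2 * k) := ⟨_, rfl⟩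
  have hε : 0 < ε := by
    rw [hεd]
    exact div_pos (by linarith) (by linarith)
  obtain ⟨δ, hδd⟩ : ∃ δ : ℝ, δ = c₀ - k * (1 - ρ) - k * ε := ⟨_, rfl⟩
  have hδ : 0 < δ := by
    have : k * ε = (c₀ - k * (1 - ρ)) / 2 := by
      rw [hεd]
      field_simp
    rw [hδd, this]
    linarith
  obtain ⟨γ, hγd⟩ : ∃ γ : ℝ, γ = δ * (1 - 1 / q) := ⟨_, rfl⟩
  have hγ : 0 < γ := by
    have : 1 / q < 1 := by rw [div_lt_one hq0]; exact hq1
    rw [hγd]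
    exact mul_pos hδ (by linarith)
  obtain ⟨Cd, hCd0, hCd⟩ := Pool.Agent.H510R2.divisor_bound ε hε
  obtain ⟨C₁, hC₁⟩ : ∃ C₁ : ℝ, C₁ = |C₀| * (2 * Cd) ^ k := ⟨_, rfl⟩
  have hC₁0 : 0 ≤ C₁ := by rw [hC₁]; positivity
  choose N₀ hN₀ using fun i => pw (hF i) h_as h_a1 hc₁0 h_c
  obtain ⟨i₀, -⟩ : ∃ i₀ : Fin k, (i₀ : ℕ) = 0 := ⟨⟨0, hk⟩, rfl⟩
  obtain ⟨C, D, hCD⟩ := (hF i₀).growth
  obtain ⟨R₁, hR₁⟩ : ∃ R₁ : ℝ, R₁ = 1 + 2 * (C + D) / ρ := ⟨_, rfl⟩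
  have hR₁0 : 0 ≤ R₁ := by rw [hR₁]; positivity
  obtain ⟨R, r0, r1, r2, r3, r4, r5⟩ : ∃ R : ℝ, 100 ≤ R ∧ R₁ + 2 ≤ R ∧ C₁ + 1 ≤ R ∧ 2 * k * ((2 : ℝ) ^ q + 2) ≤ R ∧
      (k + 8) / γ ≤ R ∧ 2 * (k : ℝ) + 1 ≤ R := by
    have p3 : (0 : ℝ) < 2 * k * (2 ^ q + 2) := by positivity
    have p4 : (0 : ℝ) < (k + 8) / γ := by positivity
    refine ⟨100 + R₁ + 2 + C₁ + 2 * k * (2 ^ q + 2) + (k + 8) / γ + (2 * k + 1), ?_, ?_, ?_, ?_, ?_, ?_⟩ <;> linarith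
  have t1 : Filter.Tendsto (fun N : ℕ => Real.log (N : ℝ)) Filter.atTop Filter.atTop :=
    Real.tendsto_log_atTop.comp tendsto_natCast_atTop_atTop
  have g := (Filter.eventually_ge_atTop R).and ((Real.tendsto_log_atTop.eventually_ge_atTop 1).and
    ((ev h_sb R).and ((ev h_aqs R).and ((ev hcc₁ R).and (ev h_cs R)))))
  obtain ⟨N₁, hN₁⟩ := Filter.eventually_atTop.1 ((t1.eventually g).and (Filter.eventually_ge_atTop 3))
  refine ⟨max N₁ (Finset.univ.sup N₀), fun N hN W hW => ?_⟩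
  obtain ⟨⟨k0, k1, k2, k3, k4, k5⟩, hN3⟩ := hN₁ N ((le_max_left _ _).trans hN)
  clear hN₁ g t1
  have hNi : ∀ i, N₀ i ≤ N := fun i => (Finset.le_sup (mem_univ i)).trans ((le_max_right _ _).trans hN)
  choose E hE1 hE2 using fun i => hN₀ i N (hNi i)
  have hN1 : 1 ≤ N := le_trans (by norm_num) hN3
  have hN0 : (0 : ℝ) < N := by exact_mod_cast hN1
  obtain ⟨L, hL⟩ : ∃ L, L = Real.log N := ⟨_, rfl⟩
  rw [← hL] at k0 k1 k2 k3 k4 k5 ⊢
  simp only [← hL] at hE1 hE2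
  obtain ⟨l, hl⟩ : ∃ l, l = Real.log L := ⟨_, rfl⟩
  rw [← hl] at k1 k2 k3 k4 k5
  have hR0 : 0 ≤ R := le_trans (by norm_num) r0
  have hL100 : 100 ≤ L := r0.trans k0
  have hL0 : 0 < L := lt_of_lt_of_le (by norm_num) hL100
  have hL1 : 1 ≤ L := le_trans (by norm_num) hL100
  have hl0 : 0 ≤ l := zero_le_one.trans k1
  have hexpl : Real.exp l = L := by rw [hl]; exact Real.exp_log hL0
  have hexpL : Real.exp L = N := by rw [hL]; exact Real.exp_log hN0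
  obtain ⟨S, hS⟩ : ∃ S : ℝ, S = L ^ s := ⟨_, rfl⟩
  rw [← hS] at k2 k3 k5
  simp only [← hS] at hE2
  have hS1 : 1 ≤ S := by rw [hS]; exact Real.one_le_rpow hL1 (ha0.le.trans h_as.le)
  have hS0 : 0 ≤ S := zero_le_one.trans hS1
  have hLc1 : 1 ≤ L ^ c := Real.one_le_rpow hL1 hc0
  have hLc0 : 0 ≤ L ^ c := zero_le_one.trans hLc1
  have hLaq1 : 1 ≤ L ^ aq := Real.one_le_rpow hL1 haq0
  have u2 : R * S ≤ L ^ b := mul_l hR0 hS0 k1 k2
  have u3 : R * l ≤ S := mul_l' hR0 hLaq1 hl0 k3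
  have u4 : R * L ^ c ≤ L ^ c₁ := mul_l hR0 hLc0 k1 k4
  have u5 : R * L ^ c ≤ S := mul_l hR0 hLc0 k1 k5
  have hLcS : L ^ c ≤ S := le_trans (le_of_eq (one_mul _).symm) (mul_R hLc0 (by linarith only [r0]) u5)
  obtain ⟨A, hA⟩ : ∃ A : ℝ, A = L ^ a := ⟨_, rfl⟩
  simp only [← hA] at hE2
  have hA1 : 1 ≤ A := by rw [hA]; exact Real.one_le_rpow hL1 ha0.le
  obtain ⟨J, hJ⟩ : ∃ J : ℕ, J = ⌊A⌋₊ := ⟨_, rfl⟩
  have hJA : (J : ℝ) ≤ A := by rw [hJ]; exact Nat.floor_le (by linarith only [hA1])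
  simp only [← hJ] at hE2
  obtain ⟨K, hK1, hK2⟩ := num_K hL1 hq0 haq haq0 hA hA1 hJA
  obtain ⟨Λ, hΛ⟩ : ∃ Λ : ℝ, Λ = Real.exp S := ⟨_, rfl⟩
  rw [← hΛ] at hE2
  have hΛ0 : 0 < Λ := by rw [hΛ]; exact Real.exp_pos _
  have h8 : (k + 8) * S ≤ γ * L ^ b := by
    have e6 : (k + 8) / γ * S ≤ L ^ b := mul_R hS0 r4 u2
    rw [div_mul_eq_mul_div, div_le_iff₀ hγ] at e6
    linarith only [e6]
  have hmain : ∀ j : ℕ, (j : ℝ) ≤ R₁ * L → Real.exp (L ^ b) ≤ ((2 ^ j : ℕ) : ℝ) →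
      k * Real.exp (-(L ^ c₁)) ≤ Real.exp (-(L ^ c)) / 2 ∧
      (R₁ * L + 1) * (Λ ^ k * ((C₁ * ((2 ^ j : ℕ) : ℝ) ^ (-δ)) ^ (1 - 1 / q) *
        (((1 + Real.log (2 ^ j : ℕ)) ^ (K + 1)) ^ k) ^ (1 / q))) ≤ Real.exp (-(L ^ c)) / 2 := by
    intro j hj hjb
    have hX1 : (1 : ℝ) ≤ ((2 ^ j : ℕ) : ℝ) := by exact_mod_cast Nat.one_le_two_pow
    rw [hΛ]
    refine num_tuple hL100 hexpl k1 hLc1 hLcS hC₁0 hδ hq1 hγd (by linarith only [hX1]) hjb hj (Real.log_nonneg hX1) ?_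
      (r1.trans k0) (r2.trans k0) hK2 ?_ (mul_R hl0 (by linarith only [r0]) u3) h8 (mul_R hLc0 r5 u4)
    · push_cast
      rw [Real.log_pow]
      have h1 : Real.log 2 ≤ 1 := by
        have := Real.log_two_lt_d9
        linarith only [this]
      have h2 : (0 : ℝ) ≤ j := Nat.cast_nonneg _
      calc (j : ℝ) * Real.log 2 ≤ j * 1 := mul_le_mul_of_nonneg_left h1 h2
        _ = j := mul_one _
    · exact mul_R (by positivity) r3 k3
  -- the covering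
  obtain ⟨Wj, hWj⟩ : ∃ Wj : ℕ → Finset (Fin k → ℕ), Wj = fun (j : ℕ) => (Fintype.piFinset (fun _ : Fin k =>
    Icc 1 (2 ^ j))).filter (fun (g : Fin k → ℕ) => (∀ i, (((2 ^ j : ℕ) : ℝ) / 2) ^ ρ ≤ (g i : ℝ)) ∧ ∃ w ∈ W, ∀ i, (2 ≤ w i ∧ w i ≤ 2 ^ j) ∧ g i ∣ w i) := ⟨_, rfl⟩
  obtain ⟨JJ, hJJ⟩ : ∃ JJ : Finset ℕ, JJ = (range (⌊R₁ * L⌋₊ + 1)).filter (fun j => Real.exp (L ^ b) ≤ ((2 ^ j : ℕ) : ℝ)) :=
    ⟨_, rfl⟩
  obtain ⟨Box, hBox⟩ : ∃ Box : Finset (Fin k → ℕ), Box = Fintype.piFinset (fun _ : Fin k => Icc 1 N) := ⟨_, rfl⟩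
  have hLb1 : 1 ≤ L ^ b := by
    apply Real.one_le_rpow hL1
    linarith only [ha0, h_as, h_sb]
  have hcov : Box.filter (fun m => ∃ w ∈ W, CommonT F b ρ N m w) ⊆ Box.filter (fun m => ∃ i, m i ∈ E i) ∪
      JJ.biUnion (fun j => (Wj j).biUnion (fun g => Fintype.piFinset (fun i => (Icc 1 N).filter
        (fun m => m ∉ E i ∧ g i ∣ F i m)))) := by
    intro m hm
    rw [mem_filter] at hm
    obtain ⟨hmB, w, hwW, hw⟩ := hm
    rw [mem_union]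
    by_cases hmE : ∃ i, m i ∈ E i
    · left
      rw [mem_filter]
      exact ⟨hmB, hmE⟩
    right
    push Not at hmE
    have hmB' := hmB
    rw [hBox, Fintype.mem_piFinset] at hmB'
    obtain ⟨mx, hmx⟩ : ∃ mx : ℕ, mx = Finset.univ.sup w := ⟨_, rfl⟩
    have hwmx : ∀ i, w i ≤ mx := fun i => by rw [hmx]; exact Finset.le_sup (mem_univ i)
    obtain ⟨i₁, hi₁⟩ : ∃ i₁, mx = w i₁ := by
      have hne : (univ : Finset (Fin k)).Nonempty := ⟨i₀, mem_univ _⟩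
      obtain ⟨i₁, -, h1⟩ := Finset.exists_mem_eq_sup univ hne w
      exact ⟨i₁, by rw [hmx]; exact h1⟩
    have hmxb : Real.exp (L ^ b) ≤ (mx : ℝ) := by
      rw [hi₁, hL]
      exact (hw i₁).1
    have hwb : ∀ i, 2 ≤ w i := by
      intro i
      have h1 := (hw i).1
      rw [← hL] at h1
      have h2 : (2 : ℝ) ≤ Real.exp (L ^ b) := by
        have := Real.add_one_le_exp (L ^ b)
        linarith only [this, hLb1]
      exact_mod_cast h2.trans h1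
    have hmx1 : 1 ≤ mx := by
      have := hwb i₁
      omega
    have hmx1r : (1 : ℝ) ≤ mx := by exact_mod_cast hmx1
    obtain ⟨j, hj⟩ : ∃ j : ℕ, j = Nat.log 2 mx + 1 := ⟨_, rfl⟩
    have hj1 : mx < 2 ^ j := by
      rw [hj]
      exact Nat.lt_pow_succ_log_self (by norm_num) mx
    have hj2 : 2 ^ j ≤ 2 * mx := by
      rw [hj, pow_succ, mul_comm]
      exact Nat.mul_le_mul_left _ (Nat.pow_log_le_self 2 (by omega))
    have hj1r : (mx : ℝ) ≤ ((2 ^ j : ℕ) : ℝ) := by exact_mod_cast hj1.le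
    have hj2r : ((2 ^ j : ℕ) : ℝ) / 2 ≤ mx := by
      rw [div_le_iff₀ (by norm_num)]
      have : 2 ^ j ≤ mx * 2 := by omega
      exact_mod_cast this
    have hgcd : ∀ i, (mx : ℝ) ^ ρ ≤ (Nat.gcd (w i) (F i (m i)) : ℝ) := fun i => by
      rw [hi₁]
      exact (hw i).2 i₁
    have hm1 : ∀ i, 1 ≤ m i ∧ m i ≤ N := fun i => mem_Icc.1 (hmB' i)
    rw [mem_biUnion]
    refine ⟨j, ?_, ?_⟩
    · rw [hJJ, mem_filter, mem_range]
      refine ⟨?_, hmxb.trans hj1r⟩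
      rw [Nat.lt_succ_iff]
      apply Nat.le_floor
      -- the size of `mx`
      have h1 : (mx : ℝ) ^ ρ ≤ (C : ℝ) * (N : ℝ) ^ D := by
        refine (hgcd i₀).trans ?_
        have h2 : Nat.gcd (w i₀) (F i₀ (m i₀)) ≤ C * N ^ D := by
          refine (Nat.gcd_le_right _ ((hF i₀).pos _ (hm1 i₀).1)).trans ?_
          exact (hCD _ (hm1 i₀).1).trans (Nat.mul_le_mul_left _ (Nat.pow_le_pow_left (hm1 i₀).2 D))
        exact_mod_cast h2
      have hC1 : (0 : ℝ) < C := by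
        rcases Nat.eq_zero_or_pos C with h | h
        · rw [h, Nat.cast_zero, zero_mul] at h1
          have : 0 < (mx : ℝ) ^ ρ := by positivity
          linarith only [this, h1]
        · exact_mod_cast h
      have h2 : ρ * Real.log mx ≤ C + D * L := by
        have h3 := Real.log_le_log (by positivity) h1
        rw [Real.log_rpow (by linarith only [hmx1r]), Real.log_mul hC1.ne' (by positivity), Real.log_pow, ← hL] at h3
        have h4 := log_le_self' hC1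
        linarith only [h3, h4]
      have h3 : (Nat.log 2 mx : ℝ) ≤ 2 * Real.log mx := by
        have h4 : (2 : ℝ) ^ (Nat.log 2 mx) ≤ mx := by exact_mod_cast Nat.pow_log_le_self 2 (by omega)
        have h5 := Real.log_le_log (by positivity) h4
        rw [Real.log_pow] at h5
        have h6 : (1 : ℝ) / 2 ≤ Real.log 2 := by
          have := Real.log_two_gt_d9
          linarith only [this]
        have h7 : (Nat.log 2 mx : ℝ) * (1 / 2) ≤ (Nat.log 2 mx : ℝ) * Real.log 2 :=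
          mul_le_mul_of_nonneg_left h6 (Nat.cast_nonneg _)
        linarith only [h5, h7]
      have h4 : Real.log mx ≤ (C + D) * L / ρ := by
        rw [le_div_iff₀ hρ0]
        have : (C : ℝ) * 1 ≤ C * L := mul_le_mul_of_nonneg_left hL1 hC1.le
        linarith only [h2, this]
      rw [hj, hR₁]
      push_cast
      have h5 : (1 + 2 * ((C : ℝ) + D) / ρ) * L = L + 2 * ((C + D) * L / ρ) := by ring
      rw [h5]
      linarith only [h3, h4, hL1]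
    · rw [mem_biUnion]
      refine ⟨fun i => Nat.gcd (w i) (F i (m i)), ?_, ?_⟩
      · rw [hWj, mem_filter, Fintype.mem_piFinset]
        refine ⟨fun i => ?_, fun i => ?_, w, hwW, fun i => ⟨⟨hwb i, (hwmx i).trans hj1.le⟩, Nat.gcd_dvd_left _ _⟩⟩
        · rw [mem_Icc]
          refine ⟨Nat.gcd_pos_of_pos_left _ (by have := hwb i; omega), ?_⟩
          refine (Nat.gcd_le_left _ (by have := hwb i; omega)).trans ((hwmx i).trans hj1.le)
        · exact (Real.rpow_le_rpow (by positivity) hj2r hρ0.le).trans (hgcd i)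
      · rw [Fintype.mem_piFinset]
        intro i
        rw [mem_filter]
        exact ⟨hmB' i, hmE i, Nat.gcd_dvd_right _ _⟩
  have hcard : ((Box.filter (fun m => ∃ w ∈ W, CommonT F b ρ N m w)).card : ℝ) ≤
      ((Box.filter (fun m => ∃ i, m i ∈ E i)).card : ℝ) + ∑ j ∈ JJ, ∑ g ∈ Wj j,
        ((Fintype.piFinset (fun i => (Icc 1 N).filter (fun m => m ∉ E i ∧ g i ∣ F i m))).card : ℝ) := by
    have h1 := (card_le_card hcov).trans ((card_union_le _ _).trans (Nat.add_le_add_left (card_biUnion_le.trans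
      (sum_le_sum (fun j _ => card_biUnion_le))) _))
    exact_mod_cast h1
  have hgoal : ({m : Fin k → ℕ | (∀ i, 1 ≤ m i ∧ m i ≤ N) ∧ ∃ w ∈ W, CommonT F b ρ N m w}.ncard : ℝ) =
      ((Box.filter (fun m => ∃ w ∈ W, CommonT F b ρ N m w)).card : ℝ) := by
    rw [← Set.ncard_coe_finset]
    congr 2
    ext m
    simp only [hBox, coe_filter, Fintype.mem_piFinset, mem_Icc, Set.mem_ofPred_eq]
  rw [hgoal]
  refine hcard.trans ?_
  have hNk : (0 : ℝ) ≤ (N : ℝ) ^ k := by positivity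
  have hj0 : ∀ j ∈ JJ, (j : ℝ) ≤ R₁ * L ∧ Real.exp (L ^ b) ≤ ((2 ^ j : ℕ) : ℝ) := by
    intro j hj
    rw [hJJ, mem_filter, mem_range, Nat.lt_succ_iff] at hj
    refine ⟨?_, hj.2⟩
    exact (by exact_mod_cast hj.1 : (j : ℝ) ≤ (⌊R₁ * L⌋₊ : ℝ)).trans (Nat.floor_le (by positivity))
  have hbound : ∀ j ∈ JJ, ∑ g ∈ Wj j, ((Fintype.piFinset (fun i => (Icc 1 N).filter
      (fun m => m ∉ E i ∧ g i ∣ F i m))).card : ℝ) ≤ (N : ℝ) ^ k * (Real.exp (-(L ^ c)) / 2 / (R₁ * L + 1)) := by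
    intro j hj
    have hX1n : 1 ≤ 2 ^ j := Nat.one_le_two_pow
    have hg : ∀ g ∈ Wj j, ((Fintype.piFinset (fun i => (Icc 1 N).filter (fun m => m ∉ E i ∧ g i ∣ F i m))).card : ℝ) ≤
        (N : ℝ) ^ k * Λ ^ k * ∏ i, ((T (J + 1) (g i) : ℝ) / g i) := by
      intro g hg
      rw [hWj, mem_filter, Fintype.mem_piFinset] at hg
      rw [Fintype.card_piFinset]
      push_cast
      calc ∏ i, ((((Icc 1 N).filter (fun m => m ∉ E i ∧ g i ∣ F i m)).card : ℕ) : ℝ) ≤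
            ∏ i, ((N : ℝ) * (Λ * ((T (J + 1) (g i) : ℝ) / g i))) := by
            apply prod_le_prod
            · intro i _
              exact Nat.cast_nonneg _
            · intro i _
              exact hE2 i (g i) (mem_Icc.1 (hg.1 i)).1
        _ = _ := by
            rw [prod_mul_distrib, prod_mul_distrib, prod_const, prod_const, card_univ, Fintype.card_fin]
            ring
    refine (sum_le_sum hg).trans ?_
    rw [← mul_sum]
    have h1 : ∑ g ∈ Wj j, ∏ i, (1 : ℝ) / g i ≤ C₁ * ((2 ^ j : ℕ) : ℝ) ^ (-δ) := by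
      rw [hC₁, hWj]
      refine scale_sum hCd0 hε.le hρ1 hδd hCd hX1n ?_
      refine (hW _ hX1n).trans (mul_le_mul_of_nonneg_right (le_abs_self _) (by positivity))
    have h2 := holderT (Wj j) hX1n (fun g hg i => by
      rw [hWj, mem_filter, Fintype.mem_piFinset] at hg
      exact mem_Icc.1 (hg.1 i)) hq1 hK1 h1
    have h3 := (hmain j (hj0 j hj).1 (hj0 j hj).2).2
    have hRL : 0 < R₁ * L + 1 := by positivity
    rw [mul_comm, ← le_div_iff₀ hRL] at h3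
    calc (N : ℝ) ^ k * Λ ^ k * ∑ g ∈ Wj j, ∏ i, ((T (J + 1) (g i) : ℝ) / g i)
        ≤ (N : ℝ) ^ k * Λ ^ k * ((C₁ * ((2 ^ j : ℕ) : ℝ) ^ (-δ)) ^ (1 - 1 / q) *
          (((1 + Real.log (2 ^ j : ℕ)) ^ (K + 1)) ^ k) ^ (1 / q)) := mul_le_mul_of_nonneg_left h2 (by positivity)
      _ = (N : ℝ) ^ k * (Λ ^ k * ((C₁ * ((2 ^ j : ℕ) : ℝ) ^ (-δ)) ^ (1 - 1 / q) *
          (((1 + Real.log (2 ^ j : ℕ)) ^ (K + 1)) ^ k) ^ (1 / q))) := by ring
      _ ≤ _ := mul_le_mul_of_nonneg_left h3 hNk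
  have hsum : ∑ j ∈ JJ, ∑ g ∈ Wj j, ((Fintype.piFinset (fun i => (Icc 1 N).filter
      (fun m => m ∉ E i ∧ g i ∣ F i m))).card : ℝ) ≤ (N : ℝ) ^ k * (Real.exp (-(L ^ c)) / 2) := by
    refine (sum_le_sum hbound).trans ?_
    rw [sum_const, nsmul_eq_mul]
    have hRL : 0 < R₁ * L + 1 := by positivity
    have h1 : (JJ.card : ℝ) ≤ R₁ * L + 1 := by
      have h2 : JJ.card ≤ ⌊R₁ * L⌋₊ + 1 := by
        rw [hJJ]
        exact (card_filter_le _ _).trans (le_of_eq (card_range _))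
      calc (JJ.card : ℝ) ≤ ((⌊R₁ * L⌋₊ + 1 : ℕ) : ℝ) := by exact_mod_cast h2
        _ ≤ R₁ * L + 1 := by
          push_cast
          linarith only [Nat.floor_le (show 0 ≤ R₁ * L by positivity)]
    calc (JJ.card : ℝ) * ((N : ℝ) ^ k * (Real.exp (-(L ^ c)) / 2 / (R₁ * L + 1)))
        ≤ (R₁ * L + 1) * ((N : ℝ) ^ k * (Real.exp (-(L ^ c)) / 2 / (R₁ * L + 1))) :=
          mul_le_mul_of_nonneg_right h1 (by positivity)
      _ = _ := by field_simp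
  have hE : ((Box.filter (fun m => ∃ i, m i ∈ E i)).card : ℝ) ≤ (N : ℝ) ^ k * (Real.exp (-(L ^ c)) / 2) := by
    rw [hBox]
    refine (exc_count E hE1).trans ?_
    -- a scale `j` for the numerical lemma
    have hkk : k * Real.exp (-(L ^ c₁)) ≤ Real.exp (-(L ^ c)) / 2 := by
      have h1 : (2 * k : ℝ) ≤ Real.exp (2 * k) := le_exp_self _
      have h2 : 2 * k + L ^ c ≤ L ^ c₁ := by
        have h3 : (2 * (k : ℝ) + 1) * L ^ c ≤ L ^ c₁ := mul_R hLc0 r5 u4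
        have h4 : (2 * (k : ℝ)) * 1 ≤ 2 * k * L ^ c := mul_le_mul_of_nonneg_left hLc1 (by positivity)
        linarith only [h3, h4]
      have h3 : (2 * k : ℝ) * Real.exp (-(L ^ c₁)) ≤ Real.exp (-(L ^ c)) := by
        calc (2 * k : ℝ) * Real.exp (-(L ^ c₁)) ≤ Real.exp (2 * k) * Real.exp (-(L ^ c₁)) :=
              mul_le_mul_of_nonneg_right h1 (Real.exp_pos _).le
          _ = Real.exp (2 * k + -(L ^ c₁)) := by rw [← Real.exp_add]
          _ ≤ Real.exp (-(L ^ c)) := Real.exp_le_exp.2 (by linarith only [h2])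
      linarith only [h3]
    calc (k : ℝ) * ((N : ℝ) ^ k * Real.exp (-(L ^ c₁))) = (N : ℝ) ^ k * (k * Real.exp (-(L ^ c₁))) := by ring
      _ ≤ _ := mul_le_mul_of_nonneg_left hkk hNk
  calc ((Box.filter (fun m => ∃ i, m i ∈ E i)).card : ℝ) + ∑ j ∈ JJ, ∑ g ∈ Wj j,
        ((Fintype.piFinset (fun i => (Icc 1 N).filter (fun m => m ∉ E i ∧ g i ∣ F i m))).card : ℝ)
      ≤ (N : ℝ) ^ k * (Real.exp (-(L ^ c)) / 2) + (N : ℝ) ^ k * (Real.exp (-(L ^ c)) / 2) := add_le_add hE hsum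
    _ = (N : ℝ) ^ k * Real.exp (-(L ^ c)) := by ring

end Pool.Agent.U536.CF
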