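import Mathlib

set_option autoImplicit false

/-! Powers of logarithms and small powers (helper536). -/

namespace Pool.Agent.U536.CF

/-- a power of the logarithm is at most a small power -/
lemma log_pow_le (k : ℕ) {s : ℝ} (hs : 0 < s) : ∃ C : ℝ, 0 ≤ C ∧ ∀ N : ℕ, 1 ≤ N →
    (((Nat.log 2 N + 1) ^ k : ℕ) : ℝ) ≤ C * (N : ℝ) ^ s := by
  obtain ⟨e, he⟩ : ∃ e : ℝ, e = s / (k + 1) := ⟨_, rfl⟩
  have hk : (0 : ℝ) < (k : ℝ) + 1 := by positivity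
  have he0 : 0 < e := by rw [he]; positivity
  refine ⟨(2 / e + 1) ^ k, by positivity, fun N hN => ?_⟩
  have hN1 : (1 : ℝ) ≤ N := by exact_mod_cast hN
  have hN0 : (0 : ℝ) < N := by linarith
  have h1 : (Nat.log 2 N : ℝ) ≤ 2 / e * (N : ℝ) ^ e := by
    have h2 : (2 : ℝ) ^ (Nat.log 2 N) ≤ N := by exact_mod_cast Nat.pow_log_le_self 2 (by omega)
    have h3 := Real.log_le_log (by positivity) h2
    rw [Real.log_pow] at h3
    have h4 : (1 / 2 : ℝ) ≤ Real.log 2 := by linarith [Real.log_two_gt_d9]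
    have h5 := Real.log_le_rpow_div hN0.le he0
    have h6 : (Nat.log 2 N : ℝ) * (1 / 2) ≤ (Nat.log 2 N : ℝ) * Real.log 2 :=
      mul_le_mul_of_nonneg_left h4 (Nat.cast_nonneg _)
    calc (Nat.log 2 N : ℝ) ≤ 2 * ((N : ℝ) ^ e / e) := by linarith
      _ = 2 / e * (N : ℝ) ^ e := by ring
  have h2 : (1 : ℝ) ≤ (N : ℝ) ^ e := Real.one_le_rpow hN1 he0.le
  have h3 : ((Nat.log 2 N + 1 : ℕ) : ℝ) ≤ (2 / e + 1) * (N : ℝ) ^ e := by
    push_cast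
    have : (2 / e + 1) * (N : ℝ) ^ e = 2 / e * (N : ℝ) ^ e + (N : ℝ) ^ e := by ring
    linarith
  have h4 : (N : ℝ) ^ (e * k) ≤ (N : ℝ) ^ s := by
    refine Real.rpow_le_rpow_of_exponent_le hN1 ?_
    rw [he, div_mul_eq_mul_div, div_le_iff₀ hk]
    nlinarith
  calc (((Nat.log 2 N + 1) ^ k : ℕ) : ℝ) = ((Nat.log 2 N + 1 : ℕ) : ℝ) ^ k := by push_cast; ring
    _ ≤ ((2 / e + 1) * (N : ℝ) ^ e) ^ k := pow_le_pow_left₀ (Nat.cast_nonneg _) h3 k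
    _ = (2 / e + 1) ^ k * (N : ℝ) ^ (e * k) := by
        rw [mul_pow, ← Real.rpow_natCast ((N : ℝ) ^ e) k, ← Real.rpow_mul hN0.le]
    _ ≤ (2 / e + 1) ^ k * (N : ℝ) ^ s := mul_le_mul_of_nonneg_left h4 (by positivity)

/-- a small exponent -/
lemma exists_small {d κ ρ : ℝ} (hd : 1 ≤ d) (h : κ < ρ) : ∃ s : ℝ, 0 < s ∧ d * s + κ < ρ := by
  refine ⟨(ρ - κ) / (2 * d), div_pos (by linarith) (by linarith), ?_⟩
  have h1 : d * ((ρ - κ) / (2 * d)) = (ρ - κ) / 2 := by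
    field_simp
  rw [h1]
  linarith

end Pool.Agent.U536.CF
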