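import Mathlib
import Pool.Agent.U536.CF.Def
import Pool.Agent.U536.CF.E0

set_option autoImplicit false

/-! One exceptional set of integers `m`, for the integers `w ≥ exp ((log m)^b)` with a large common factor with `f m`
(helper536). -/

namespace Pool.Agent.U536.CF

open Finset

/-- **One exceptional set.** -/
theorem sparse_at (P : ℕ → ℕ → Prop) {f : ℕ → ℕ} {ρ b c : ℝ} (hb : b < 1) (hc0 : 0 ≤ c) (hcb : c < 2 * b - 1)
    (h : ∀ b' c' : ℝ, b' < 1 → 0 ≤ c' → c' < 2 * b' - 1 → ∃ N₀ : ℕ, ∀ N : ℕ, N₀ ≤ N →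
      ({m : ℕ | 1 ≤ m ∧ m ≤ N ∧ ∃ w : ℕ, Common f b' ρ N m w ∧ P m w}.ncard : ℝ) ≤
        N * Real.exp (-(Real.log N ^ c'))) :
    ∃ N₀ : ℕ, ∀ N : ℕ, N₀ ≤ N →
      ({m : ℕ | 1 ≤ m ∧ m ≤ N ∧ ∃ w : ℕ, Common f b ρ m m w ∧ P m w}.ncard : ℝ) ≤
        N * Real.exp (-(Real.log N ^ c)) := by
  obtain ⟨c₁, hc₁⟩ : ∃ c₁ : ℝ, c₁ = (c + (2 * b - 1)) / 2 := ⟨_, rfl⟩
  obtain ⟨b₁, hb₁⟩ : ∃ b₁ : ℝ, b₁ = ((1 + c₁) / 2 + b) / 2 := ⟨_, rfl⟩
  have hcc : c < c₁ := by rw [hc₁]; linarith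
  have hc₁b : c₁ < 2 * b - 1 := by rw [hc₁]; linarith
  have hbb : b₁ < b := by rw [hb₁]; linarith
  have hcb₁ : c₁ < 2 * b₁ - 1 := by rw [hb₁]; linarith
  obtain ⟨N₁, hN₁⟩ := h b₁ c₁ (by linarith) (by linarith) hcb₁
  have t1 : Filter.Tendsto (fun N : ℕ => Real.log (N : ℝ)) Filter.atTop Filter.atTop :=
    Real.tendsto_log_atTop.comp tendsto_natCast_atTop_atTop
  have g := t1.eventually (((ev hbb (2 ^ b)).and ((ev hcc 4).and (ev (show c < 1 by linarith) 4))).and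
    (Filter.eventually_ge_atTop (Real.exp 1)))
  obtain ⟨N₂, hN₂⟩ := Filter.eventually_atTop.1 g
  refine ⟨max (max N₁ N₂) 1, fun N hN => ?_⟩
  have hN1 : 1 ≤ N := (le_max_right _ _).trans hN
  have hNN₁ : N₁ ≤ N := ((le_max_left _ _).trans (le_max_left _ _)).trans hN
  have hNN₂ : N₂ ≤ N := ((le_max_right _ _).trans (le_max_left _ _)).trans hN
  obtain ⟨⟨g1, g2, g3⟩, g4⟩ := hN₂ N hNN₂
  have hN0 : (0 : ℝ) < N := by exact_mod_cast (by omega : 0 < N)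
  obtain ⟨L, hL⟩ : ∃ L : ℝ, L = Real.log N := ⟨_, rfl⟩
  rw [← hL] at g1 g2 g3 g4
  have hL1 : 1 ≤ Real.log L := by
    rw [← Real.log_exp 1]
    exact Real.log_le_log (Real.exp_pos _) g4
  have hLe : 1 ≤ L := le_trans (Real.one_le_exp (by norm_num)) g4
  have hL0 : 0 < L := by linarith
  have k1 : 2 ^ b * L ^ b₁ ≤ L ^ b := mul_l (by positivity) (by positivity) hL1 g1
  have k2 : 4 * L ^ c ≤ L ^ c₁ := mul_l (by norm_num) (by positivity) hL1 g2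
  have k3 : 4 * L ^ c ≤ L ^ (1 : ℝ) := mul_l (by norm_num) (by positivity) hL1 g3
  rw [Real.rpow_one] at k3
  have k4 : 1 ≤ L ^ c := Real.one_le_rpow hLe hc0
  have hsub : {m : ℕ | 1 ≤ m ∧ m ≤ N ∧ ∃ w : ℕ, Common f b ρ m m w ∧ P m w} ⊆
      ((Icc 1 (Nat.sqrt N) : Finset ℕ) : Set ℕ) ∪ {m : ℕ | 1 ≤ m ∧ m ≤ N ∧ ∃ w : ℕ, Common f b₁ ρ N m w ∧ P m w} := by
    rintro m ⟨h1, h2, w, h3, h4⟩
    rcases le_or_gt m (Nat.sqrt N) with hm | hm
    · left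
      rw [mem_coe, mem_Icc]
      exact ⟨h1, hm⟩
    · right
      refine ⟨h1, h2, w, ⟨le_trans ?_ h3.1, h3.2⟩, h4⟩
      apply Real.exp_le_exp.2
      have h5 : N < m * m := Nat.sqrt_lt.1 hm
      have h6 : (N : ℝ) ≤ (m : ℝ) * m := by exact_mod_cast h5.le
      have hm0 : (0 : ℝ) < m := by exact_mod_cast (by omega : 0 < m)
      have h7 : L ≤ Real.log m + Real.log m := by
        rw [hL, ← Real.log_mul hm0.ne' hm0.ne']
        exact Real.log_le_log hN0 h6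
      have h8 : L / 2 ≤ Real.log m := by linarith
      have hb0 : 0 ≤ b := by linarith
      rw [← hL]
      calc L ^ b₁ ≤ L ^ b / 2 ^ b := by
            rw [le_div_iff₀ (by positivity)]
            linarith
        _ = (L / 2) ^ b := (Real.div_rpow hL0.le (by norm_num) b).symm
        _ ≤ Real.log m ^ b := Real.rpow_le_rpow (by linarith) h8 hb0
  have hfin2 : {m : ℕ | 1 ≤ m ∧ m ≤ N ∧ ∃ w : ℕ, Common f b₁ ρ N m w ∧ P m w}.Finite :=
    (Set.finite_Icc 1 N).subset fun m hm => ⟨hm.1, hm.2.1⟩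
  have hle := (Set.ncard_le_ncard hsub ((finite_toSet _).union hfin2)).trans (Set.ncard_union_le _ _)
  rw [Set.ncard_coe_finset, Nat.card_Icc, Nat.add_sub_cancel] at hle
  have hle2 : (({m : ℕ | 1 ≤ m ∧ m ≤ N ∧ ∃ w : ℕ, Common f b ρ m m w ∧ P m w}.ncard : ℕ) : ℝ) ≤
      (Nat.sqrt N : ℝ) + N * Real.exp (-(L ^ c₁)) := by
    have := hN₁ N hNN₁
    rw [← hL] at this
    have h9 : (({m : ℕ | 1 ≤ m ∧ m ≤ N ∧ ∃ w : ℕ, Common f b ρ m m w ∧ P m w}.ncard : ℕ) : ℝ) ≤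
      (Nat.sqrt N : ℝ) + ({m : ℕ | 1 ≤ m ∧ m ≤ N ∧ ∃ w : ℕ, Common f b₁ ρ N m w ∧ P m w}.ncard : ℝ) := by
      exact_mod_cast hle
    linarith
  refine hle2.trans ?_
  rw [← hL]
  have hNL : (N : ℝ) = Real.exp L := by rw [hL, Real.exp_log hN0]
  have hs : (Nat.sqrt N : ℝ) ≤ Real.exp (L / 2) := by
    have h1 : ((Nat.sqrt N : ℕ) : ℝ) * (Nat.sqrt N : ℕ) ≤ N := by exact_mod_cast Nat.sqrt_le N
    have h2 : Real.exp (L / 2) * Real.exp (L / 2) = N := by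
      rw [← Real.exp_add, hNL]
      congr 1
      ring
    rw [← h2] at h1
    exact (mul_self_le_mul_self_iff (Nat.cast_nonneg _) (Real.exp_pos _).le).2 h1
  have e2 : (2 : ℝ) ≤ Real.exp (L ^ c) := by
    have h1 := Real.add_one_le_exp (L ^ c)
    linarith
  have hE : 0 < Real.exp (-(L ^ c)) := Real.exp_pos _
  have s1 : Real.exp (L / 2) ≤ 1 / 2 * (N * Real.exp (-(L ^ c))) := by
    have h1 : Real.exp (L / 2) * Real.exp (L ^ c) ≤ N * Real.exp (-(L ^ c)) := by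
      rw [hNL, ← Real.exp_add, ← Real.exp_add]
      apply Real.exp_le_exp.2
      linarith
    have h2 : Real.exp (L / 2) * 2 ≤ Real.exp (L / 2) * Real.exp (L ^ c) :=
      mul_le_mul_of_nonneg_left e2 (Real.exp_pos _).le
    linarith
  have s2 : N * Real.exp (-(L ^ c₁)) ≤ 1 / 2 * (N * Real.exp (-(L ^ c))) := by
    have h1 : Real.exp (-(L ^ c₁)) * Real.exp (L ^ c) ≤ Real.exp (-(L ^ c)) := by
      rw [← Real.exp_add]
      apply Real.exp_le_exp.2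
      linarith
    have h2 : Real.exp (-(L ^ c₁)) * 2 ≤ Real.exp (-(L ^ c₁)) * Real.exp (L ^ c) :=
      mul_le_mul_of_nonneg_left e2 (Real.exp_pos _).le
    have h3 : Real.exp (-(L ^ c₁)) ≤ 1 / 2 * Real.exp (-(L ^ c)) := by linarith
    calc N * Real.exp (-(L ^ c₁)) ≤ N * (1 / 2 * Real.exp (-(L ^ c))) := mul_le_mul_of_nonneg_left h3 hN0.le
      _ = _ := by ring
  linarith

end Pool.Agent.U536.CF
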