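import Pool.Agent.U536.CF.TN

set_option autoImplicit false

/-! From boxes to cubes (helper536). -/

namespace Pool.Agent.U536.CF

/-- a set with few elements in all boxes `x_s < |t_s| ≤ x_s + N` has few elements in the cubes -/
theorem cube_of_boxes {k : ℕ} (hk : 1 ≤ k) {e C : ℝ} (hC : 0 ≤ C) {P : (Fin k → ℤ) → Prop}
    (h : ∀ (x : Fin k → ℕ) (N : ℕ), 1 ≤ N → ∀ S : Finset (Fin k → ℤ),
      (∀ t ∈ S, (∀ s, (x s : ℤ) < |t s| ∧ |t s| ≤ x s + N) ∧ P t) →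
      (S.card : ℝ) ≤ C * (N : ℝ) ^ (k - 1) * ∑ s, (1 + N / ((x s : ℝ) + N) ^ e)) (T : ℕ) (hT : 1 ≤ T) :
    ({α : Fin k → ℤ | (∀ i, |α i| ≤ (T : ℤ)) ∧ α ∈ {α : Fin k → ℤ | P α}}.ncard : ℝ) ≤
      (k * 3 ^ (k - 1) + C * (k * 2)) * (T : ℝ) ^ ((k : ℝ) - min e 1) := by
  classical
  have hT1 : (1 : ℝ) ≤ T := by exact_mod_cast hT
  have hT0 : (0 : ℝ) < T := by linarith
  -- the tuples with a coordinate zero
  have hz : ∀ s : Fin k, {α : Fin k → ℤ | (∀ i, |α i| ≤ (T : ℤ)) ∧ α s = 0}.ncard ≤ (2 * T + 1) ^ (k - 1) := by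
    intro s
    have hsub : {α : Fin k → ℤ | (∀ i, |α i| ≤ (T : ℤ)) ∧ α s = 0} ⊆
        ((Fintype.piFinset fun i : Fin k => if i = s then ({0} : Finset ℤ) else Finset.Icc (-(T : ℤ)) T) :
          Set (Fin k → ℤ)) := by
      rintro α ⟨h1, h2⟩
      rw [Finset.mem_coe, Fintype.mem_piFinset]
      intro i
      by_cases hi : i = s
      · rw [if_pos hi, hi, h2]
        exact Finset.mem_singleton_self _
      · rw [if_neg hi, Finset.mem_Icc]
        exact abs_le.1 (h1 i)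
    refine (Set.ncard_le_ncard hsub (Finset.finite_toSet _)).trans ?_
    rw [Set.ncard_coe_finset, Fintype.card_piFinset, ← Finset.mul_prod_erase Finset.univ _ (Finset.mem_univ s), if_pos rfl,
      Finset.card_singleton, one_mul]
    refine le_of_eq ?_
    rw [Finset.prod_congr rfl (g := fun _ => 2 * T + 1) fun i hi => ?_, Finset.prod_const,
      Finset.card_erase_of_mem (Finset.mem_univ s), Finset.card_univ, Fintype.card_fin]
    rw [if_neg (Finset.ne_of_mem_erase hi), Int.card_Icc]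
    omega
  -- the others
  obtain ⟨S, hS⟩ : ∃ S : Finset (Fin k → ℤ), ∀ t, t ∈ S ↔ (∀ s, 0 < |t s| ∧ |t s| ≤ (T : ℤ)) ∧ P t := by
    refine ⟨(Fintype.piFinset fun _ : Fin k => Finset.Icc (-(T : ℤ)) T).filter
      fun t => (∀ s, 0 < |t s| ∧ |t s| ≤ (T : ℤ)) ∧ P t, fun t => ?_⟩
    rw [Finset.mem_filter, Fintype.mem_piFinset]
    refine ⟨fun h1 => h1.2, fun h1 => ⟨fun i => ?_, h1⟩⟩
    rw [Finset.mem_Icc]
    exact abs_le.1 (h1.1 i).2
  have hS1 := h (fun _ => 0) T hT S (fun t ht => ⟨fun s => by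
    have h1 := ((hS t).1 ht).1 s
    exact ⟨by simpa using h1.1, by simpa using h1.2⟩, ((hS t).1 ht).2⟩)
  have hsum : ∑ s : Fin k, (1 + (T : ℝ) / ((((fun _ : Fin k => (0 : ℕ)) s : ℕ) : ℝ) + T) ^ e) =
      k * (1 + (T : ℝ) ^ (1 - e)) := by
    rw [Finset.sum_congr rfl (g := fun _ => 1 + (T : ℝ) ^ (1 - e)) fun s _ => ?_, Finset.sum_const, Finset.card_univ,
      Fintype.card_fin, nsmul_eq_mul]
    rw [Nat.cast_zero, zero_add, Real.rpow_sub hT0, Real.rpow_one]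
  rw [hsum] at hS1
  have hsub : {α : Fin k → ℤ | (∀ i, |α i| ≤ (T : ℤ)) ∧ α ∈ {α : Fin k → ℤ | P α}} ⊆
      (⋃ s : Fin k, {α : Fin k → ℤ | (∀ i, |α i| ≤ (T : ℤ)) ∧ α s = 0}) ∪ (S : Set (Fin k → ℤ)) := by
    rintro α ⟨h1, h2⟩
    by_cases h3 : ∃ s, α s = 0
    · obtain ⟨s, hs⟩ := h3
      exact Or.inl (Set.mem_iUnion.2 ⟨s, h1, hs⟩)
    · push Not at h3
      exact Or.inr ((hS α).2 ⟨fun s => ⟨abs_pos.2 (h3 s), h1 s⟩, h2⟩)
  have hfin1 : ∀ s : Fin k, {α : Fin k → ℤ | (∀ i, |α i| ≤ (T : ℤ)) ∧ α s = 0}.Finite := fun s =>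
    (Set.Finite.pi' (t := fun _ : Fin k => Set.Icc (-(T : ℤ)) T) fun _ => Set.finite_Icc _ _).subset
      fun α hα i => abs_le.1 (hα.1 i)
  have hfin2 := (Set.finite_iUnion hfin1).union (Finset.finite_toSet S)
  have h1 : {α : Fin k → ℤ | (∀ i, |α i| ≤ (T : ℤ)) ∧ α ∈ {α : Fin k → ℤ | P α}}.ncard ≤
      k * (2 * T + 1) ^ (k - 1) + S.card := by
    refine (Set.ncard_le_ncard hsub hfin2).trans ((Set.ncard_union_le _ _).trans ?_)
    rw [Set.ncard_coe_finset]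
    refine Nat.add_le_add_right ?_ _
    have h2 : (⋃ s : Fin k, {α : Fin k → ℤ | (∀ i, |α i| ≤ (T : ℤ)) ∧ α s = 0}) =
        ((Finset.univ.biUnion fun s : Fin k => (hfin1 s).toFinset : Finset (Fin k → ℤ)) : Set (Fin k → ℤ)) := by
      ext α
      simp
    rw [h2, Set.ncard_coe_finset]
    refine Finset.card_biUnion_le.trans ?_
    refine (Finset.sum_le_card_nsmul _ _ ((2 * T + 1) ^ (k - 1)) fun s _ => ?_).trans ?_
    · rw [← Set.ncard_eq_toFinset_card _ (hfin1 s)]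
      exact hz s
    · rw [Finset.card_univ, Fintype.card_fin, smul_eq_mul]
  obtain ⟨e', he'⟩ : ∃ e' : ℝ, e' = min e 1 := ⟨_, rfl⟩
  have he1 : e' ≤ 1 := by rw [he']; exact min_le_right _ _
  have he2 : e' ≤ e := by rw [he']; exact min_le_left _ _
  have hTk : ((T : ℝ)) ^ (k - 1) * (T : ℝ) ^ (1 - e') = (T : ℝ) ^ ((k : ℝ) - e') := by
    rw [← Real.rpow_natCast, ← Real.rpow_add hT0, Nat.cast_sub hk, Nat.cast_one]
    congr 1
    ring
  have h2 : (1 : ℝ) ≤ (T : ℝ) ^ (1 - e') := Real.one_le_rpow hT1 (by linarith)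
  have h3 : (T : ℝ) ^ (1 - e) ≤ (T : ℝ) ^ (1 - e') := Real.rpow_le_rpow_of_exponent_le hT1 (by linarith)
  have h4 : (0 : ℝ) ≤ (T : ℝ) ^ (k - 1) := by positivity
  rw [← he']
  calc (({α : Fin k → ℤ | (∀ i, |α i| ≤ (T : ℤ)) ∧ α ∈ {α : Fin k → ℤ | P α}}.ncard : ℕ) : ℝ)
      ≤ ((k * (2 * T + 1) ^ (k - 1) + S.card : ℕ) : ℝ) := by exact_mod_cast h1
    _ = k * (2 * (T : ℝ) + 1) ^ (k - 1) + S.card := by push_cast; ring
    _ ≤ k * (3 * (T : ℝ)) ^ (k - 1) + C * (T : ℝ) ^ (k - 1) * (k * (1 + (T : ℝ) ^ (1 - e))) :=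
        add_le_add (mul_le_mul_of_nonneg_left (pow_le_pow_left₀ (by positivity) (by linarith) _) (Nat.cast_nonneg _)) hS1
    _ ≤ k * 3 ^ (k - 1) * ((T : ℝ) ^ (k - 1) * (T : ℝ) ^ (1 - e')) +
          C * (k * 2) * ((T : ℝ) ^ (k - 1) * (T : ℝ) ^ (1 - e')) := by
        refine add_le_add ?_ ?_
        · rw [mul_pow]
          have h5 : (T : ℝ) ^ (k - 1) ≤ (T : ℝ) ^ (k - 1) * (T : ℝ) ^ (1 - e') := le_mul_of_one_le_right h4 h2
          have h6 := mul_le_mul_of_nonneg_left h5 (show (0 : ℝ) ≤ k * 3 ^ (k - 1) by positivity)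
          linarith
        · have h5 : (k : ℝ) * (1 + (T : ℝ) ^ (1 - e)) ≤ k * 2 * (T : ℝ) ^ (1 - e') := by
            have h7 : (1 : ℝ) + (T : ℝ) ^ (1 - e) ≤ 2 * (T : ℝ) ^ (1 - e') := by linarith
            have h8 := mul_le_mul_of_nonneg_left h7 (Nat.cast_nonneg (α := ℝ) k)
            linarith
          have h6 := mul_le_mul_of_nonneg_left h5 (mul_nonneg hC h4)
          linarith
    _ = _ := by rw [hTk]; ring

end Pool.Agent.U536.CF
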