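import Pool.Agent.U536.CF.Sc

set_option autoImplicit false

/-! Weyl sums to prime moduli: all lengths at once (helper536). -/

namespace Pool.Agent.U536.CF

open Finset

/-- **Montgomery's bound with the exponent `η` modulo `q`, for all lengths.** For all `M ≥ (2 q)^(1 + 2 η)`, all `P = a_2 x^2 + …
+ a_k x^k ≠ 0` with integers `0 ≤ a_i < q`, all real `ξ` and all `u`, `v` with `v ≤ M`, the sum of
`a_n e(P(n) / q + ξ n)` over `u < n ≤ v` is at most `4 M^(1 + ε) q^(-η)` in absolute value. -/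
def WeylBound (k : ℕ) (η ε : ℝ) (a : ℕ → ℂ) (q : ℕ) : Prop :=
  ∀ M : ℕ, (2 * (q : ℝ)) ^ (1 + 2 * η) ≤ M → ∀ P : Polynomial ℤ, P ≠ 0 → P.natDegree ≤ k → P.coeff 0 = 0 →
    P.coeff 1 = 0 → (∀ i, 0 ≤ P.coeff i ∧ P.coeff i < q) → ∀ (ξ : ℝ) (u v : ℕ), v ≤ M →
    ‖∑ n ∈ Finset.Ioc u v, a n * Complex.exp (2 * (Real.pi : ℂ) * Complex.I *
      ((((P.eval (n : ℤ) : ℤ) : ℝ) / (q : ℝ) + ξ * (n : ℝ) : ℝ) : ℂ))‖ ≤ 4 * ((M : ℝ) ^ (1 + ε) / (q : ℝ) ^ η)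

/-- the counting of the exceptional pairs of a prime in `(Q, 2 Q]` and a polynomial, for one length `N` -/
def WeylCount (k : ℕ) (η ε : ℝ) (N₀ : ℕ) : Prop :=
  ∀ N : ℕ, N₀ ≤ N → ∀ Q : ℕ, (2 * (Q : ℝ)) ^ (1 + 2 * η) ≤ (N : ℝ) → ∀ c : ℕ → ℂ, (∀ n, ‖c n‖ ≤ 1) →
      ∀ S : Finset (ℕ × Polynomial ℤ),
      (∀ s ∈ S, s.1.Prime ∧ Q < s.1 ∧ s.1 ≤ 2 * Q ∧ s.2 ≠ 0 ∧ s.2.natDegree ≤ k ∧
        s.2.coeff 0 = 0 ∧ s.2.coeff 1 = 0 ∧ ∀ i, 0 ≤ s.2.coeff i ∧ s.2.coeff i < s.1) →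
      (∀ s ∈ S, ∃ (ξ : ℝ) (u v : ℕ), v ≤ N ∧ (N : ℝ) ^ (1 + ε) / (s.1 : ℝ) ^ η <
        ‖∑ n ∈ Finset.Ioc u v, c n * Complex.exp (2 * (Real.pi : ℂ) * Complex.I *
          ((((s.2.eval (n : ℤ) : ℤ) : ℝ) / (s.1 : ℝ) + ξ * (n : ℝ) : ℝ) : ℂ))‖) →
      (S.card : ℝ) ≤ 2 * (2 * (Q : ℝ)) ^ (2 * η) / (N : ℝ) ^ (2 * ε)

lemma pow_two_near (M : ℕ) (hM : 1 ≤ M) : ∃ j : ℕ, M ≤ 2 ^ j ∧ 2 ^ j < 2 * M := by
  induction M, hM using Nat.le_induction with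
  | base => exact ⟨0, by norm_num, by norm_num⟩
  | succ M hM ih =>
    obtain ⟨j, h1, h2⟩ := ih
    rcases Nat.lt_or_ge M (2 ^ j) with h3 | h3
    · exact ⟨j, h3, by omega⟩
    · have h4 : 2 ^ j = M := le_antisymm h3 h1
      exact ⟨j + 1, by rw [pow_succ, h4]; omega, by rw [pow_succ, h4]; omega⟩

/-- the number of the exceptional primes in `(Q, 2 Q]`, for all lengths -/
theorem weyl_primes {k : ℕ} {η ε : ℝ} (hη : 0 ≤ η) (hε : 0 < ε) (hε1 : ε ≤ 1) {N₀ : ℕ} (h : WeylCount k η ε N₀)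
    (a : ℕ → ℂ) (ha : ∀ n, ‖a n‖ ≤ 1) (Q : ℕ) (hQ : N₀ + 1 ≤ Q) :
    ({q : ℕ | q.Prime ∧ Q < q ∧ q ≤ 2 * Q ∧ ¬ WeylBound k η ε a q}.ncard : ℝ) ≤
      2 * (1 - (4 : ℝ) ^ (-ε))⁻¹ * (2 * (Q : ℝ)) ^ (2 * η) := by
  classical
  have hQ0 : (0 : ℝ) < Q := by
    have : 0 < Q := by omega
    exact_mod_cast this
  have hfin : {q : ℕ | q.Prime ∧ Q < q ∧ q ≤ 2 * Q ∧ ¬ WeylBound k η ε a q}.Finite :=
    (Set.finite_Icc 0 (2 * Q)).subset fun q hq => ⟨Nat.zero_le _, hq.2.2.1⟩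
  obtain ⟨T, hT⟩ : ∃ T : Finset ℕ, T = hfin.toFinset := ⟨_, rfl⟩
  have hmem : ∀ q, q ∈ T ↔ q.Prime ∧ Q < q ∧ q ≤ 2 * Q ∧ ¬ WeylBound k η ε a q := fun q => by
    rw [hT, Set.Finite.mem_toFinset]
    rfl
  have hncard : {q : ℕ | q.Prime ∧ Q < q ∧ q ≤ 2 * Q ∧ ¬ WeylBound k η ε a q}.ncard = T.card := by
    rw [hT, Set.ncard_eq_toFinset_card _ hfin]
  rw [hncard]
  -- the choice of a dyadic length and a polynomial
  have hch : ∀ q ∈ T, ∃ (j : ℕ) (P : Polynomial ℤ), (2 * (Q : ℝ)) ^ (1 + 2 * η) ≤ ((2 ^ j : ℕ) : ℝ) ∧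
      P ≠ 0 ∧ P.natDegree ≤ k ∧ P.coeff 0 = 0 ∧ P.coeff 1 = 0 ∧ (∀ i, 0 ≤ P.coeff i ∧ P.coeff i < q) ∧
      ∃ (ξ : ℝ) (u v : ℕ), v ≤ 2 ^ j ∧ (((2 ^ j : ℕ) : ℝ)) ^ (1 + ε) / (q : ℝ) ^ η <
        ‖∑ n ∈ Finset.Ioc u v, a n * Complex.exp (2 * (Real.pi : ℂ) * Complex.I *
          ((((P.eval (n : ℤ) : ℤ) : ℝ) / (q : ℝ) + ξ * (n : ℝ) : ℝ) : ℂ))‖ := by
    intro q hq
    obtain ⟨h1, h2, h3, h4⟩ := (hmem q).1 hq
    unfold WeylBound at h4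
    push Not at h4
    obtain ⟨M, hM, P, hP0, hPk, hP1, hP2, hP3, ξ, u, v, hv, hlt⟩ := h4
    have hq0 : (0 : ℝ) < q := by exact_mod_cast h1.pos
    have hM1 : 1 ≤ M := by
      rcases Nat.eq_zero_or_pos M with h5 | h5
      · rw [h5, Nat.cast_zero] at hM
        have : (0 : ℝ) < (2 * (q : ℝ)) ^ (1 + 2 * η) := by positivity
        linarith
      · exact h5
    obtain ⟨j, hj1, hj2⟩ := pow_two_near M hM1
    have hMr : (1 : ℝ) ≤ M := by exact_mod_cast hM1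
    have hj1' : (M : ℝ) ≤ ((2 ^ j : ℕ) : ℝ) := by exact_mod_cast hj1
    have hj2' : (((2 ^ j : ℕ) : ℝ)) ≤ 2 * M := by exact_mod_cast hj2.le
    refine ⟨j, P, ?_, hP0, hPk, hP1, hP2, hP3, ξ, u, v, hv.trans hj1, ?_⟩
    · refine le_trans ?_ (hM.trans hj1')
      refine Real.rpow_le_rpow (by positivity) ?_ (by positivity)
      have : (Q : ℝ) ≤ q := by exact_mod_cast h2.le
      linarith
    · refine lt_of_le_of_lt ?_ hlt
      rw [← mul_div_assoc]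
      refine div_le_div_of_nonneg_right ?_ (by positivity)
      calc (((2 ^ j : ℕ) : ℝ)) ^ (1 + ε) ≤ (2 * (M : ℝ)) ^ (1 + ε) :=
            Real.rpow_le_rpow (by positivity) hj2' (by positivity)
        _ = 2 ^ (1 + ε) * (M : ℝ) ^ (1 + ε) := Real.mul_rpow (by norm_num) (by positivity)
        _ ≤ 4 * (M : ℝ) ^ (1 + ε) := by
            refine mul_le_mul_of_nonneg_right ?_ (by positivity)
            have h6 : (2 : ℝ) ^ (1 + ε) ≤ 2 ^ (2 : ℝ) := Real.rpow_le_rpow_of_exponent_le (by norm_num) (by linarith)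
            have h7 : (2 : ℝ) ^ (2 : ℝ) = 4 := by norm_num
            linarith
  choose! J Pf hJ hP0 hPk hP1 hP2 hP3 hbad using hch
  have hr0 : (0 : ℝ) ≤ (4 : ℝ) ^ (-ε) := by positivity
  have hr1 : (4 : ℝ) ^ (-ε) < 1 := Real.rpow_lt_one_of_one_lt_of_neg (by norm_num) (by linarith)
  have hcard : ∀ j ∈ T.image J, (((T.filter fun q => J q = j).card : ℕ) : ℝ) ≤
      2 * (2 * (Q : ℝ)) ^ (2 * η) * ((4 : ℝ) ^ (-ε)) ^ j := by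
    intro j hj
    obtain ⟨q₁, hq₁, hq₁j⟩ := Finset.mem_image.1 hj
    have hN : (2 * (Q : ℝ)) ^ (1 + 2 * η) ≤ ((2 ^ j : ℕ) : ℝ) := by
      rw [← hq₁j]
      exact hJ q₁ hq₁
    have hN0 : N₀ ≤ 2 ^ j := by
      have h5 : (2 * (Q : ℝ)) ^ (1 : ℝ) ≤ (2 * (Q : ℝ)) ^ (1 + 2 * η) := by
        refine Real.rpow_le_rpow_of_exponent_le ?_ (by linarith)
        have : (1 : ℝ) ≤ Q := by
          have : 1 ≤ Q := by omega
          exact_mod_cast this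
        linarith
      rw [Real.rpow_one] at h5
      have h6 : (N₀ : ℝ) ≤ Q := by
        have : N₀ ≤ Q := by omega
        exact_mod_cast this
      have h7 : (N₀ : ℝ) ≤ ((2 ^ j : ℕ) : ℝ) := by linarith
      exact_mod_cast h7
    have h8 := h (2 ^ j) hN0 Q hN a ha ((T.filter fun q => J q = j).image fun q => (q, Pf q)) ?_ ?_
    · rw [Finset.card_image_of_injective _ (fun x y hxy => congrArg Prod.fst hxy)] at h8
      refine h8.trans (le_of_eq ?_)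
      rw [div_eq_mul_inv]
      congr 1
      rw [← Real.rpow_natCast, ← Real.rpow_mul (by norm_num), ← Real.rpow_neg (by positivity)]
      push_cast
      rw [← Real.rpow_natCast, ← Real.rpow_mul (by norm_num), show (4 : ℝ) = 2 ^ (2 : ℝ) by norm_num,
        ← Real.rpow_mul (by norm_num)]
      congr 1
      ring
    · intro s hs
      obtain ⟨q, hq, rfl⟩ := Finset.mem_image.1 hs
      obtain ⟨hq1, hq2⟩ := Finset.mem_filter.1 hq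
      obtain ⟨g1, g2, g3, _⟩ := (hmem q).1 hq1
      exact ⟨g1, g2, g3, hP0 q hq1, hPk q hq1, hP1 q hq1, hP2 q hq1, hP3 q hq1⟩
    · intro s hs
      obtain ⟨q, hq, rfl⟩ := Finset.mem_image.1 hs
      obtain ⟨hq1, hq2⟩ := Finset.mem_filter.1 hq
      obtain ⟨ξ, u, v, g1, g2⟩ := hbad q hq1
      rw [hq2] at g1 g2
      exact ⟨ξ, u, v, g1, g2⟩
  rw [Finset.card_eq_sum_card_image J T, Nat.cast_sum]
  refine (Finset.sum_le_sum hcard).trans ?_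
  rw [← Finset.mul_sum]
  have h9 : ∑ j ∈ T.image J, ((4 : ℝ) ^ (-ε)) ^ j ≤ (1 - (4 : ℝ) ^ (-ε))⁻¹ := by
    rw [← tsum_geometric_of_lt_one hr0 hr1]
    exact (summable_geometric_of_lt_one hr0 hr1).sum_le_tsum _ fun i _ => by positivity
  have h10 : (0 : ℝ) ≤ 2 * (2 * (Q : ℝ)) ^ (2 * η) := by positivity
  have h11 := mul_le_mul_of_nonneg_left h9 h10
  linarith

/-- the number of the exceptional primes in `(N / 2, N]` -/
theorem weyl_scale {k : ℕ} {η ε : ℝ} (hη : 0 ≤ η) (hε : 0 < ε) (hε1 : ε ≤ 1) {N₀ : ℕ} (h : WeylCount k η ε N₀)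
    (a : ℕ → ℂ) (ha : ∀ n, ‖a n‖ ≤ 1) (N : ℕ) (hN : 2 * N₀ + 2 ≤ N) :
    ({q : ℕ | 1 ≤ q ∧ q ≤ N ∧ (N < 2 * q ∧ q.Prime ∧ ¬ WeylBound k η ε a q)}.ncard : ℝ) ≤
      (2 * (1 - (4 : ℝ) ^ (-ε))⁻¹ + 1) * (N : ℝ) ^ (2 * η) := by
  classical
  have h1 := weyl_primes hη hε hε1 h a ha (N / 2) (by omega)
  have hsub : {q : ℕ | 1 ≤ q ∧ q ≤ N ∧ (N < 2 * q ∧ q.Prime ∧ ¬ WeylBound k η ε a q)} ⊆
      insert N {q : ℕ | q.Prime ∧ N / 2 < q ∧ q ≤ 2 * (N / 2) ∧ ¬ WeylBound k η ε a q} := by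
    rintro q ⟨_, g2, g3, g4, g5⟩
    rcases Nat.lt_or_ge q N with g6 | g6
    · exact Or.inr ⟨g4, by omega, by omega, g5⟩
    · exact Or.inl (le_antisymm g2 g6)
  have hfin : {q : ℕ | q.Prime ∧ N / 2 < q ∧ q ≤ 2 * (N / 2) ∧ ¬ WeylBound k η ε a q}.Finite :=
    (Set.finite_Icc 0 (2 * (N / 2))).subset fun q hq => ⟨Nat.zero_le _, hq.2.2.1⟩
  have h2 : {q : ℕ | 1 ≤ q ∧ q ≤ N ∧ (N < 2 * q ∧ q.Prime ∧ ¬ WeylBound k η ε a q)}.ncard ≤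
      {q : ℕ | q.Prime ∧ N / 2 < q ∧ q ≤ 2 * (N / 2) ∧ ¬ WeylBound k η ε a q}.ncard + 1 :=
    (Set.ncard_le_ncard hsub (hfin.insert N)).trans (Set.ncard_insert_le _ _)
  have h3 : (({q : ℕ | 1 ≤ q ∧ q ≤ N ∧ (N < 2 * q ∧ q.Prime ∧ ¬ WeylBound k η ε a q)}.ncard : ℕ) : ℝ) ≤
      (({q : ℕ | q.Prime ∧ N / 2 < q ∧ q ≤ 2 * (N / 2) ∧ ¬ WeylBound k η ε a q}.ncard : ℕ) : ℝ) + 1 := by
    exact_mod_cast h2
  have hN1 : (1 : ℝ) ≤ N := by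
    have : 1 ≤ N := by omega
    exact_mod_cast this
  have h4 : (2 * (((N / 2 : ℕ) : ℕ) : ℝ)) ^ (2 * η) ≤ (N : ℝ) ^ (2 * η) := by
    refine Real.rpow_le_rpow (by positivity) ?_ (by positivity)
    have : 2 * (N / 2) ≤ N := Nat.mul_div_le N 2
    exact_mod_cast this
  have hr1 : (4 : ℝ) ^ (-ε) < 1 := Real.rpow_lt_one_of_one_lt_of_neg (by norm_num) (by linarith)
  have h5 : (0 : ℝ) ≤ 2 * (1 - (4 : ℝ) ^ (-ε))⁻¹ := by
    have : (0 : ℝ) < 1 - (4 : ℝ) ^ (-ε) := by linarith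
    positivity
  have h6 := mul_le_mul_of_nonneg_left h4 h5
  have h7 : (1 : ℝ) ≤ (N : ℝ) ^ (2 * η) := Real.one_le_rpow hN1 (by positivity)
  linarith

/-- **The hypothesis `H_k(1/k)` at the translates of `t`.** For all `1 ≤ b < q`, all `M ≥ (2 q)^(1 + 2 / k)` and all `ξ`, the
sum of `e((t + b / q) n^k + ξ n)` over `n ≤ M` is at most `4 M^(1 + ε) (1 / q + 1 / M + q / M^k)^(1 / k)`. -/
def MontgomeryAt (k : ℕ) (ε t : ℝ) (q : ℕ) : Prop :=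
  ∀ b : ℕ, 1 ≤ b → b < q → ∀ M : ℕ, (2 * (q : ℝ)) ^ (1 + 2 / (k : ℝ)) ≤ M → ∀ ξ : ℝ,
    ‖∑ n ∈ Finset.Icc 1 M, Complex.exp (2 * (Real.pi : ℂ) * Complex.I *
      (((t + (b : ℝ) / (q : ℝ)) * (n : ℝ) ^ k + ξ * (n : ℝ) : ℝ) : ℂ))‖ ≤
      4 * (M : ℝ) ^ (1 + ε) * (1 / (q : ℝ) + 1 / (M : ℝ) + (q : ℝ) / (M : ℝ) ^ k) ^ (1 / (k : ℝ))

/-- the weights `e(t n^k)` -/
noncomputable def weylWeight (k : ℕ) (t : ℝ) (n : ℕ) : ℂ :=
  Complex.exp (2 * (Real.pi : ℂ) * Complex.I * ((t * (n : ℝ) ^ k : ℝ) : ℂ))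

lemma norm_weylWeight (k : ℕ) (t : ℝ) (n : ℕ) : ‖weylWeight k t n‖ ≤ 1 := by
  unfold weylWeight
  have h : (2 * (Real.pi : ℂ) * Complex.I * ((t * (n : ℝ) ^ k : ℝ) : ℂ)) =
      ((2 * Real.pi * (t * (n : ℝ) ^ k) : ℝ) : ℂ) * Complex.I := by
    push_cast
    ring
  rw [h, Complex.norm_exp_ofReal_mul_I]

theorem montgomery_of_weyl {k : ℕ} (hk : 2 ≤ k) {ε t : ℝ} {q : ℕ} (hq : 1 ≤ q)
    (h : WeylBound k (1 / k) ε (weylWeight k t) q) : MontgomeryAt k ε t q := by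
  intro b hb hbq M hM ξ
  have hq0 : (0 : ℝ) < q := by exact_mod_cast hq
  have hk0 : (0 : ℝ) < k := by
    have : 0 < k := by omega
    exact_mod_cast this
  have hM' : (2 * (q : ℝ)) ^ (1 + 2 * (1 / (k : ℝ))) ≤ M := by
    rw [mul_one_div]
    exact hM
  have hM0 : (0 : ℝ) < M := lt_of_lt_of_le (by positivity) hM
  have h1 := h M hM' (Polynomial.monomial k (b : ℤ)) ?_ (Polynomial.natDegree_monomial_le _) ?_ ?_ ?_ ξ 0 M le_rfl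
  · have h2 : ∑ n ∈ Finset.Ioc 0 M, weylWeight k t n * Complex.exp (2 * (Real.pi : ℂ) * Complex.I *
        (((((Polynomial.monomial k (b : ℤ)).eval (n : ℤ) : ℤ) : ℝ) / (q : ℝ) + ξ * (n : ℝ) : ℝ) : ℂ)) =
        ∑ n ∈ Finset.Icc 1 M, Complex.exp (2 * (Real.pi : ℂ) * Complex.I *
          (((t + (b : ℝ) / (q : ℝ)) * (n : ℝ) ^ k + ξ * (n : ℝ) : ℝ) : ℂ)) := by
      refine Finset.sum_congr (by ext n; simp [Nat.lt_iff_add_one_le]) fun n _ => ?_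
      unfold weylWeight
      rw [← Complex.exp_add, Polynomial.eval_monomial]
      congr 1
      push_cast
      ring
    rw [h2] at h1
    refine h1.trans ?_
    rw [mul_assoc]
    refine mul_le_mul_of_nonneg_left ?_ (by norm_num)
    rw [div_eq_mul_inv]
    refine mul_le_mul_of_nonneg_left ?_ (by positivity)
    rw [← Real.rpow_neg hq0.le, Real.rpow_neg_eq_inv_rpow, ← one_div]
    refine Real.rpow_le_rpow (by positivity) ?_ (by positivity)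
    have h3 : (0 : ℝ) ≤ 1 / (M : ℝ) := by positivity
    have h4 : (0 : ℝ) ≤ (q : ℝ) / (M : ℝ) ^ k := by positivity
    linarith
  · intro h0
    rw [Polynomial.monomial_eq_zero_iff] at h0
    omega
  · rw [Polynomial.coeff_monomial, if_neg (by omega)]
  · rw [Polynomial.coeff_monomial, if_neg (by omega)]
  · intro i
    rw [Polynomial.coeff_monomial]
    split_ifs
    · exact ⟨by omega, by omega⟩
    · exact ⟨le_rfl, by omega⟩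

end Pool.Agent.U536.CF
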