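import Pool.Agent.U536.CF.TU
import Pool.Agent.N578.TG.Pairs

set_option autoImplicit false

/-! Pairs of heights near pairs of integers with large common factors with `F 0 (m 0)`, `F 1 (m 1)` (helper536). -/

namespace Pool.Agent.U536.CF

open Finset
open Pool.Agent.N733.TG (LM)
open Pool.Agent.N578.TG (window_nat)

/-- **Pairs.** `S` has at most `C X ^ ρ` elements with both heights at most `X`, and `ρ + κ₁ + κ₂ < 2`, `0 ≤ κ_i ≤ 1`. For an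
exponent `ρ' < 1`, for all pairs `(m₁, m₂)`, `m_i ≤ N`, but `N² exp (-(log N)^c)`, no element of `S` has its heights within
`w_i^(κ_i)` of `w_i` for a pair `w` of integers `w_i ≥ exp ((log N)^b)` with `gcd(w_i, F_i(m_i)) ≥ max(w_1, w_2)^ρ'`. -/
theorem common_pairs {Z : Type*} (S : Set Z) (h₁ h₂ : Z → ℝ) {ρ κ₁ κ₂ : ℝ} (hρ : 0 ≤ ρ) (hκ₁ : 0 ≤ κ₁) (hκ₁' : κ₁ ≤ 1)
    (hκ₂ : 0 ≤ κ₂) (hκ₂' : κ₂ ≤ 1) {ρ' : ℝ} (hρ'0 : 0 < ρ') (hρ'1 : ρ' ≤ 1) (hsum : 2 * (1 - ρ') < 2 - (ρ + κ₁ + κ₂)) (C : ℝ)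
    (hS : ∀ X : ℝ, 1 ≤ X → {z | z ∈ S ∧ h₁ z ≤ X ∧ h₂ z ≤ X}.Finite ∧
      ({z | z ∈ S ∧ h₁ z ≤ X ∧ h₂ z ≤ X}.ncard : ℝ) ≤ C * X ^ ρ)
    {F : Fin 2 → ℕ → ℕ} (hF : ∀ i, LM (F i)) {b₁ c₁ : ℝ} (hb₁ : b₁ < 1) (hc₁ : 0 ≤ c₁) (hcb₁ : c₁ < 2 * b₁ - 1) :
    ∃ N₀ : ℕ, ∀ N : ℕ, N₀ ≤ N →
      ({m : Fin 2 → ℕ | (∀ i, 1 ≤ m i ∧ m i ≤ N) ∧ ¬ ∀ w : Fin 2 → ℕ, CommonT F b₁ ρ' N m w → ∀ z ∈ S,
        |h₁ z - w 0| ≤ (w 0 : ℝ) ^ κ₁ → ¬ |h₂ z - w 1| ≤ (w 1 : ℝ) ^ κ₂}.ncard : ℝ) ≤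
        (N : ℝ) ^ 2 * Real.exp (-(Real.log N ^ c₁)) := by
  classical
  obtain ⟨c, hc⟩ : ∃ c : ℝ, c = 2 - (ρ + κ₁ + κ₂) := ⟨_, rfl⟩
  obtain ⟨N₀, hN₀⟩ := avoidT (k := 2) (by norm_num) hF hρ'0 hρ'1 (c₀ := c) (by rw [hc]; push_cast; exact hsum)
    (9 * (|C| * 2 ^ ρ)) hb₁ hc₁ hcb₁
  refine ⟨N₀, fun N hN => ?_⟩
  obtain ⟨W, hW⟩ : ∃ W : Set (Fin 2 → ℕ), W = {w | ∃ z ∈ S, |h₁ z - w 0| ≤ (w 0 : ℝ) ^ κ₁ ∧
    |h₂ z - w 1| ≤ (w 1 : ℝ) ^ κ₂} := ⟨_, rfl⟩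
  have h1 := hN₀ N hN W (fun X hX => ?_)
  · refine le_trans ?_ h1
    have hfin : {m : Fin 2 → ℕ | (∀ i, 1 ≤ m i ∧ m i ≤ N) ∧ ∃ w ∈ W, CommonT F b₁ ρ' N m w}.Finite := by
      refine (Set.Finite.pi' (fun _ : Fin 2 => Set.finite_Icc 1 N)).subset ?_
      intro m hm i
      exact hm.1 i
    have hsub : {m : Fin 2 → ℕ | (∀ i, 1 ≤ m i ∧ m i ≤ N) ∧ ¬ ∀ w : Fin 2 → ℕ, CommonT F b₁ ρ' N m w → ∀ z ∈ S,
        |h₁ z - w 0| ≤ (w 0 : ℝ) ^ κ₁ → ¬ |h₂ z - w 1| ≤ (w 1 : ℝ) ^ κ₂} ⊆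
        {m : Fin 2 → ℕ | (∀ i, 1 ≤ m i ∧ m i ≤ N) ∧ ∃ w ∈ W, CommonT F b₁ ρ' N m w} := by
      rintro m ⟨h2, h3⟩
      push Not at h3
      obtain ⟨w, hw, z, hz, h4, h5⟩ := h3
      refine ⟨h2, w, ?_, hw⟩
      rw [hW]
      exact ⟨z, hz, h4, h5⟩
    exact_mod_cast Set.ncard_le_ncard hsub hfin
  · have hX1 : (1 : ℝ) ≤ X := by exact_mod_cast hX
    obtain ⟨hfin, hcard⟩ := hS (2 * X) (by linarith)
    obtain ⟨V, hV⟩ : ∃ V : Z → Finset (Fin 2 → ℕ), V = fun z => (Fintype.piFinset fun _ : Fin 2 => Icc 1 X).filter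
      (fun w => |h₁ z - w 0| ≤ (w 0 : ℝ) ^ κ₁ ∧ |h₂ z - w 1| ≤ (w 1 : ℝ) ^ κ₂) := ⟨_, rfl⟩
    have hsub : {w : Fin 2 → ℕ | (∀ i, 2 ≤ w i ∧ w i ≤ X) ∧ w ∈ W} ⊆
        ((hfin.toFinset.biUnion V : Finset (Fin 2 → ℕ)) : Set (Fin 2 → ℕ)) := by
      rintro w ⟨hw1, hw2⟩
      rw [hW] at hw2
      obtain ⟨z, hz, h3, h4⟩ := hw2
      have hwr : ∀ i, (1 : ℝ) ≤ w i ∧ (w i : ℝ) ≤ X := fun i =>
        ⟨by exact_mod_cast (by have := (hw1 i).1; omega : 1 ≤ w i), by exact_mod_cast (hw1 i).2⟩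
      have e : ∀ (i : Fin 2) (κ : ℝ), κ ≤ 1 → (w i : ℝ) ^ κ ≤ X := by
        intro i κ hκ
        calc (w i : ℝ) ^ κ ≤ (w i : ℝ) ^ (1 : ℝ) := Real.rpow_le_rpow_of_exponent_le (hwr i).1 hκ
          _ = w i := Real.rpow_one _
          _ ≤ X := (hwr i).2
      rw [mem_coe, mem_biUnion]
      refine ⟨z, ?_, ?_⟩
      · rw [Set.Finite.mem_toFinset]
        refine ⟨hz, ?_, ?_⟩
        · have := (abs_le.1 (h3.trans (e 0 κ₁ hκ₁'))).2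
          linarith [(hwr 0).2]
        · have := (abs_le.1 (h4.trans (e 1 κ₂ hκ₂'))).2
          linarith [(hwr 1).2]
      · rw [hV, mem_filter, Fintype.mem_piFinset]
        refine ⟨fun i => ?_, h3, h4⟩
        rw [mem_Icc]
        exact ⟨by have := (hw1 i).1; omega, (hw1 i).2⟩
    have hVc : ∀ z, ((V z).card : ℝ) ≤ 9 * (X : ℝ) ^ (κ₁ + κ₂) := by
      intro z
      obtain ⟨P1, hP1⟩ : ∃ P1 : Finset ℕ, P1 = (Icc 1 X).filter (fun v : ℕ => |h₁ z - v| ≤ (v : ℝ) ^ κ₁) := ⟨_, rfl⟩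
      obtain ⟨P2, hP2⟩ : ∃ P2 : Finset ℕ, P2 = (Icc 1 X).filter (fun v : ℕ => |h₂ z - v| ≤ (v : ℝ) ^ κ₂) := ⟨_, rfl⟩
      have h2 : (V z).card ≤ (P1 ×ˢ P2).card := by
        refine card_le_card_of_injOn (fun w => (w 0, w 1)) ?_ ?_
        · intro w hw
          rw [mem_coe, hV, mem_filter, Fintype.mem_piFinset] at hw
          simp only [coe_product, Set.mem_prod, mem_coe]
          rw [hP1, hP2, mem_filter, mem_filter]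
          exact ⟨⟨hw.1 0, hw.2.1⟩, ⟨hw.1 1, hw.2.2⟩⟩
        · intro w _ w' _ hww
          have e1 := congrArg Prod.fst hww
          have e2 := congrArg Prod.snd hww
          simp only at e1 e2
          funext i
          fin_cases i
          · exact e1
          · exact e2
      have h3 := window_nat X hX (h₁ z) κ₁ hκ₁ P1 (fun v hv => by
        rw [hP1, mem_filter, mem_Icc] at hv
        exact ⟨hv.1.1, hv.1.2, hv.2⟩)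
      have h4 := window_nat X hX (h₂ z) κ₂ hκ₂ P2 (fun v hv => by
        rw [hP2, mem_filter, mem_Icc] at hv
        exact ⟨hv.1.1, hv.1.2, hv.2⟩)
      rw [card_product] at h2
      calc ((V z).card : ℝ) ≤ (P1.card : ℝ) * P2.card := by exact_mod_cast h2
        _ ≤ (3 * (X : ℝ) ^ κ₁) * (3 * (X : ℝ) ^ κ₂) := mul_le_mul h3 h4 (Nat.cast_nonneg _) (by positivity)
        _ = 9 * ((X : ℝ) ^ κ₁ * (X : ℝ) ^ κ₂) := by ring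
        _ = _ := by rw [← Real.rpow_add (by linarith)]
    have h2 := Set.ncard_le_ncard hsub (finite_toSet _)
    rw [Set.ncard_coe_finset] at h2
    have h3 : ((hfin.toFinset.biUnion V).card : ℝ) ≤ ∑ z ∈ hfin.toFinset, ((V z).card : ℝ) := by
      exact_mod_cast card_biUnion_le
    have h4 : ({w : Fin 2 → ℕ | (∀ i, 2 ≤ w i ∧ w i ≤ X) ∧ w ∈ W}.ncard : ℝ) ≤
        ∑ z ∈ hfin.toFinset, 9 * (X : ℝ) ^ (κ₁ + κ₂) :=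
      le_trans (by exact_mod_cast h2) (h3.trans (sum_le_sum fun z _ => hVc z))
    rw [sum_const, nsmul_eq_mul, ← Set.ncard_eq_toFinset_card _ hfin] at h4
    refine h4.trans ?_
    have h5 : ({z | z ∈ S ∧ h₁ z ≤ 2 * (X : ℝ) ∧ h₂ z ≤ 2 * (X : ℝ)}.ncard : ℝ) ≤ |C| * 2 ^ ρ * (X : ℝ) ^ ρ := by
      calc _ ≤ C * (2 * (X : ℝ)) ^ ρ := hcard
        _ ≤ |C| * (2 * (X : ℝ)) ^ ρ := mul_le_mul_of_nonneg_right (le_abs_self _) (by positivity)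
        _ = _ := by rw [Real.mul_rpow (by norm_num) (by linarith)]; ring
    calc ({z | z ∈ S ∧ h₁ z ≤ 2 * (X : ℝ) ∧ h₂ z ≤ 2 * (X : ℝ)}.ncard : ℝ) * (9 * (X : ℝ) ^ (κ₁ + κ₂))
        ≤ (|C| * 2 ^ ρ * (X : ℝ) ^ ρ) * (9 * (X : ℝ) ^ (κ₁ + κ₂)) := mul_le_mul_of_nonneg_right h5 (by positivity)
      _ = 9 * (|C| * 2 ^ ρ) * ((X : ℝ) ^ ρ * (X : ℝ) ^ (κ₁ + κ₂)) := by ring
      _ = 9 * (|C| * 2 ^ ρ) * (X : ℝ) ^ (((2 : ℕ) : ℝ) - c) := by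
          rw [← Real.rpow_add (by linarith), hc]
          congr 2
          push_cast
          ring

end Pool.Agent.U536.CF
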