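import Mathlib

set_option autoImplicit false

/-! Pairs of integers whose quotient is in a thin set of rational numbers (helper536). -/

namespace Pool.Agent.U536.CF

open Finset

/-- If a set of rational numbers has at most `M B ^ s` elements of height at most `B`, `s > 1`, there are at most `C T ^ s` pairs of
integers in the box of size `T` with quotient in the set. -/
theorem pairs_of_rat {Bad : Set ℚ} {s M : ℝ} (hs : 1 < s)
    (h : ∀ B : ℝ, 1 ≤ B → {q : ℚ | q ∈ Bad ∧ Height.logHeight₁ q ≤ Real.log B}.Finite ∧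
      ({q : ℚ | q ∈ Bad ∧ Height.logHeight₁ q ≤ Real.log B}.ncard : ℝ) ≤ M * B ^ s) :
    ∃ C : ℝ, ∀ T : ℕ, 1 ≤ T →
      ({α : Fin 2 → ℤ | (∀ i, |α i| ≤ (T : ℤ)) ∧
        α ∈ {α : Fin 2 → ℤ | α 1 ≠ 0 ∧ (α 0 : ℚ) / (α 1 : ℚ) ∈ Bad}}.ncard : ℝ) ≤ C * (T : ℝ) ^ s := by
  have hsum : Summable (fun n : ℤ => |(n : ℝ)| ^ (-s)) := Real.summable_abs_int_rpow hs
  have hM : 0 ≤ M := by
    have := (h 1 le_rfl).2
    rw [Real.one_rpow, mul_one] at this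
    exact le_trans (Nat.cast_nonneg _) this
  refine ⟨M * ∑' n : ℤ, |(n : ℝ)| ^ (-s), fun T hT => ?_⟩
  have hT0 : (0 : ℝ) < T := by exact_mod_cast hT
  obtain ⟨K, hK⟩ : ∃ K : Finset ℤ, K = (Icc (-(T : ℤ)) T).erase 0 := ⟨_, rfl⟩
  obtain ⟨t, ht⟩ : ∃ t : ℤ → Set (Fin 2 → ℤ), t = fun k => (fun q : ℚ => (![k * q.num, k * q.den] : Fin 2 → ℤ)) ''
      {q : ℚ | q ∈ Bad ∧ Height.logHeight₁ q ≤ Real.log (T / |(k : ℝ)|)} := ⟨_, rfl⟩
  have hsub : {α : Fin 2 → ℤ | (∀ i, |α i| ≤ (T : ℤ)) ∧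
      α ∈ {α : Fin 2 → ℤ | α 1 ≠ 0 ∧ (α 0 : ℚ) / (α 1 : ℚ) ∈ Bad}} ⊆ ⋃ k ∈ K, t k := by
    rintro α ⟨h1, h2, h3⟩
    obtain ⟨k, hk1, hk2⟩ := Rat.exists_eq_mul_div_num_and_eq_mul_div_den (α 0) h2
    have hk0 : k ≠ 0 := by
      rintro rfl
      rw [zero_mul] at hk2
      exact h2 hk2
    obtain ⟨q, hq⟩ : ∃ q : ℚ, q = (α 0 : ℚ) / (α 1 : ℚ) := ⟨_, rfl⟩
    rw [← hq] at h3 hk1 hk2
    have hkr : (0 : ℝ) < |(k : ℝ)| := abs_pos.2 (by exact_mod_cast hk0)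
    have e0 : |(k : ℝ)| * (q.num.natAbs : ℝ) ≤ T := by
      have h4 : |k * q.num| ≤ (T : ℤ) := by
        rw [← hk1]
        exact h1 0
      have h5 : |(k : ℝ) * (q.num : ℝ)| ≤ (T : ℝ) := by exact_mod_cast h4
      rwa [abs_mul, ← Int.cast_abs (a := q.num), ← Nat.cast_natAbs] at h5
    have e1 : |(k : ℝ)| * (q.den : ℝ) ≤ T := by
      have h4 := h1 1
      rw [hk2, abs_mul, Nat.abs_cast] at h4
      exact_mod_cast h4
    have hden : (1 : ℝ) ≤ q.den := by exact_mod_cast q.pos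
    have hkT : |(k : ℝ)| ≤ T := by nlinarith
    refine Set.mem_iUnion₂.2 ⟨k, ?_, ?_⟩
    · rw [hK, mem_erase, mem_Icc]
      exact ⟨hk0, abs_le.1 (by exact_mod_cast hkT)⟩
    · rw [ht]
      refine ⟨q, ⟨h3, ?_⟩, ?_⟩
      · rw [Rat.logHeight₁_eq_log_max]
        apply Real.log_le_log
        · exact_mod_cast lt_of_lt_of_le q.pos (le_max_right _ _)
        · push_cast
          rw [max_le_iff, le_div_iff₀ hkr, le_div_iff₀ hkr]
          constructor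
          · rw [mul_comm]
            exact e0
          · rw [mul_comm]
            exact e1
      · funext i
        fin_cases i
        · exact hk1.symm
        · exact hk2.symm
  have hB : ∀ k ∈ K, 1 ≤ (T : ℝ) / |(k : ℝ)| := by
    intro k hk
    rw [hK, mem_erase, mem_Icc] at hk
    have hkr : (0 : ℝ) < |(k : ℝ)| := abs_pos.2 (by exact_mod_cast hk.1)
    rw [le_div_iff₀ hkr, one_mul]
    exact_mod_cast abs_le.2 hk.2
  have hfin : ∀ k ∈ K, (t k).Finite := fun k hk => by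
    rw [ht]
    exact (h _ (hB k hk)).1.image _
  have hle : ∀ k ∈ K, ((t k).ncard : ℝ) ≤ M * (T : ℝ) ^ s * |(k : ℝ)| ^ (-s) := by
    intro k hk
    have h5 : ((t k).ncard : ℝ) ≤ M * (T / |(k : ℝ)|) ^ s := by
      rw [ht]
      exact le_trans (by exact_mod_cast Set.ncard_image_le (h _ (hB k hk)).1) (h _ (hB k hk)).2
    refine h5.trans (le_of_eq ?_)
    rw [Real.div_rpow hT0.le (abs_nonneg _), Real.rpow_neg (abs_nonneg _), div_eq_mul_inv, mul_assoc]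
  have hfinU : (⋃ k ∈ K, t k).Finite := K.finite_toSet.biUnion (fun k hk => hfin k hk)
  calc _ ≤ (((⋃ k ∈ K, t k).ncard : ℕ) : ℝ) := by exact_mod_cast Set.ncard_le_ncard hsub hfinU
    _ ≤ ((∑ k ∈ K, (t k).ncard : ℕ) : ℝ) := by exact_mod_cast Finset.set_ncard_biUnion_le K t
    _ = ∑ k ∈ K, ((t k).ncard : ℝ) := by push_cast; rfl
    _ ≤ ∑ k ∈ K, M * (T : ℝ) ^ s * |(k : ℝ)| ^ (-s) := sum_le_sum hle
    _ = M * (T : ℝ) ^ s * ∑ k ∈ K, |(k : ℝ)| ^ (-s) := by rw [mul_sum]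
    _ ≤ M * (T : ℝ) ^ s * ∑' n : ℤ, |(n : ℝ)| ^ (-s) := by
        apply mul_le_mul_of_nonneg_left _ (by positivity)
        exact hsum.sum_le_tsum _ (fun _ _ => by positivity)
    _ = M * (∑' n : ℤ, |(n : ℝ)| ^ (-s)) * (T : ℝ) ^ s := by ring

end Pool.Agent.U536.CF
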