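import Pool.Agent.U536.CF.TN
import Pool.Agent.U536.CF.Rat

set_option autoImplicit false

/-! Rational numbers with numerator and denominator near small multiples of integers with large common factors with the values of
multiplicative functions (helper536). -/

namespace Pool.Agent.U536.CF

open Pool.Agent.N733.TG (LM)

theorem common_rat {s : ℝ} (hs1 : 1 < s) (hs2 : s < 2) : ∃ η ρ : ℝ, 0 < η ∧ 0 < ρ ∧ ρ < 1 ∧
    ∀ (M : ℝ) (Bad : Set ℚ), (∀ B : ℝ, 1 ≤ B → {q : ℚ | q ∈ Bad ∧ Height.logHeight₁ q ≤ Real.log B}.Finite ∧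
      ({q : ℚ | q ∈ Bad ∧ Height.logHeight₁ q ≤ Real.log B}.ncard : ℝ) ≤ M * B ^ s) →
    ∀ F : Fin 2 → ℕ → ℕ, (∀ i, LM (F i)) → ∀ b₁ c₁ : ℝ, b₁ < 1 → 0 ≤ c₁ → c₁ < 2 * b₁ - 1 →
      ∃ N₀ : ℕ, ∀ N : ℕ, N₀ ≤ N →
      ({m : Fin 2 → ℕ | (∀ i, 1 ≤ m i ∧ m i ≤ N) ∧ ¬ ∀ w : Fin 2 → ℕ, CommonT F b₁ ρ N m w →
        ∀ u v α : Fin 2 → ℤ, (∃ l, ∀ i, u i ≠ 0 ∧ |(u i : ℝ)| ≤ (w l : ℝ) ^ η ∧ |(v i : ℝ)| ≤ (w l : ℝ) ^ η) →
        (∀ i, α i = u i * (w i : ℤ) + v i) → α 1 ≠ 0 → (α 0 : ℚ) / (α 1 : ℚ) ∉ Bad}.ncard : ℝ) ≤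
        (N : ℝ) ^ 2 * Real.exp (-(Real.log N ^ c₁)) := by
  obtain ⟨η, ρ, hη, hρ0, hρ1, hk⟩ := common_near (k := 2) (by norm_num) (c := 2 - s) (by linarith)
  refine ⟨η, ρ, hη, hρ0, hρ1, fun M Bad h F hF b₁ c₁ hb hc hcb => ?_⟩
  obtain ⟨C, hC⟩ := pairs_of_rat hs1 h
  obtain ⟨N₀, hN₀⟩ := hk F hF C b₁ c₁ hb hc hcb
  refine ⟨N₀, fun N hN => ?_⟩
  refine le_trans (le_of_eq ?_) (hN₀ N hN {α : Fin 2 → ℤ | α 1 ≠ 0 ∧ (α 0 : ℚ) / (α 1 : ℚ) ∈ Bad} (fun T hT => ?_))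
  · congr 2
    ext m
    simp only [Set.mem_ofPred_eq]
    refine and_congr_right fun _ => not_congr (forall_congr' fun w => forall_congr' fun _ => ?_)
    constructor
    · intro h1 u v hl hE
      exact h1 u v _ hl (fun i => rfl) hE.1 hE.2
    · intro h1 u v α hl h3 h4 h5
      refine h1 u v hl ⟨?_, ?_⟩
      · rw [← h3 1]
        exact h4
      · rw [← h3 0, ← h3 1]
        exact h5
  · have e : ((2 : ℕ) : ℝ) - (2 - s) = s := by push_cast; ring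
    rw [e]
    exact hC T hT

end Pool.Agent.U536.CF
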