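import Pool.Agent.U536.CF.Tw

set_option autoImplicit false

/-! Properties of natural numbers which are bad for few numbers at every scale (helper536). -/

namespace Pool.Agent.U536.CF

open Pool.Agent.N733.TG (LM Expanding)

/-- few bad numbers at every scale: a power saving, with a constant which does not depend on the properties -/
theorem scale_count {s C : ℝ} (hs : 0 < s) (N₀ : ℕ) (D₀ : ℝ) : ∃ K : ℝ, 0 ≤ K ∧ ∀ (P : ℕ → ℕ → Prop) (Q : ℕ → Prop),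
    (∀ N : ℕ, N₀ ≤ N → ({n : ℕ | 1 ≤ n ∧ n ≤ N ∧ P N n}.ncard : ℝ) ≤ C * (N : ℝ) ^ s) →
    (∀ n N : ℕ, 1 ≤ n → D₀ ≤ n → n ≤ N → N < 2 * n → Q n → P N n) → ∀ X : ℕ, 1 ≤ X →
      ({n : ℕ | 1 ≤ n ∧ n ≤ X ∧ Q n}.ncard : ℝ) ≤ K * (X : ℝ) ^ s := by
  obtain ⟨X₁, hX₁⟩ : ∃ X₁ : ℝ, X₁ = max (2 * |D₀|) (N₀ + 1) := ⟨_, rfl⟩
  have hX₁1 : 1 ≤ X₁ := by rw [hX₁]; exact le_trans (by linarith [Nat.cast_nonneg (α := ℝ) N₀]) (le_max_right _ _)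
  obtain ⟨K, hK0, hK⟩ := dyadic_unif (C := |C| + (2 * X₁ + 1)) (s := s) hs
  refine ⟨K, hK0, fun P Q hP hQ X hX => ?_⟩
  obtain ⟨S, hS⟩ : ∃ S : Set ℤ, S = {x : ℤ | 0 < x ∧ Q x.toNat} := ⟨_, rfl⟩
  have h1 := hK S (fun X hX => ?_) X (by exact_mod_cast hX)
  · refine le_trans ?_ h1.2
    refine Nat.cast_le.2 (Set.ncard_le_ncard_of_injOn (fun n : ℕ => (n : ℤ)) ?_ (fun a _ b _ h => Int.natCast_inj.1 h) h1.1)
    rintro n ⟨g1, g2, g3⟩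
    refine ⟨?_, ?_⟩
    · rw [hS]
      refine ⟨by exact_mod_cast g1, ?_⟩
      rwa [Int.toNat_natCast]
    · show |((n : ℤ) : ℝ)| ≤ (X : ℝ)
      rw [Int.cast_natCast, abs_of_nonneg (Nat.cast_nonneg n)]
      exact_mod_cast g2
  · have hXs : 1 ≤ X ^ s := Real.one_le_rpow (by linarith) hs.le
    rcases lt_or_ge X X₁ with h2 | h2
    · have h3 := card_absR S (X := X) (by linarith)
      have h4 : ({x : ℤ | x ∈ S ∧ X / 2 < |(x : ℝ)| ∧ |(x : ℝ)| ≤ X}.ncard : ℝ) ≤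
          ({x : ℤ | x ∈ S ∧ |(x : ℝ)| ≤ X}.ncard : ℝ) := by
        have hsub : {x : ℤ | x ∈ S ∧ X / 2 < |(x : ℝ)| ∧ |(x : ℝ)| ≤ X} ⊆
            {x : ℤ | x ∈ S ∧ |(x : ℝ)| ≤ X} := fun x hx => ⟨hx.1, hx.2.2⟩
        exact_mod_cast Set.ncard_le_ncard hsub (fin_absR S X)
      have h5 : (2 * X₁ + 1) * 1 ≤ (|C| + (2 * X₁ + 1)) * X ^ s :=
        mul_le_mul (by linarith [abs_nonneg C]) hXs (by norm_num) (by linarith [abs_nonneg C])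
      linarith
    · have hD : 2 * D₀ ≤ X := by
        have h3 : 2 * |D₀| ≤ X₁ := by rw [hX₁]; exact le_max_left _ _
        have h4 := le_abs_self D₀
        linarith
      have hN0 : (N₀ : ℝ) + 1 ≤ X := le_trans (by rw [hX₁]; exact le_max_right _ _) h2
      have hfl : N₀ ≤ ⌊X⌋₊ := Nat.le_floor (by linarith)
      have hflX : ((⌊X⌋₊ : ℕ) : ℝ) ≤ X := Nat.floor_le (by linarith)
      have hfin2 : {n : ℕ | 1 ≤ n ∧ n ≤ ⌊X⌋₊ ∧ P ⌊X⌋₊ n}.Finite := by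
        apply (Set.finite_Icc 1 ⌊X⌋₊).subset
        rintro x ⟨g1, g2, _⟩
        exact ⟨g1, g2⟩
      have h6 : ({x : ℤ | x ∈ S ∧ X / 2 < |(x : ℝ)| ∧ |(x : ℝ)| ≤ X}.ncard : ℝ) ≤
          ({n : ℕ | 1 ≤ n ∧ n ≤ ⌊X⌋₊ ∧ P ⌊X⌋₊ n}.ncard : ℝ) := by
        refine Nat.cast_le.2 (Set.ncard_le_ncard_of_injOn (fun x : ℤ => x.toNat) ?_ ?_ hfin2)
        · rintro x ⟨g1, g3, g4⟩
          rw [hS] at g1
          obtain ⟨n, rfl⟩ := Int.eq_ofNat_of_zero_le g1.1.le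
          have g2 := g1.2
          have g5 := g1.1
          rw [Int.toNat_natCast] at g2
          have e1 : |((n : ℤ) : ℝ)| = n := by rw [Int.cast_natCast, abs_of_nonneg (Nat.cast_nonneg n)]
          rw [e1] at g3 g4
          have h7 : n ≤ ⌊X⌋₊ := Nat.le_floor g4
          have h8 : 1 ≤ n := by exact_mod_cast g5
          refine ⟨?_, ?_, ?_⟩
          · show 1 ≤ ((n : ℤ)).toNat
            rw [Int.toNat_natCast]
            exact h8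
          · show ((n : ℤ)).toNat ≤ ⌊X⌋₊
            rw [Int.toNat_natCast]
            exact h7
          · show P ⌊X⌋₊ ((n : ℤ)).toNat
            rw [Int.toNat_natCast]
            refine hQ n ⌊X⌋₊ h8 (by linarith) h7 ?_ g2
            have h9 : ((⌊X⌋₊ : ℕ) : ℝ) < 2 * (n : ℝ) := by linarith
            exact_mod_cast h9
        · rintro x ⟨g1, _⟩ y ⟨g2, _⟩ hxy
          rw [hS] at g1 g2
          have h7 : ((x.toNat : ℕ) : ℤ) = ((y.toNat : ℕ) : ℤ) := by exact_mod_cast hxy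
          rwa [Int.toNat_of_nonneg g1.1.le, Int.toNat_of_nonneg g2.1.le] at h7
      have h7 := hP ⌊X⌋₊ hfl
      have h8 : ((⌊X⌋₊ : ℕ) : ℝ) ^ s ≤ X ^ s := Real.rpow_le_rpow (Nat.cast_nonneg _) hflX hs.le
      have h9 : C * ((⌊X⌋₊ : ℕ) : ℝ) ^ s ≤ |C| * X ^ s :=
        mul_le_mul (le_abs_self C) h8 (by positivity) (abs_nonneg C)
      have h10 : 0 ≤ (2 * X₁ + 1) * X ^ s := by positivity
      calc ({x : ℤ | x ∈ S ∧ X / 2 < |(x : ℝ)| ∧ |(x : ℝ)| ≤ X}.ncard : ℝ) ≤ |C| * X ^ s := by linarith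
        _ ≤ (|C| + (2 * X₁ + 1)) * X ^ s := by linarith

/-- **Bad numbers at scales.** `P N n` is a property of the integers `n` at the scale `N`, with at most `C N ^ s` bad `n ≤ N`; `Q n`
implies `P N n` for `D₀ ≤ n ≤ N < 2 n`. For all `m ≤ N` but `N exp (-(log N)^c)`: for EVERY `w` with a large common factor with
`f m`, no `n ≥ 1` with `| n - G w | ≤ w ^ κ` has the property `Q`. -/
theorem common_scale_nat {s C : ℝ} (hs : 0 < s) (N₀ : ℕ) (D₀ : ℝ) {f : ℕ → ℕ} (hf : LM f) {G : ℕ → ℝ} {d : ℝ}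
    (hG : Expanding G d) {κ ρ b c : ℝ} (hκ : 0 ≤ κ) (h1 : d * s + κ < ρ) (hρ : ρ ≤ 1) (hb : b < 1)
    (hc0 : 0 ≤ c) (hcb : c < 2 * b - 1) :
    ∃ N₁ : ℕ, ∀ (P : ℕ → ℕ → Prop) (Q : ℕ → Prop),
      (∀ N : ℕ, N₀ ≤ N → ({n : ℕ | 1 ≤ n ∧ n ≤ N ∧ P N n}.ncard : ℝ) ≤ C * (N : ℝ) ^ s) →
      (∀ n N : ℕ, 1 ≤ n → D₀ ≤ n → n ≤ N → N < 2 * n → Q n → P N n) → ∀ N : ℕ, N₁ ≤ N →
      ({m : ℕ | 1 ≤ m ∧ m ≤ N ∧ ¬ ∀ w : ℕ, Common f b ρ N m w → ∀ n : ℕ, 1 ≤ n → |(n : ℝ) - G w| ≤ (w : ℝ) ^ κ →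
        ¬ Q n}.ncard : ℝ) ≤ N * Real.exp (-(Real.log N ^ c)) := by
  obtain ⟨K, hK0, hK⟩ := scale_count (C := C) hs N₀ D₀
  obtain ⟨N₁, hN₁⟩ := common_good_nat_unif hf hG hs.le hκ h1 hρ hb hc0 hcb K
  refine ⟨N₁, fun P Q hP hQ N hN => ?_⟩
  refine le_trans (le_of_eq ?_) (hN₁ Q (fun X hX => hK P Q hP hQ X hX) N hN)
  congr 2
  ext m
  simp only [Set.mem_ofPred_eq]
  push Not
  rfl

end Pool.Agent.U536.CF
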