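import Pool.Agent.U536.CF.TN

set_option autoImplicit false

/-! Families of integers with a finite index set, near families of integers with large common factors with the values of
multiplicative functions (helper536). -/

namespace Pool.Agent.U536.CF

open Pool.Agent.N733.TG (LM)

/-- all `w_i ≥ exp ((log N)^b)`, and `gcd(w_i, F_i(m_i)) ≥ w_j^ρ` for all `i`, `j` -/
def CommonI {ι : Type} (F : ι → ℕ → ℕ) (b ρ : ℝ) (N : ℕ) (m w : ι → ℕ) : Prop :=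
  ∀ i, Real.exp (Real.log N ^ b) ≤ (w i : ℝ) ∧ ∀ j, (w j : ℝ) ^ ρ ≤ (Nat.gcd (w i) (F i (m i)) : ℝ)

/-- large divisors of comparable size -/
theorem commonI_of_dvd {ι : Type} {F : ι → ℕ → ℕ} {b ρ : ℝ} {N : ℕ} {m w : ι → ℕ}
    (hw : ∀ i, Real.exp (Real.log N ^ b) ≤ (w i : ℝ)) (hd : ∀ i, w i ∣ F i (m i)) (hc : ∀ i j, (w j : ℝ) ^ ρ ≤ (w i : ℝ)) :
    CommonI F b ρ N m w := by
  refine fun i => ⟨hw i, fun j => ?_⟩
  rw [Nat.gcd_eq_left (hd i)]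
  exact hc i j

/-- **Families.** `E` has at most `C T ^ (k - c)` elements in the cube of size `T`, `k` the number of indices. For all families
`m` but `N ^ k exp (-(log N) ^ c₁)`: for every family `w` with large common factors with the `F_i(m_i)`, all `a_i w_i + b_i` with
small `a_i ≠ 0` and `b_i` are not in `E`. -/
theorem common_near_I {ι : Type} [Fintype ι] [Nonempty ι] {c : ℝ} (hc : 0 < c) : ∃ η ρ : ℝ, 0 < η ∧ 0 < ρ ∧ ρ < 1 ∧
    ∀ F : ι → ℕ → ℕ, (∀ i, LM (F i)) → ∀ C b₁ c₁ : ℝ, b₁ < 1 → 0 ≤ c₁ → c₁ < 2 * b₁ - 1 →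
      ∃ N₀ : ℕ, ∀ N : ℕ, N₀ ≤ N → ∀ E : Set (ι → ℤ),
      (∀ T : ℕ, 1 ≤ T → ({α : ι → ℤ | (∀ i, |α i| ≤ (T : ℤ)) ∧ α ∈ E}.ncard : ℝ) ≤
        C * (T : ℝ) ^ ((Fintype.card ι : ℝ) - c)) →
      ({m : ι → ℕ | (∀ i, 1 ≤ m i ∧ m i ≤ N) ∧ ¬ ∀ w : ι → ℕ, CommonI F b₁ ρ N m w →
        ∀ a b : ι → ℤ, (∃ l, ∀ i, a i ≠ 0 ∧ |(a i : ℝ)| ≤ (w l : ℝ) ^ η ∧ |(b i : ℝ)| ≤ (w l : ℝ) ^ η) →
        (fun i => a i * (w i : ℤ) + b i) ∉ E}.ncard : ℝ) ≤ (N : ℝ) ^ Fintype.card ι * Real.exp (-(Real.log N ^ c₁)) := by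
  classical
  obtain ⟨e⟩ : Nonempty (Fin (Fintype.card ι) ≃ ι) := ⟨(Fintype.equivFin ι).symm⟩
  obtain ⟨η, ρ, hη, hρ0, hρ1, h⟩ := common_near (k := Fintype.card ι) Fintype.card_pos hc
  refine ⟨η, ρ, hη, hρ0, hρ1, fun F hF C b₁ c₁ hb₁ hc₁ hcb => ?_⟩
  obtain ⟨N₀, hN₀⟩ := h (fun i => F (e i)) (fun i => hF _) C b₁ c₁ hb₁ hc₁ hcb
  refine ⟨N₀, fun N hN E hE => ?_⟩
  have key := hN₀ N hN {α : Fin (Fintype.card ι) → ℤ | (fun i => α (e.symm i)) ∈ E} (fun T hT => ?_)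
  · refine le_trans ?_ key
    have hfin : {m : Fin (Fintype.card ι) → ℕ | (∀ i, 1 ≤ m i ∧ m i ≤ N) ∧ ¬ ∀ w : Fin (Fintype.card ι) → ℕ,
        CommonT (fun i => F (e i)) b₁ ρ N m w → ∀ a b : Fin (Fintype.card ι) → ℤ,
        (∃ l, ∀ i, a i ≠ 0 ∧ |(a i : ℝ)| ≤ (w l : ℝ) ^ η ∧ |(b i : ℝ)| ≤ (w l : ℝ) ^ η) →
        (fun i => a i * (w i : ℤ) + b i) ∉ {α : Fin (Fintype.card ι) → ℤ | (fun i => α (e.symm i)) ∈ E}}.Finite := by
      refine (Set.Finite.pi' (t := fun _ : Fin (Fintype.card ι) => Set.Icc 1 N) fun _ => Set.finite_Icc _ _).subset ?_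
      intro m hm i
      exact hm.1 i
    refine Nat.cast_le.2 (Set.ncard_le_ncard_of_injOn (fun (m : ι → ℕ) i => m (e i)) ?_ ?_ hfin)
    · rintro m ⟨g1, g2⟩
      refine ⟨fun i => g1 (e i), fun g3 => g2 fun w hw a b hab hE' => ?_⟩
      refine g3 (fun i => w (e i)) (fun i => ⟨(hw (e i)).1, fun j => (hw (e i)).2 (e j)⟩) (fun i => a (e i)) (fun i => b (e i)) ?_ ?_
      · obtain ⟨l, hl⟩ := hab
        refine ⟨e.symm l, fun i => ?_⟩
        rw [e.apply_symm_apply]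
        exact hl (e i)
      · show (fun i => a (e (e.symm i)) * (w (e (e.symm i)) : ℤ) + b (e (e.symm i))) ∈ E
        simpa using hE'
    · intro m _ m' _ hmm
      funext i
      have := congrFun hmm (e.symm i)
      simpa using this
  · refine le_trans ?_ (hE T hT)
    have hfin : {α : ι → ℤ | (∀ i, |α i| ≤ (T : ℤ)) ∧ α ∈ E}.Finite := by
      refine (Set.Finite.pi' (t := fun _ : ι => Set.Icc (-(T : ℤ)) T) fun _ => Set.finite_Icc _ _).subset ?_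
      intro α hα i
      exact abs_le.1 (hα.1 i)
    refine Nat.cast_le.2 (Set.ncard_le_ncard_of_injOn (fun (α : Fin (Fintype.card ι) → ℤ) i => α (e.symm i)) ?_ ?_ hfin)
    · rintro α ⟨g1, g2⟩
      exact ⟨fun i => g1 _, g2⟩
    · intro m _ m' _ hmm
      funext i
      have := congrFun hmm (e i)
      simpa using this

/-- the bound for all cubes from the bound for large cubes -/
theorem cube_bound {ι : Type} [Fintype ι] [Nonempty ι] {δ : ℝ} (hδ1 : δ ≤ 1) (H₀ : ℕ) (E : Set (ι → ℤ))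
    (h : ∀ H : ℕ, H₀ ≤ H → ({α : ι → ℤ | (∀ i, |α i| ≤ (H : ℤ)) ∧ α ∈ E}.ncard : ℝ) ≤
      (H : ℝ) ^ (-δ) * (2 * H + 1 : ℝ) ^ Fintype.card ι) (T : ℕ) (hT : 1 ≤ T) :
    ({α : ι → ℤ | (∀ i, |α i| ≤ (T : ℤ)) ∧ α ∈ E}.ncard : ℝ) ≤
      (3 ^ Fintype.card ι + (2 * H₀ + 1 : ℝ) ^ Fintype.card ι) * (T : ℝ) ^ ((Fintype.card ι : ℝ) - δ) := by
  classical
  have hT1 : (1 : ℝ) ≤ T := by exact_mod_cast hT
  have hT0 : (0 : ℝ) < T := by linarith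
  have hk : (1 : ℝ) ≤ (Fintype.card ι : ℝ) := by exact_mod_cast Fintype.card_pos (α := ι)
  have hTs : 1 ≤ (T : ℝ) ^ ((Fintype.card ι : ℝ) - δ) := Real.one_le_rpow hT1 (by linarith)
  rcases le_or_gt H₀ T with h1 | h1
  · refine (h T h1).trans ?_
    calc (T : ℝ) ^ (-δ) * (2 * T + 1 : ℝ) ^ Fintype.card ι ≤ (T : ℝ) ^ (-δ) * (3 * T) ^ Fintype.card ι :=
          mul_le_mul_of_nonneg_left (pow_le_pow_left₀ (by positivity) (by linarith) _) (by positivity)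
      _ = 3 ^ Fintype.card ι * (T : ℝ) ^ ((Fintype.card ι : ℝ) - δ) := by
          rw [mul_pow, sub_eq_neg_add, Real.rpow_add hT0, Real.rpow_natCast]
          ring
      _ ≤ _ := mul_le_mul_of_nonneg_right (by
          have : (0 : ℝ) ≤ (2 * H₀ + 1 : ℝ) ^ Fintype.card ι := by positivity
          linarith) (by linarith)
  · have hsub : {α : ι → ℤ | (∀ i, |α i| ≤ (T : ℤ)) ∧ α ∈ E} ⊆
        ((Fintype.piFinset (fun _ : ι => Finset.Icc (-(T : ℤ)) T) : Finset (ι → ℤ)) : Set (ι → ℤ)) := by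
      rintro α ⟨hα, -⟩
      rw [Finset.mem_coe, Fintype.mem_piFinset]
      intro i
      rw [Finset.mem_Icc]
      exact abs_le.1 (hα i)
    have h2 := Set.ncard_le_ncard hsub (Finset.finite_toSet _)
    rw [Set.ncard_coe_finset, Fintype.card_piFinset, Finset.prod_const, Finset.card_univ, Int.card_Icc] at h2
    have h3 : ((T : ℤ) + 1 - -(T : ℤ)).toNat = 2 * T + 1 := by omega
    rw [h3] at h2
    have h4 : (({α : ι → ℤ | (∀ i, |α i| ≤ (T : ℤ)) ∧ α ∈ E}.ncard : ℕ) : ℝ) ≤ (2 * T + 1 : ℝ) ^ Fintype.card ι := by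
      exact_mod_cast h2
    have h5 : (2 * T + 1 : ℝ) ^ Fintype.card ι ≤ (2 * H₀ + 1 : ℝ) ^ Fintype.card ι := by
      apply pow_le_pow_left₀ (by positivity)
      have : (T : ℝ) ≤ H₀ := by exact_mod_cast h1.le
      linarith
    have h6 : (0 : ℝ) < 3 ^ Fintype.card ι := by positivity
    calc (({α : ι → ℤ | (∀ i, |α i| ≤ (T : ℤ)) ∧ α ∈ E}.ncard : ℕ) : ℝ)
        ≤ (3 ^ Fintype.card ι + (2 * H₀ + 1 : ℝ) ^ Fintype.card ι) * 1 := by linarith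
      _ ≤ _ := mul_le_mul_of_nonneg_left hTs (by positivity)

end Pool.Agent.U536.CF
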